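import Pool.Agent.H89.Hart.Frame

/-! Polynomials along polynomial curves: chain rule and top coefficients. -/

open MvPolynomial

set_option autoImplicit false
set_option linter.unusedSectionVars false

namespace Pool.Agent.H26.Uni

open H89.Hart

variable {ι : Type*} [Fintype ι] [DecidableEq ι]

/-- the restriction of polynomials to a polynomial curve. -/
noncomputable def along (γ : ι → Polynomial ℂ) : MvPolynomial ι ℂ →ₐ[ℂ] Polynomial ℂ := aeval γ

theorem along_X (γ : ι → Polynomial ℂ) (i : ι) : along γ (X i) = γ i := by simp [along]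

theorem along_C (γ : ι → Polynomial ℂ) (c : ℂ) : along γ (C c) = Polynomial.C c := by
  simp [along]

theorem eval_along (γ : ι → Polynomial ℂ) (f : MvPolynomial ι ℂ) (t : ℂ) :
    (along γ f).eval t = eval (fun k => (γ k).eval t) f := by
  have : ((Polynomial.aeval t : Polynomial ℂ →ₐ[ℂ] ℂ).comp (along γ)) =
      (aeval (fun k => (γ k).eval t) : MvPolynomial ι ℂ →ₐ[ℂ] ℂ) := by
    apply MvPolynomial.algHom_ext
    intro i
    simp [along]
  have h2 := congrArg (fun φ => φ f) this
  simpa [aeval_eq_eval, Polynomial.aeval_def] using h2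

theorem derivative_along (γ : ι → Polynomial ℂ) (f : MvPolynomial ι ℂ) :
    (along γ f).derivative = ∑ i, along γ (pderiv i f) * (γ i).derivative := by
  induction f using MvPolynomial.induction_on with
  | C c => simp [along]
  | add p q hp hq =>
    rw [map_add, Polynomial.derivative_add, hp, hq, ← Finset.sum_add_distrib]
    refine Finset.sum_congr rfl fun i _ => ?_
    rw [map_add, map_add, add_mul]
  | mul_X p j hp =>
    rw [map_mul, Polynomial.derivative_mul, hp, along_X]
    have h2 : ∀ i, along γ (pderiv i (p * X j)) * (γ i).derivative =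
        (along γ (pderiv i p) * (γ i).derivative) * γ j +
        (if i = j then along γ p * (γ j).derivative else 0) := by
      intro i
      rw [Derivation.leibniz, pderiv_X]
      by_cases h : i = j
      · subst h; simp [map_add, map_mul, along_X]; ring
      · have h' : ¬ j = i := fun e => h e.symm
        simp [h, h', map_mul, along_X]; ring
    rw [Finset.sum_congr rfl (fun i _ => h2 i), Finset.sum_add_distrib, Finset.sum_mul]
    simp

theorem reflect_prod {α : Type*} [DecidableEq α] (s : Finset α) (f : α → Polynomial ℂ)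
    (a : α → ℕ) (h : ∀ i ∈ s, (f i).natDegree ≤ a i) :
    (∏ i ∈ s, f i).natDegree ≤ ∑ i ∈ s, a i ∧
      Polynomial.reflect (∑ i ∈ s, a i) (∏ i ∈ s, f i) =
        ∏ i ∈ s, Polynomial.reflect (a i) (f i) := by
  induction s using Finset.induction_on with
  | empty =>
    refine ⟨by simp, ?_⟩
    rw [Finset.prod_empty, Finset.sum_empty, Finset.prod_empty, ← Polynomial.C_1,
      Polynomial.reflect_C]
    simp
  | insert b s hb ih =>
    obtain ⟨h1, h2⟩ := ih fun i hi => h i (Finset.mem_insert_of_mem hi)
    have h3 := h b (Finset.mem_insert_self b s)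
    rw [Finset.prod_insert hb, Finset.sum_insert hb, Finset.prod_insert hb]
    refine ⟨(Polynomial.natDegree_mul_le).trans (add_le_add h3 h1), ?_⟩
    rw [Polynomial.reflect_mul _ _ h3 h1, h2]

theorem reflect_pow (f : Polynomial ℂ) (a n : ℕ) (h : f.natDegree ≤ a) :
    (f ^ n).natDegree ≤ n * a ∧
      Polynomial.reflect (n * a) (f ^ n) = Polynomial.reflect a f ^ n := by
  have := reflect_prod (Finset.range n) (fun _ => f) (fun _ => a) (fun _ _ => h)
  simpa using this

theorem along_homog {f : MvPolynomial ι ℂ} {d : ℕ} (hf : f.IsHomogeneous d)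
    (γ : ι → Polynomial ℂ) (a : ℕ) (hγ : ∀ k, (γ k).natDegree ≤ a) :
    (along γ f).natDegree ≤ a * d ∧ Polynomial.reflect (a * d) (along γ f) =
      along (fun k => Polynomial.reflect a (γ k)) f := by
  have hmon : ∀ s : ι →₀ ℕ, ∀ c : ℂ, s.degree = d →
      (along γ (monomial s c)).natDegree ≤ a * d ∧
      Polynomial.reflect (a * d) (along γ (monomial s c)) =
      along (fun k => Polynomial.reflect a (γ k)) (monomial s c) := by
    intro s c hs
    have h1 : ∀ δ : ι → Polynomial ℂ, along δ (monomial s c) =
        Polynomial.C c * ∏ k, δ k ^ s k := by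
      intro δ
      rw [along, aeval_monomial]
      congr 1
      exact Finsupp.prod_fintype _ _ (fun i => pow_zero _)
    have h2 := reflect_prod Finset.univ (fun k => γ k ^ s k) (fun k => s k * a)
      (fun k _ => (reflect_pow (γ k) a (s k) (hγ k)).1)
    have h3 : ∑ k, s k * a = a * d := by
      rw [← Finset.sum_mul, ← hs, mul_comm, Finsupp.degree_eq_sum]
    rw [h3] at h2
    rw [h1, h1]
    refine ⟨(Polynomial.natDegree_C_mul_le _ _).trans h2.1, ?_⟩
    rw [Polynomial.reflect_C_mul, h2.2]
    congr 1
    refine Finset.prod_congr rfl fun k _ => ?_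
    exact (reflect_pow (γ k) a (s k) (hγ k)).2
  have hsup : ∀ s ∈ f.support, s.degree = d := by
    intro s hs
    have := hf (mem_support_iff.1 hs)
    rw [Finsupp.degree_eq_weight_one]
    exact this
  rw [f.as_sum, map_sum, map_sum]
  constructor
  · exact Polynomial.natDegree_sum_le_of_forall_le _ _ fun s hs => (hmon s _ (hsup s hs)).1
  · have : ∀ (S : Finset (ι →₀ ℕ)) (F : (ι →₀ ℕ) → Polynomial ℂ), Polynomial.reflect (a * d) (∑ s ∈ S, F s) =
        ∑ s ∈ S, Polynomial.reflect (a * d) (F s) := by
      intro S F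
      induction S using Finset.induction_on with
      | empty => simp
      | insert b S hb ih => rw [Finset.sum_insert hb, Finset.sum_insert hb,
          Polynomial.reflect_add, ih]
    rw [this]
    exact Finset.sum_congr rfl fun s hs => (hmon s _ (hsup s hs)).2

theorem along_coeff_top {f : MvPolynomial ι ℂ} {d : ℕ} (hf : f.IsHomogeneous d)
    (γ : ι → Polynomial ℂ) (a : ℕ) (hγ : ∀ k, (γ k).natDegree ≤ a) :
    (along γ f).coeff (a * d) = eval (fun k => (γ k).coeff a) f := by
  have h := (along_homog hf γ a hγ).2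
  have h1 := congrArg (fun p => Polynomial.coeff p 0) h
  simp only [Polynomial.coeff_reflect, Polynomial.revAt_zero] at h1
  have h2 : (fun k => (Polynomial.reflect a (γ k)).eval 0) = fun k => (γ k).coeff a := by
    funext k
    rw [← Polynomial.coeff_zero_eq_eval_zero, Polynomial.coeff_reflect, Polynomial.revAt_zero]
  rw [h1, Polynomial.coeff_zero_eq_eval_zero, eval_along, h2]

theorem along_coeff_sub {f : MvPolynomial ι ℂ} {d : ℕ} (hf : f.IsHomogeneous d)
    (γ : ι → Polynomial ℂ) (a : ℕ) (ha : 1 ≤ a) (hd : 1 ≤ d) (hγ : ∀ k, (γ k).natDegree ≤ a) :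
    (along γ f).coeff (a * d - 1) =
      dif f (fun k => (γ k).coeff a) ⬝ᵥ (fun k => (γ k).coeff (a - 1)) := by
  have h := (along_homog hf γ a hγ).2
  have h1 := congrArg (fun p => Polynomial.coeff p 1) h
  have had : 1 ≤ a * d := Nat.mul_pos ha hd
  simp only [Polynomial.coeff_reflect, Polynomial.revAt_le had] at h1
  have h2 : ∀ p : Polynomial ℂ, p.coeff 1 = p.derivative.eval 0 := by
    intro p
    rw [← Polynomial.coeff_zero_eq_eval_zero, Polynomial.coeff_derivative]
    simp
  rw [h1, h2, derivative_along, Polynomial.eval_finsetSum, dotProduct]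
  refine Finset.sum_congr rfl fun i _ => ?_
  rw [Polynomial.eval_mul, eval_along, ← h2, Polynomial.coeff_reflect, Polynomial.revAt_le ha]
  have h3 : (fun k => (Polynomial.reflect a (γ k)).eval 0) = fun k => (γ k).coeff a := by
    funext k
    rw [← Polynomial.coeff_zero_eq_eval_zero, Polynomial.coeff_reflect, Polynomial.revAt_zero]
  rw [h3]
  rfl

end Pool.Agent.H26.Uni
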