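import Mathlib

/-!
# Determinants of matrices of polynomials

* `trace_ode`: if `δ H' = M H` then `δ (det H)' = tr M det H`;
* `coeff_det_of_row`: the top coefficient of a determinant with prescribed row degrees;
* `wronskian`: the Wronskian of polynomials of distinct degrees.
-/

open Polynomial

set_option autoImplicit false

namespace Pool.Agent.H26.Uni

section deriv

variable {n : Type*} [Fintype n] [DecidableEq n] {R : Type*} [CommRing R]

theorem derivative_det_col (M : Matrix n n R[X]) :
    derivative M.det = ∑ a, (M.updateCol a (fun i => derivative (M i a))).det := by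
  simp only [Matrix.det_apply, derivative_sum]
  rw [Finset.sum_comm]
  refine Finset.sum_congr rfl fun σ _ => ?_
  rw [← Finset.smul_sum]
  have h1 : derivative (Equiv.Perm.sign σ • ∏ i, M (σ i) i) =
      Equiv.Perm.sign σ • derivative (∏ i, M (σ i) i) := by
    rcases Int.units_eq_one_or (Equiv.Perm.sign σ) with h | h <;> rw [h] <;> simp [Units.neg_smul]
  rw [h1, derivative_prod_finset]
  congr 1
  refine Finset.sum_congr rfl fun a _ => ?_
  rw [← Finset.mul_prod_erase Finset.univ _ (Finset.mem_univ a), mul_comm]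
  congr 1
  · simp
  · refine Finset.prod_congr rfl fun b hb => ?_
    have : b ≠ a := (Finset.mem_erase.1 hb).1
    simp [this]

theorem derivative_det_row (M : Matrix n n R[X]) :
    derivative M.det = ∑ a, (M.updateRow a (fun j => derivative (M a j))).det := by
  rw [← Matrix.det_transpose, derivative_det_col]
  refine Finset.sum_congr rfl fun a _ => ?_
  rw [← Matrix.det_transpose, Matrix.updateCol_transpose, Matrix.transpose_transpose]
  rfl

/-- the trace formula for a linear differential equation. -/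
theorem trace_ode (δ : R[X]) (H M : Matrix n n R[X])
    (h : ∀ i k, δ * derivative (H i k) = ∑ j, M i j * H j k) :
    δ * derivative H.det = M.trace * H.det := by
  rw [derivative_det_row, Finset.mul_sum, Matrix.trace, Finset.sum_mul]
  refine Finset.sum_congr rfl fun a _ => ?_
  rw [← Matrix.det_updateRow_smul]
  have : (δ • fun j => derivative (H a j)) = ∑ k, (M a k) • H k := by
    funext j
    rw [Pi.smul_apply, smul_eq_mul, h, Finset.sum_apply]
    simp [Pi.smul_apply]
  rw [this, Matrix.det_updateRow_sum]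
  simp [Matrix.diag]

end deriv

section rows

variable {n : Type*} [Fintype n] [DecidableEq n] {R : Type*} [CommRing R]

theorem coeff_prod_le {α : Type*} [DecidableEq α] (s : Finset α) (f : α → R[X]) (a : α → ℕ)
    (h : ∀ i ∈ s, (f i).natDegree ≤ a i) :
    (∏ i ∈ s, f i).natDegree ≤ ∑ i ∈ s, a i ∧
      (∏ i ∈ s, f i).coeff (∑ i ∈ s, a i) = ∏ i ∈ s, (f i).coeff (a i) := by
  induction s using Finset.induction_on with
  | empty => simp
  | insert b s hb ih =>
    obtain ⟨h1, h2⟩ := ih fun i hi => h i (Finset.mem_insert_of_mem hi)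
    have h3 := h b (Finset.mem_insert_self b s)
    rw [Finset.prod_insert hb, Finset.sum_insert hb, Finset.prod_insert hb]
    refine ⟨(natDegree_mul_le).trans (add_le_add h3 h1), ?_⟩
    rw [Polynomial.coeff_mul_add_eq_of_natDegree_le h3 h1, h2]

/-- the top coefficient of the determinant of a matrix with row degrees `≤ a i`. -/
theorem coeff_det_of_row (M : Matrix n n R[X]) (a : n → ℕ)
    (h : ∀ i j, (M i j).natDegree ≤ a i) :
    M.det.natDegree ≤ ∑ i, a i ∧
      M.det.coeff (∑ i, a i) = (Matrix.of fun i j => (M i j).coeff (a i)).det := by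
  have h0 : ∀ σ : Equiv.Perm n, (∏ i, M (σ i) i).natDegree ≤ ∑ i, a i ∧
      (∏ i, M (σ i) i).coeff (∑ i, a i) = ∏ i, (M (σ i) i).coeff (a (σ i)) := by
    intro σ
    have := coeff_prod_le Finset.univ (fun i => M (σ i) i) (fun i => a (σ i))
      (fun i _ => h _ _)
    rwa [Equiv.sum_comp σ a] at this
  constructor
  · rw [Matrix.det_apply]
    refine natDegree_sum_le_of_forall_le _ _ fun σ _ => ?_
    refine le_trans ?_ (h0 σ).1
    rcases Int.units_eq_one_or (Equiv.Perm.sign σ) with hs | hs <;> rw [hs] <;>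
      simp [Units.neg_smul]
  · rw [Matrix.det_apply, Matrix.det_apply, finsetSum_coeff]
    refine Finset.sum_congr rfl fun σ _ => ?_
    have h1 := (h0 σ).2
    rcases Int.units_eq_one_or (Equiv.Perm.sign σ) with hs | hs <;> rw [hs] <;>
      simp [Units.neg_smul, h1]

end rows

section wronskian

theorem coeff_iterate_derivative' (f : ℂ[X]) (j e : ℕ) (hj : j ≤ e) :
    (derivative^[j] f).coeff (e - j) = (e.descFactorial j : ℂ) * f.coeff e := by
  rw [coeff_iterate_derivative, Nat.sub_add_cancel hj, nsmul_eq_mul]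

/-- the Wronskian of polynomials of distinct degrees `e k ≥ r`. -/
theorem wronskian {r : ℕ} (f : Fin r → ℂ[X]) (e : Fin r → ℕ) (he : Function.Injective e)
    (hr : ∀ k, r ≤ e k) (hf : ∀ k, (f k).natDegree = e k) (hf0 : ∀ k, f k ≠ 0) :
    (Matrix.of fun k j : Fin r => derivative^[(j : ℕ)] (f k)).det.natDegree + ∑ j : Fin r, (j : ℕ) =
      ∑ k, e k ∧
    (Matrix.of fun k j : Fin r => derivative^[(j : ℕ)] (f k)).det ≠ 0 := by
  set W : Matrix (Fin r) (Fin r) ℂ[X] := Matrix.of fun k j : Fin r => derivative^[(j : ℕ)] (f k)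
    with hW
  -- multiply column `j` by `X ^ j`
  set W' : Matrix (Fin r) (Fin r) ℂ[X] := Matrix.of fun k j : Fin r => W k j * X ^ (j : ℕ) with hW'
  have hdet : W'.det = (∏ j : Fin r, (X : ℂ[X]) ^ (j : ℕ)) * W.det := by
    rw [← Matrix.det_mul_row]
    congr 1
    ext k j
    simp [hW', mul_comm]
  have hrow : ∀ k j, (W' k j).natDegree ≤ e k := by
    intro k j
    have h1 : (W k j).natDegree ≤ e k - j := by
      have := natDegree_iterate_derivative (f k) (j : ℕ)
      rw [hf k] at this
      exact this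
    have h2 : (j : ℕ) ≤ e k := (Nat.le_of_lt j.2).trans (hr k)
    have h3 : (W' k j).natDegree ≤ (W k j).natDegree + j := by
      simp only [hW', Matrix.of_apply]
      refine natDegree_mul_le.trans ?_
      simp
    omega
  obtain ⟨hd1, hd2⟩ := coeff_det_of_row W' e hrow
  have hcoef : (Matrix.of fun k j => (W' k j).coeff (e k)) =
      Matrix.of fun k j : Fin r => (f k).leadingCoeff * ((e k).descFactorial (j : ℕ) : ℂ) := by
    ext k j
    simp only [Matrix.of_apply, hW', hW]
    have h2 : (j : ℕ) ≤ e k := (Nat.le_of_lt j.2).trans (hr k)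
    obtain ⟨c, hc⟩ := Nat.exists_eq_add_of_le' h2
    have h3 : (derivative^[(j : ℕ)] (f k) * X ^ (j : ℕ)).coeff (e k) =
        (derivative^[(j : ℕ)] (f k)).coeff (e k - j) := by
      rw [hc, coeff_mul_X_pow, Nat.add_sub_cancel]
    rw [h3, coeff_iterate_derivative' _ _ _ h2, leadingCoeff, hf k, mul_comm]
  rw [hcoef] at hd2
  have hdetne : (Matrix.of fun k j : Fin r =>
      (f k).leadingCoeff * ((e k).descFactorial (j : ℕ) : ℂ)).det ≠ 0 := by
    rw [Matrix.det_mul_column]
    refine mul_ne_zero (Finset.prod_ne_zero_iff.2 fun k _ => leadingCoeff_ne_zero.2 (hf0 k)) ?_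
    have h4 := Matrix.det_eval_matrixOfPolynomials_eq_det_vandermonde (fun k => ((e k : ℕ) : ℂ))
      (fun j : Fin r => descPochhammer ℂ (j : ℕ)) (fun j => descPochhammer_natDegree ℂ _)
      (fun j => monic_descPochhammer ℂ _)
    have h5 : (Matrix.of fun k j : Fin r => ((descPochhammer ℂ (j : ℕ)).eval ((e k : ℕ) : ℂ))) =
        fun k j : Fin r => ((e k).descFactorial (j : ℕ) : ℂ) := by
      ext k j
      simp only [Matrix.of_apply]
      exact descPochhammer_eval_eq_descFactorial ℂ _ _
    rw [← h5, ← h4, Matrix.det_vandermonde_ne_zero_iff]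
    intro a b hab
    have hab' : ((e a : ℕ) : ℂ) = ((e b : ℕ) : ℂ) := hab
    exact he (by exact_mod_cast hab')
  have hW'0 : W'.det.coeff (∑ i, e i) ≠ 0 := by rw [hd2]; exact hdetne
  have hW'ne : W'.det ≠ 0 := by
    intro h0
    rw [h0] at hW'0
    simp at hW'0
  have hdeg : W'.det.natDegree = ∑ i, e i :=
    le_antisymm hd1 (le_natDegree_of_ne_zero hW'0)
  have hWne : W.det ≠ 0 := by
    intro h0
    apply hW'ne
    rw [hdet, h0, mul_zero]
  refine ⟨?_, hWne⟩
  have h6 : (∏ j : Fin r, (X : ℂ[X]) ^ (j : ℕ)) = X ^ (∑ j : Fin r, (j : ℕ)) :=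
    Finset.prod_pow_eq_pow_sum _ _ _
  rw [hdet, h6, natDegree_mul (pow_ne_zero _ X_ne_zero) hWne, natDegree_X_pow] at hdeg
  omega

end wronskian

end Pool.Agent.H26.Uni
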