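import Pool.Agent.H26.Uni.Trace3

/-!
# Echelon bases of spaces of polynomials and the Wronskian bound (5c)
-/

open MvPolynomial Matrix H89.Hart H12.Uni

set_option autoImplicit false
set_option linter.unusedSectionVars false

namespace Pool.Agent.H26.Uni

/-- a finite dimensional space of polynomials has a basis with increasing degrees. -/
theorem echelon : ∀ (n r : ℕ) (U : Submodule ℂ (Polynomial ℂ)),
    (∀ f ∈ U, f.degree < n) → Module.finrank ℂ U = r →
    ∃ f : Fin r → Polynomial ℂ, (∀ k, f k ∈ U) ∧ (∀ k, f k ≠ 0) ∧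
      StrictMono fun k => (f k).natDegree := by
  intro n
  induction n with
  | zero =>
    intro r U hU hr
    have hU0 : U = ⊥ := by
      rw [Submodule.eq_bot_iff]
      intro f hf
      have h1 := hU f hf
      by_contra h0
      have h2 := (Polynomial.zero_le_degree_iff).2 h0
      exact absurd (lt_of_le_of_lt h2 h1) (by simp)
    rw [hU0, finrank_bot] at hr
    subst hr
    exact ⟨fun k => k.elim0, fun k => k.elim0, fun k => k.elim0, fun a => a.elim0⟩
  | succ n ih =>
    intro r U hU hr
    by_cases hall : ∀ f ∈ U, f.coeff n = 0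
    · refine ih r U (fun f hf => ?_) hr
      rw [Polynomial.degree_lt_iff_coeff_zero]
      intro k hk
      rcases Nat.eq_or_lt_of_le hk with h1 | h1
      · rw [← h1]; exact hall f hf
      · exact Polynomial.coeff_eq_zero_of_degree_lt
          (lt_of_lt_of_le (hU f hf) (by exact_mod_cast h1))
    · push Not at hall
      obtain ⟨f0, hf0, hf0n⟩ := hall
      let U' : Submodule ℂ (Polynomial ℂ) := U ⊓ LinearMap.ker (Polynomial.lcoeff ℂ n)
      have hfin : FiniteDimensional ℂ U := by
        have hle : U ≤ Polynomial.degreeLT ℂ (n + 1) := by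
          intro f hf
          rw [Polynomial.mem_degreeLT]
          exact_mod_cast hU f hf
        exact Submodule.finiteDimensional_of_le hle
      have hU'fin : Module.finrank ℂ U' + 1 = r := by
        let φ : U →ₗ[ℂ] ℂ := (Polynomial.lcoeff ℂ n).domRestrict U
        have h1 := LinearMap.finrank_range_add_finrank_ker φ
        have h2 : LinearMap.range φ = ⊤ := by
          rw [LinearMap.range_eq_top]
          apply LinearMap.surjective_of_ne_zero
          intro h0
          apply hf0n
          have := congrArg (fun ψ => ψ ⟨f0, hf0⟩) h0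
          simpa [φ] using this
        have h3 : Module.finrank ℂ (LinearMap.ker φ) = Module.finrank ℂ U' := by
          have h4 : (LinearMap.ker φ).map U.subtype = U' := by
            ext f
            simp only [Submodule.mem_map, LinearMap.mem_ker, Submodule.subtype_apply, U',
              Submodule.mem_inf, φ, LinearMap.domRestrict_apply]
            constructor
            · rintro ⟨x, hx, rfl⟩
              exact ⟨x.2, hx⟩
            · rintro ⟨h5, h6⟩
              exact ⟨⟨f, h5⟩, h6, rfl⟩
          rw [← h4]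
          exact (Submodule.equivMapOfInjective U.subtype U.injective_subtype _).finrank_eq
        rw [h2, finrank_top, Module.finrank_self, h3, hr] at h1
        omega
      obtain ⟨f, hfU, hf0', hmono⟩ := ih _ U' (fun f hf => by
        rw [Polynomial.degree_lt_iff_coeff_zero]
        intro k hk
        rcases Nat.eq_or_lt_of_le hk with h1 | h1
        · rw [← h1]
          exact hf.2
        · exact Polynomial.coeff_eq_zero_of_degree_lt
            (lt_of_lt_of_le (hU f hf.1) (by exact_mod_cast h1))) rfl
      subst hU'fin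
      have hf0ne : f0 ≠ 0 := by rintro rfl; simp at hf0n
      have hf0deg : f0.natDegree = n := by
        apply le_antisymm
        · have := hU f0 hf0
          have h2 := (Polynomial.natDegree_lt_iff_degree_lt hf0ne).2 this
          omega
        · exact Polynomial.le_natDegree_of_ne_zero hf0n
      refine ⟨Fin.snoc f f0, ?_, ?_, ?_⟩
      · intro k
        refine Fin.lastCases ?_ (fun i => ?_) k
        · simpa using hf0
        · simpa using (hfU i).1
      · intro k
        refine Fin.lastCases ?_ (fun i => ?_) k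
        · simpa using hf0ne
        · simpa using hf0' i
      · have hlt : ∀ i, (f i).natDegree < n := by
          intro i
          have h1 := hU _ (hfU i).1
          have h2 := (Polynomial.natDegree_lt_iff_degree_lt (hf0' i)).2 h1
          have h3 : (f i).coeff n = 0 := (hfU i).2
          rcases Nat.lt_or_ge (f i).natDegree n with h4 | h4
          · exact h4
          · exfalso
            have h5 : (f i).natDegree = n := by omega
            rw [← h5] at h3
            exact hf0' i (Polynomial.leadingCoeff_eq_zero.1 h3)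
        intro a b hab
        induction b using Fin.lastCases with
        | last =>
          induction a using Fin.lastCases with
          | last => exact absurd hab (lt_irrefl _)
          | cast i =>
            simp only [Fin.snoc_castSucc, Fin.snoc_last]
            rw [hf0deg]
            exact hlt i
        | cast j =>
          induction a using Fin.lastCases with
          | last => exact absurd hab (not_lt.2 (Fin.le_last _))
          | cast i =>
            simp only [Fin.snoc_castSucc]
            exact hmono (by simpa using hab)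

variable {ι : Type*} [Fintype ι] [DecidableEq ι]

theorem phi_add (A : Matrix ι ι ℂ) (m : ℕ) (s s' v : ι → ℂ) :
    phi A m (s + s') v = phi A m s v + phi A m s' v := by
  ext j
  rw [Polynomial.coeff_add, coeff_phi, coeff_phi, coeff_phi]
  split_ifs
  · rw [add_dotProduct]; ring
  · simp

theorem phi_smul (A : Matrix ι ι ℂ) (m : ℕ) (c : ℂ) (s v : ι → ℂ) :
    phi A m (c • s) v = c • phi A m s v := by
  ext j
  rw [Polynomial.coeff_smul, coeff_phi, coeff_phi]
  split_ifs
  · rw [smul_dotProduct, smul_eq_mul, smul_eq_mul]; ring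
  · simp

/-- `s ↦ s(exp(-tA)v)` as a linear map. -/
noncomputable def phiLin (A : Matrix ι ι ℂ) (m : ℕ) (v : ι → ℂ) : (ι → ℂ) →ₗ[ℂ] Polynomial ℂ where
  toFun s := phi A m s v
  map_add' s s' := phi_add A m s s' v
  map_smul' c s := phi_smul A m c s v

theorem derivative_phi {A : Matrix ι ι ℂ} {m : ℕ} (hA : A ^ (m + 1) = 0) (s v : ι → ℂ) :
    (phi A m s v).derivative = phi A m s (-(A *ᵥ v)) := by
  ext n
  rw [Polynomial.coeff_derivative, coeff_phi, coeff_phi]
  have h1 : A ^ n *ᵥ (-(A *ᵥ v)) = -(A ^ (n + 1) *ᵥ v) := by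
    rw [Matrix.mulVec_neg, Matrix.mulVec_mulVec, ← pow_succ]
  have h3 : ((n + 1).factorial : ℂ) = (n + 1) * (n.factorial : ℂ) := by
    rw [Nat.factorial_succ]; push_cast; ring
  have h4 : (n : ℂ) + 1 ≠ 0 := Nat.cast_add_one_ne_zero n
  have h5 : (n.factorial : ℂ) ≠ 0 := Nat.cast_ne_zero.2 (Nat.factorial_ne_zero n)
  rw [h1, dotProduct_neg]
  by_cases hn : n + 1 ≤ m
  · rw [if_pos hn, if_pos (by omega), h3, pow_succ]
    field_simp
  · rw [if_neg hn, zero_mul]
    by_cases h2 : n ≤ m
    · have hnm : n = m := by omega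
      subst hnm
      rw [if_pos h2, hA, Matrix.zero_mulVec, dotProduct_zero]
      simp
    · rw [if_neg h2]

theorem iterate_derivative_phi {A : Matrix ι ι ℂ} {m : ℕ} (hA : A ^ (m + 1) = 0) (s : ι → ℂ)
    (j : ℕ) : ∀ v : ι → ℂ, Polynomial.derivative^[j] (phi A m s v) =
      phi A m s ((-1 : ℂ) ^ j • (A ^ j *ᵥ v)) := by
  induction j with
  | zero => intro v; simp
  | succ j ih =>
    intro v
    rw [Function.iterate_succ_apply, derivative_phi hA, ih]
    congr 1
    rw [Matrix.mulVec_neg, Matrix.mulVec_mulVec, ← pow_succ, pow_succ (-1 : ℂ)]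
    rw [mul_neg_one, neg_smul, smul_neg]

theorem phi_sum (A : Matrix ι ι ℂ) (m : ℕ) {r : ℕ} (c : Fin r → ℂ) (s : Fin r → ι → ℂ)
    (v : ι → ℂ) : phi A m (∑ k, c k • s k) v = ∑ k, c k • phi A m (s k) v := by
  have h : phiLin A m v (∑ k, c k • s k) = ∑ k, phiLin A m v (c k • s k) :=
    map_sum (phiLin A m v) (fun k => c k • s k) Finset.univ
  refine h.trans (Finset.sum_congr rfl fun k _ => ?_)
  exact phi_smul A m (c k) (s k) v

/-- independence from a nonzero Pluecker polynomial. -/
theorem li_of_plu {A : Matrix ι ι ℂ} {m : ℕ} {r : ℕ} {s l : Fin r → ι → ℂ}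
    (h : plu A m s l ≠ 0) : LinearIndependent ℂ s := by
  rw [Fintype.linearIndependent_iff]
  intro c hc
  have h1 : Matrix.vecMul (fun k => Polynomial.C (c k))
      (Matrix.of fun k j => phi A m (s k) (l j)) = 0 := by
    funext j
    have h2 := phi_sum A m c s (l j)
    rw [hc] at h2
    have h3 : phi A m (0 : ι → ℂ) (l j) = 0 := (phiLin A m (l j)).map_zero
    rw [h3] at h2
    simp only [Matrix.vecMul, dotProduct, Matrix.of_apply, Pi.zero_apply]
    rw [h2]
    refine Finset.sum_congr rfl fun k _ => ?_
    rw [Polynomial.smul_eq_C_mul]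
  have h2 := Matrix.eq_zero_of_vecMul_eq_zero h h1
  intro k
  have := congrFun h2 k
  simpa using this

/-- **The Wronskian bound** (5c). -/
theorem wronskian_bound {A : Matrix ι ι ℂ} {m : ℕ} (hA : A ^ (m + 1) = 0) {r i : ℕ} (hri : r ≤ i)
    (N' : Submodule ℂ (ι → ℂ)) (hN' : Module.finrank ℂ N' = r) (v : ι → ℂ)
    (hv : ∀ s ∈ N', s ≠ 0 → ∃ j, i ≤ j ∧ j ≤ m ∧ s ⬝ᵥ (A ^ j *ᵥ v) ≠ 0) :
    ∃ s l : Fin r → ι → ℂ, (∀ k, s k ∈ N') ∧ LinearIndependent ℂ s ∧
      r * i ≤ (plu A m s l).natDegree := by
  let Φ := phiLin A m v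
  have hΦinj : ∀ s ∈ N', s ≠ 0 → Φ s ≠ 0 ∧ i ≤ (Φ s).natDegree := by
    intro s hs hs0
    obtain ⟨j, hij, hjm, hj⟩ := hv s hs hs0
    have h1 : (Φ s).coeff j ≠ 0 := by
      change (phi A m s v).coeff j ≠ 0
      rw [coeff_phi, if_pos hjm]
      refine div_ne_zero (mul_ne_zero (pow_ne_zero _ (by norm_num)) hj)
        (Nat.cast_ne_zero.2 (Nat.factorial_ne_zero j))
    refine ⟨?_, hij.trans (Polynomial.le_natDegree_of_ne_zero h1)⟩
    intro h0
    rw [h0] at h1
    simp at h1
  have hUfin : Module.finrank ℂ (N'.map Φ) = r := by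
    rw [← hN']
    have h1 : Function.Injective (Φ.domRestrict N') := by
      rw [← LinearMap.ker_eq_bot, LinearMap.ker_eq_bot']
      intro x hx
      by_contra hx0
      exact (hΦinj x x.2 (fun h => hx0 (Subtype.ext h))).1 hx
    have h2 : N'.map Φ = LinearMap.range (Φ.domRestrict N') := by
      rw [LinearMap.range_domRestrict]
    rw [h2, LinearMap.finrank_range_of_inj h1]
  obtain ⟨f, hfU, hf0, hmono⟩ := echelon (m + 1) r (N'.map Φ) (by
    rintro _ ⟨s, _, rfl⟩
    change (phi A m s v).degree < _
    rw [Polynomial.degree_lt_iff_coeff_zero]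
    intro k hk
    rw [coeff_phi, if_neg (by omega)]) hUfin
  have hex : ∀ k, ∃ s ∈ N', Φ s = f k := fun k => hfU k
  choose s hs hsf using hex
  have hs0 : ∀ k, s k ≠ 0 := by
    intro k h0
    apply hf0 k
    rw [← hsf, h0, map_zero]
  have hdeg : ∀ k, i ≤ (f k).natDegree := by
    intro k
    rw [← hsf]
    exact (hΦinj _ (hs k) (hs0 k)).2
  let l : Fin r → ι → ℂ := fun j => (-1 : ℂ) ^ (j : ℕ) • (A ^ (j : ℕ) *ᵥ v)
  obtain ⟨hw1, hw2⟩ := wronskian f (fun k => (f k).natDegree) hmono.injective
    (fun k => hri.trans (hdeg k)) (fun _ => rfl) hf0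
  have hplu : plu A m s l =
      (Matrix.of fun k j : Fin r => Polynomial.derivative^[(j : ℕ)] (f k)).det := by
    rw [plu]
    congr 1
    ext1 k j
    simp only [Matrix.of_apply]
    rw [← hsf k]
    change phi A m (s k) (l j) = Polynomial.derivative^[(j : ℕ)] (phi A m (s k) v)
    rw [iterate_derivative_phi hA]
  rw [← hplu] at hw1 hw2
  refine ⟨s, l, hs, li_of_plu hw2, ?_⟩
  have hlow : ∀ k : Fin r, i + (k : ℕ) ≤ (f k).natDegree := by
    intro k
    obtain ⟨k, hk⟩ := k
    induction k with
    | zero => exact hdeg _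
    | succ k ih =>
      have h1 := ih (by omega)
      have h2 : (f ⟨k, by omega⟩).natDegree < (f ⟨k + 1, hk⟩).natDegree :=
        hmono (by simp [Fin.lt_def])
      simp only at h1 ⊢
      omega
  have h3 : ∑ k : Fin r, (i + (k : ℕ)) ≤ ∑ k : Fin r, (f k).natDegree :=
    Finset.sum_le_sum fun k _ => hlow k
  rw [Finset.sum_add_distrib] at h3
  simp only [Finset.sum_const, Finset.card_univ, Fintype.card_fin, smul_eq_mul] at h3
  omega

end Pool.Agent.H26.Uni
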