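import Pool.Agent.H26.Uni.LongB
import Mathlib.Analysis.Complex.Liouville

/-!
# The case `rank A ^ m = r`, `m ≥ 2` (3d)
-/

open MvPolynomial Matrix H89.Hart Filter Topology

set_option autoImplicit false
set_option linter.unusedSectionVars false

namespace H12.Uni

open Pool.Agent.H26.Uni Pool.Agent.H25.Hart

variable {ι : Type*} [Fintype ι] [DecidableEq ι]
variable {I : Ideal (MvPolynomial ι ℂ)} {r : ℕ} {A : Matrix ι ι ℂ} {m : ℕ}

/-! ### second derivatives -/

theorem dd_add (v : ι → ℂ) (f g : MvPolynomial ι ℂ) : dd v (f + g) = dd v f + dd v g := by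
  simp only [dd, map_add, mul_add, Finset.sum_add_distrib]

theorem dd_mul (v : ι → ℂ) (f g : MvPolynomial ι ℂ) :
    dd v (f * g) = dd v f * g + f * dd v g := by
  simp only [dd, Derivation.leibniz, smul_eq_mul, Finset.mul_sum, Finset.sum_mul]
  rw [← Finset.sum_add_distrib]
  refine Finset.sum_congr rfl fun i _ => ?_
  ring

theorem dd_C (v : ι → ℂ) (c : ℂ) : dd v (C c) = 0 := by
  simp only [dd, pderiv_C, mul_zero, Finset.sum_const_zero]

theorem dd_sum {α : Type*} (S : Finset α) (v : ι → ℂ) (f : α → MvPolynomial ι ℂ) :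
    dd v (∑ a ∈ S, f a) = ∑ a ∈ S, dd v (f a) := by
  classical
  induction S using Finset.induction_on with
  | empty => simp [dd]
  | insert b S hb ih => rw [Finset.sum_insert hb, Finset.sum_insert hb, dd_add, ih]

/-- the second derivative `d²f(w)(a, b)`. -/
noncomputable def hs (f : MvPolynomial ι ℂ) (w a b : ι → ℂ) : ℂ := eval w (dd a (dd b f))

theorem hs_mul (f g : MvPolynomial ι ℂ) (w a b : ι → ℂ) :
    hs (f * g) w a b = hs f w a b * eval w g + (dif f w ⬝ᵥ b) * (dif g w ⬝ᵥ a) +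
      (dif f w ⬝ᵥ a) * (dif g w ⬝ᵥ b) + eval w f * hs g w a b := by
  simp only [hs, dd_mul, dd_add, map_add, map_mul, eval_dd]
  ring

theorem hs_sum {α : Type*} (S : Finset α) (f : α → MvPolynomial ι ℂ) (w a b : ι → ℂ) :
    hs (∑ i ∈ S, f i) w a b = ∑ i ∈ S, hs (f i) w a b := by
  simp only [hs, dd_sum, map_sum]

theorem hs_C_mul (c : ℂ) (f : MvPolynomial ι ℂ) (w a b : ι → ℂ) :
    hs (C c * f) w a b = c * hs f w a b := by
  simp only [hs, dd_mul, dd_C, zero_mul, zero_add, map_mul, eval_C]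

theorem hs_sub (f g : MvPolynomial ι ℂ) (w a b : ι → ℂ) :
    hs (f - g) w a b = hs f w a b - hs g w a b := by
  have h : f = (f - g) + g := by ring
  have h2 : hs f w a b = hs (f - g) w a b + hs g w a b := by
    conv_lhs => rw [h]
    simp only [hs, dd_add, map_add]
  rw [h2]; ring

/-- the second fundamental form is well defined. -/
theorem hs_eq_zero (hI : Smooth I r) {w : ι → ℂ} (hw : w ∈ cone I) (hw0 : w ≠ 0)
    {f : MvPolynomial ι ℂ} (hf : f ∈ I) (hdf : dif f w = 0) {a b : ι → ℂ} (ha : a ∈ T I w)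
    (hb : b ∈ T I w) : hs f w a b = 0 := by
  obtain ⟨g, l, hg, -, hli, -⟩ := exists_frame hI hw hw0
  obtain ⟨u, hu, huf⟩ := L0 hI g hg hw hw0 hli hf
  obtain ⟨h, hh⟩ := (Ideal.mem_span_range_iff_exists_fun).1 huf
  have hgw : ∀ i, eval w (g i) = 0 := fun i => hw _ (hg i)
  have hfw : eval w f = 0 := hw _ hf
  -- first order
  have h1 : dif (∑ i, h i * g i) w = dif (u * f) w := by rw [hh]
  rw [dif_sum, dif_mul, hfw, hdf, smul_zero, zero_smul, add_zero] at h1
  have h2 : ∀ i, eval w (h i) = 0 := by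
    apply Fintype.linearIndependent_iff.1 hli
    rw [← h1]
    refine Finset.sum_congr rfl fun i _ => ?_
    rw [dif_mul, hgw i, zero_smul, add_zero]
  -- second order
  have h3 : hs (∑ i, h i * g i) w a b = hs (u * f) w a b := by rw [hh]
  have h4 : hs (∑ i, h i * g i) w a b = 0 := by
    rw [hs_sum]
    refine Finset.sum_eq_zero fun i _ => ?_
    have e1 : dif (g i) w ⬝ᵥ a = 0 := ha _ (mem_N.2 ⟨g i, hg i, rfl⟩)
    have e2 : dif (g i) w ⬝ᵥ b = 0 := hb _ (mem_N.2 ⟨g i, hg i, rfl⟩)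
    rw [hs_mul, hgw i, h2 i, e1, e2]
    ring
  rw [h4, hs_mul, hfw, hdf, zero_dotProduct, zero_dotProduct] at h3
  have h5 : eval w u * hs f w a b = 0 := by linear_combination -h3
  exact (mul_eq_zero.1 h5).resolve_left hu

/-! ### the second fundamental form along `im A ^ m` -/

section flat

/-- `d²f(w)(a, b)` for `f ∈ I` with `df(w) = s`. -/
noncomputable def GG (I : Ideal (MvPolynomial ι ℂ)) (s a b w : ι → ℂ) : ℂ :=
  open Classical in if h : ∃ f ∈ I, dif f w = s then hs h.choose w a b else 0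

theorem GG_eq (hI : Smooth I r) {w : ι → ℂ} (hw : w ∈ cone I) (hw0 : w ≠ 0) {s a b : ι → ℂ}
    (ha : a ∈ T I w) (hb : b ∈ T I w) {f : MvPolynomial ι ℂ} (hf : f ∈ I) (hfs : dif f w = s) :
    GG I s a b w = hs f w a b := by
  have h : ∃ f ∈ I, dif f w = s := ⟨f, hf, hfs⟩
  rw [GG, dif_pos h, ← sub_eq_zero, ← hs_sub]
  obtain ⟨h1, h2⟩ := h.choose_spec
  refine hs_eq_zero hI hw hw0 (I.sub_mem h1 hf) ?_ ha hb
  rw [dif_sub, h2, hfs, sub_self]

theorem GG_frame (hI : Smooth I r) (g : Fin r → MvPolynomial ι ℂ) (hg : ∀ i, g i ∈ I)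
    (l : Fin r → ι → ℂ) {p : ι → ℂ} (hp : p ∈ cone I) (hp0 : p ≠ 0)
    (hdet : (matAt g l p).det ≠ 0) {w : ι → ℂ} (hw : w ∈ cone I) (hw0 : w ≠ 0)
    (hdw : (matAt g l w).det ≠ 0) {s a b : ι → ℂ} (hs' : s ∈ N I w)
    (ha : a ∈ T I w) (hb : b ∈ T I w) :
    GG I s a b w = (∑ i, (∑ j, (s ⬝ᵥ l j) * (matAt g l w).adjugate j i) * hs (g i) w a b) /
      (matAt g l w).det := by
  have h1 := frame_id hI g hg l hp hp0 hdet hw hs'
  let f : MvPolynomial ι ℂ := ∑ i, C ((∑ j, (s ⬝ᵥ l j) * (matAt g l w).adjugate j i) /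
    (matAt g l w).det) * g i
  have hf : f ∈ I := Ideal.sum_mem _ fun i _ => Ideal.mul_mem_left _ _ (hg i)
  have hfs : dif f w = s := by
    simp only [f, dif_sum, dif_mul, eval_C]
    have h2 : ∀ i, dif (C ((∑ j, (s ⬝ᵥ l j) * (matAt g l w).adjugate j i) /
        (matAt g l w).det)) w = 0 := by
      intro i
      funext k
      simp [dif]
    simp only [h2, smul_zero, add_zero]
    apply smul_right_injective _ hdw
    simp only
    rw [h1, Finset.smul_sum]
    refine Finset.sum_congr rfl fun i _ => ?_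
    rw [smul_smul, mul_div_cancel₀ _ hdw]
  rw [GG_eq hI hw hw0 ha hb hf hfs]
  simp only [f, hs_sum, hs_C_mul]
  rw [Finset.sum_div]
  refine Finset.sum_congr rfl fun i _ => ?_
  ring

/-- flat family: all conormal spaces along `W - 0` contain `s`. -/
theorem GG_differentiable (hI : Smooth I r) {w0 w1 s a b : ι → ℂ}
    (hcone : ∀ τ : ℂ, w0 + τ • w1 ∈ cone I ∧ w0 + τ • w1 ≠ 0 ∧ s ∈ N I (w0 + τ • w1) ∧
      a ∈ T I (w0 + τ • w1) ∧ b ∈ T I (w0 + τ • w1)) :
    Differentiable ℂ fun τ : ℂ => GG I s a b (w0 + τ • w1) := by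
  intro τ0
  obtain ⟨hp, hp0, -, -, -⟩ := hcone τ0
  obtain ⟨g, l, hg, -, hli, hmat⟩ := exists_frame hI hp hp0
  have hdet : (matAt g l (w0 + τ0 • w1)).det ≠ 0 := by rw [hmat]; simp
  let P : Polynomial ℂ := ∑ i, (∑ j, Polynomial.C (s ⬝ᵥ l j) *
    ln w0 w1 ((mat g l).adjugate j i)) * ln w0 w1 (dd a (dd b (g i)))
  let Q : Polynomial ℂ := ln w0 w1 (mat g l).det
  have hQ : ∀ τ, Q.eval τ = (matAt g l (w0 + τ • w1)).det := fun τ => by
    simp only [Q, eval_ln, eval_det_mat]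
  have hP : ∀ τ, P.eval τ = ∑ i, (∑ j, (s ⬝ᵥ l j) *
      (matAt g l (w0 + τ • w1)).adjugate j i) * hs (g i) (w0 + τ • w1) a b := by
    intro τ
    simp only [P, Polynomial.eval_finsetSum, Polynomial.eval_mul, Polynomial.eval_C, eval_ln,
      eval_adj_mat, hs]
  have hQ0 : Q.eval τ0 ≠ 0 := by rw [hQ]; exact hdet
  have hev : (fun τ : ℂ => GG I s a b (w0 + τ • w1)) =ᶠ[𝓝 τ0]
      fun τ => P.eval τ / Q.eval τ := by
    have h1 : ∀ᶠ τ in 𝓝 τ0, Q.eval τ ≠ 0 := Q.continuous.continuousAt.eventually_ne hQ0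
    filter_upwards [h1] with τ hτ
    obtain ⟨h2, h3, h4, h5, h6⟩ := hcone τ
    rw [hQ] at hτ
    rw [GG_frame hI g hg l hp hp0 hdet h2 h3 hτ h4 h5 h6, hP, hQ]
  exact (P.differentiableAt.div Q.differentiableAt hQ0).congr_of_eventuallyEq hev

theorem hs_smul_homog {f : MvPolynomial ι ℂ} {d : ℕ} (hf : f.IsHomogeneous (d + 1)) {c : ℂ}
    (hc : c ≠ 0) (w a b : ι → ℂ) : (c ^ d)⁻¹ * hs f (c • w) a b = c⁻¹ * hs f w a b := by
  have h1 := Pool.Agent.H26.Uni.dd_homog hf b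
  rcases Nat.eq_zero_or_pos d with h0 | h0
  · subst h0
    have h2 : dd b f = C (coeff 0 (dd b f)) :=
      (totalDegree_eq_zero_iff_eq_C).1 (Nat.le_zero.1 h1.totalDegree_le)
    have h3 : ∀ w, hs f w a b = 0 := by
      intro w
      rw [hs, h2, dd_C, map_zero]
    rw [h3, h3, mul_zero, mul_zero]
  · obtain ⟨e, rfl⟩ : ∃ e, d = e + 1 := ⟨d - 1, by omega⟩
    have h2 := Pool.Agent.H26.Uni.dd_homog h1 a
    rw [hs, hs, eval_smul_homog h2, pow_succ]
    have := pow_ne_zero e hc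
    field_simp

theorem GG_smul (hI : Smooth I r) {w : ι → ℂ} (hw : w ∈ cone I) (hw0 : w ≠ 0) {s a b : ι → ℂ}
    (ha : a ∈ T I w) (hb : b ∈ T I w) (hs' : s ∈ N I w) {c : ℂ} (hc : c ≠ 0)
    (hw' : c • w ∈ cone I) (ha' : a ∈ T I (c • w)) (hb' : b ∈ T I (c • w)) :
    GG I s a b (c • w) = c⁻¹ * GG I s a b w := by
  obtain ⟨g, l, d, hg, hd, hli, -⟩ := exists_frame' hI hw hw0
  have hspan := span_dif_eq (hI.rank w hw hw0) g hg hli
  obtain ⟨β, hβ⟩ : ∃ β : Fin r → ℂ, ∑ i, β i • dif (g i) w = s :=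
    (Submodule.mem_span_range_iff_exists_fun ℂ).1 (by rw [hspan]; exact hs')
  have hdC : ∀ (γ : Fin r → ℂ) (z : ι → ℂ), dif (∑ i, C (γ i) * g i) z =
      ∑ i, γ i • dif (g i) z := by
    intro γ z
    rw [dif_sum]
    refine Finset.sum_congr rfl fun i _ => ?_
    rw [dif_mul, eval_C]
    have : dif (C (γ i) : MvPolynomial ι ℂ) z = 0 := by funext k; simp [dif]
    rw [this, smul_zero, add_zero]
  have hmem : ∀ γ : Fin r → ℂ, (∑ i, C (γ i) * g i) ∈ I := fun γ =>
    Ideal.sum_mem _ fun i _ => Ideal.mul_mem_left _ _ (hg i)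
  rw [GG_eq hI hw hw0 ha hb (hmem β) (by rw [hdC, hβ]),
    GG_eq hI hw' (smul_ne_zero hc hw0) ha' hb' (hmem fun i => (c ^ d i)⁻¹ * β i) (by
      rw [hdC, ← hβ]
      refine Finset.sum_congr rfl fun i _ => ?_
      rw [dif_smul_homog (hd i), Nat.add_sub_cancel, smul_smul]
      congr 1
      have := pow_ne_zero (d i) hc
      field_simp)]
  simp only [hs_sum, hs_C_mul, Finset.mul_sum]
  refine Finset.sum_congr rfl fun i _ => ?_
  have := hs_smul_homog (hd i) hc w a b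
  linear_combination (β i) * this

/-- Liouville: the second fundamental form vanishes along `W`. -/
theorem hs_flat (hI : Smooth I r) (W : Submodule ℂ (ι → ℂ)) (hW : 2 ≤ Module.finrank ℂ W)
    {s a b : ι → ℂ} (hWc : ∀ w ∈ W, w ≠ 0 → w ∈ cone I ∧ s ∈ N I w ∧ a ∈ T I w ∧ b ∈ T I w)
    {w : ι → ℂ} (hw : w ∈ W) (hw0 : w ≠ 0) {f : MvPolynomial ι ℂ} (hf : f ∈ I)
    (hfs : dif f w = s) : hs f w a b = 0 := by
  -- a second direction
  obtain ⟨w1, hw1, hw1s⟩ : ∃ w1 ∈ W, w1 ∉ Submodule.span ℂ {w} := by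
    by_contra hcon
    push Not at hcon
    have h1 := Submodule.finrank_mono (show W ≤ Submodule.span ℂ {w} from hcon)
    rw [finrank_span_singleton hw0] at h1
    omega
  have hne : ∀ α β : ℂ, (α ≠ 0 ∨ β ≠ 0) → α • w + β • w1 ≠ 0 := by
    intro α β hαβ h0
    by_cases hβ : β = 0
    · subst hβ
      rcases hαβ with h | h
      · rw [zero_smul, add_zero] at h0
        exact hw0 ((smul_eq_zero.1 h0).resolve_left h)
      · exact h rfl
    · apply hw1s
      rw [Submodule.mem_span_singleton]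
      refine ⟨-(β⁻¹ * α), ?_⟩
      have h1 : w1 = β⁻¹ • (β • w1) := by rw [smul_smul, inv_mul_cancel₀ hβ, one_smul]
      have h2 : β • w1 = -(α • w) := by
        rw [eq_neg_iff_add_eq_zero, add_comm]; exact h0
      rw [h1, h2, smul_neg, smul_smul, neg_smul]
  have hWm : ∀ α β : ℂ, α • w + β • w1 ∈ W := fun α β =>
    W.add_mem (W.smul_mem _ hw) (W.smul_mem _ hw1)
  have hline : ∀ τ : ℂ, w + τ • w1 ∈ cone I ∧ w + τ • w1 ≠ 0 ∧ s ∈ N I (w + τ • w1) ∧
      a ∈ T I (w + τ • w1) ∧ b ∈ T I (w + τ • w1) := by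
    intro τ
    have h1 := hne 1 τ (Or.inl one_ne_zero)
    have h2 := hWm 1 τ
    rw [one_smul] at h1 h2
    obtain ⟨h3, h4, h5, h6⟩ := hWc _ h2 h1
    exact ⟨h3, h1, h4, h5, h6⟩
  have hline' : ∀ τ : ℂ, w1 + τ • w ∈ cone I ∧ w1 + τ • w ≠ 0 ∧ s ∈ N I (w1 + τ • w) ∧
      a ∈ T I (w1 + τ • w) ∧ b ∈ T I (w1 + τ • w) := by
    intro τ
    have h1 := hne τ 1 (Or.inr one_ne_zero)
    have h2 := hWm τ 1
    rw [one_smul, add_comm] at h1 h2
    obtain ⟨h3, h4, h5, h6⟩ := hWc _ h2 h1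
    exact ⟨h3, h1, h4, h5, h6⟩
  have hdiff := GG_differentiable hI hline
  have hdiff' := GG_differentiable hI hline'
  have hlim : Tendsto (fun τ : ℂ => GG I s a b (w + τ • w1)) (cocompact ℂ) (𝓝 0) := by
    have h1 : Tendsto (fun τ : ℂ => τ⁻¹) (cocompact ℂ) (𝓝 0) := by
      rw [← Metric.cobounded_eq_cocompact]
      exact tendsto_inv₀_cobounded
    have h2 : Tendsto (fun τ : ℂ => τ⁻¹ * GG I s a b (w1 + τ⁻¹ • w)) (cocompact ℂ)
        (𝓝 (0 * GG I s a b (w1 + (0 : ℂ) • w))) :=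
      h1.mul ((hdiff'.continuous.tendsto 0).comp h1)
    rw [zero_mul] at h2
    refine h2.congr' ?_
    have h3 : ∀ᶠ τ : ℂ in cocompact ℂ, τ ≠ 0 := by
      rw [← Metric.cobounded_eq_cocompact]
      exact Bornology.eventually_ne_cobounded 0
    filter_upwards [h3] with τ hτ
    have h4 : w + τ • w1 = τ • (w1 + τ⁻¹ • w) := by
      rw [smul_add, smul_smul, mul_inv_cancel₀ hτ, one_smul, add_comm]
    obtain ⟨h5, h6, h7, h8, h9⟩ := hline' τ⁻¹
    obtain ⟨h5', h6', h7', h8', h9'⟩ := hline τ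
    rw [h4] at h5' h8' h9' ⊢
    exact (GG_smul hI h5 h6 h8 h9 h7 hτ h5' h8' h9').symm
  have hfin := hdiff.apply_eq_of_tendsto_cocompact 0 hlim
  obtain ⟨h3, h4, h5, h6⟩ := hWc w hw hw0
  simp only [zero_smul, add_zero] at hfin
  rw [← GG_eq hI h3 hw0 h5 h6 hf hfs]
  exact hfin

end flat

/-! ### reversed orbits -/

/-- the curve `τ ^ m exp(τ⁻¹ ⋆)`. -/
noncomputable def rev (m : ℕ) (v : ℕ → ι → ℂ) (k : ι) : Polynomial ℂ :=
  ∑ j ∈ Finset.range (m + 1), Polynomial.C (v (m - j) k) * Polynomial.X ^ j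

theorem coeff_rev (m : ℕ) (v : ℕ → ι → ℂ) (k : ι) {j : ℕ} (hj : j ≤ m) :
    (rev m v k).coeff j = v (m - j) k := by
  rw [rev, Polynomial.finsetSum_coeff, Finset.sum_eq_single j]
  · simp
  · intro i _ hij
    rw [Polynomial.coeff_C_mul, Polynomial.coeff_X_pow, if_neg (fun h => hij h.symm), mul_zero]
  · intro h
    exact absurd (Finset.mem_range.2 (by omega)) h

theorem eval_rev (m : ℕ) (v : ℕ → ι → ℂ) (k : ι) {τ : ℂ} (hτ : τ ≠ 0) :
    (rev m v k).eval τ = τ ^ m * ∑ i ∈ Finset.range (m + 1), (τ⁻¹) ^ i * v i k := by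
  rw [rev, Polynomial.eval_finsetSum, ← Finset.sum_range_reflect, Finset.mul_sum]
  refine Finset.sum_congr rfl fun i hi => ?_
  have hi' : i ≤ m := by have := Finset.mem_range.1 hi; omega
  have e1 : m - (m + 1 - 1 - i) = i := by omega
  have e2 : m + 1 - 1 - i = m - i := by omega
  rw [Polynomial.eval_mul, Polynomial.eval_C, Polynomial.eval_pow, Polynomial.eval_X, e1, e2]
  have h1 : τ ^ m = τ ^ (m - i) * τ ^ i := by rw [← pow_add, Nat.sub_add_cancel hi']
  rw [h1, inv_pow]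
  have := pow_ne_zero i hτ
  field_simp

theorem rev_orb (A : Matrix ι ι ℂ) (m : ℕ) (x : ι → ℂ) {τ : ℂ} (hτ : τ ≠ 0) :
    (fun k => (rev m (fun i => ((i.factorial : ℂ)⁻¹) • (A ^ i *ᵥ x)) k).eval τ) =
      τ ^ m • orb A m τ⁻¹ x := by
  funext k
  rw [eval_rev _ _ _ hτ, Pi.smul_apply, smul_eq_mul, orb, Finset.sum_apply]
  congr 1
  refine Finset.sum_congr rfl fun i _ => ?_
  simp only [Pi.smul_apply, smul_eq_mul]
  ring

theorem rev_orbB (A : Matrix ι ι ℂ) (m : ℕ) (s : ι → ℂ) {τ : ℂ} (hτ : τ ≠ 0) :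
    (fun k => (rev m (fun i => ((-1 : ℂ) ^ i * (i.factorial : ℂ)⁻¹) • (s ᵥ* A ^ i)) k).eval τ) =
      τ ^ m • orbB A m (-τ⁻¹) s := by
  funext k
  rw [eval_rev _ _ _ hτ, Pi.smul_apply, smul_eq_mul, orbB, Finset.sum_apply]
  congr 1
  refine Finset.sum_congr rfl fun i _ => ?_
  simp only [Pi.smul_apply, smul_eq_mul]
  rw [neg_pow]
  ring

/-- the value and the derivative of a product at `0`. -/
theorem coeff_one_mul (p q : Polynomial ℂ) :
    (p * q).coeff 1 = p.coeff 0 * q.coeff 1 + p.coeff 1 * q.coeff 0 := by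
  rw [Polynomial.coeff_mul, Finset.Nat.antidiagonal_succ]
  simp

theorem coeff_zero_along (γ : ι → Polynomial ℂ) (f : MvPolynomial ι ℂ) :
    (along γ f).coeff 0 = eval (fun k => (γ k).coeff 0) f := by
  rw [Polynomial.coeff_zero_eq_eval_zero, eval_along]
  simp only [Polynomial.coeff_zero_eq_eval_zero]

theorem coeff_one_along (γ : ι → Polynomial ℂ) (f : MvPolynomial ι ℂ) :
    (along γ f).coeff 1 = dif f (fun k => (γ k).coeff 0) ⬝ᵥ fun k => (γ k).coeff 1 := by
  have h1 : (along γ f).coeff 1 = (along γ f).derivative.coeff 0 := by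
    rw [Polynomial.coeff_derivative]; simp
  rw [h1, derivative_along, Polynomial.finsetSum_coeff, dotProduct]
  refine Finset.sum_congr rfl fun i _ => ?_
  rw [Polynomial.mul_coeff_zero, coeff_zero_along, Polynomial.coeff_derivative]
  simp [dif]

/-- (3d) -/
theorem UniSetup.end2 (U : UniSetup I r A m) (hS : Star I A m) (h1 : rk A m = r) (h2 : 2 ≤ m) :
    False := by
  have hI := U.smooth
  have hr := U.two_le
  -- the conormal spaces along `im A ^ m`
  have hN : ∀ w ∈ imA A m, w ≠ 0 → N I w = imB A m := by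
    intro w hw hw0
    refine Submodule.eq_of_le_of_finrank_eq (fun s hs => U.N_im hS hw hs) ?_
    rw [finrank_imB, h1]
    exact hI.rank w (U.im_mem hS w hw) hw0
  have hTw : ∀ w ∈ imA A m, ∀ v ∈ kerA A m, v ∈ T I w := fun w hw v hv =>
    U.kerA_le_T hS hw hv
  have hflat : ∀ w ∈ imA A m, w ≠ 0 → ∀ f ∈ I, ∀ a ∈ kerA A m, ∀ b ∈ kerA A m,
      hs f w a b = 0 := by
    intro w hw hw0 f hf a ha b hb
    have h3 : dif f w ∈ imB A m := by
      rw [← hN w hw hw0]; exact mem_N.2 ⟨f, hf, rfl⟩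
    refine hs_flat hI (imA A m) (by rw [finrank_imA, h1]; exact hr) (s := dif f w) ?_ hw hw0 hf rfl
    intro z hz hz0
    refine ⟨U.im_mem hS z hz, ?_, hTw z hz a ha, hTw z hz b hb⟩
    rw [hN z hz hz0]
    exact h3
  -- a good point
  obtain ⟨h, hh, hgen⟩ := U.star_gen hS
  obtain ⟨x, hx, hxh⟩ := exists_of_not_mem hI.prime hh
  obtain ⟨hx0, hxs⟩ := hgen x hx hxh
  set ζ : ι → Polynomial ℂ := rev m (fun i => ((i.factorial : ℂ)⁻¹) • (A ^ i *ᵥ x)) with hζ
  set y : ι → ℂ := fun k => (ζ k).coeff 0 with hy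
  have hy' : y = ((m.factorial : ℂ)⁻¹) • (A ^ m *ᵥ x) := by
    funext k
    rw [hy, hζ]
    simp only
    rw [coeff_rev _ _ _ (Nat.zero_le m), Nat.sub_zero]
  have hfac : ∀ i : ℕ, ((i.factorial : ℂ)⁻¹) ≠ 0 := fun i =>
    inv_ne_zero (by exact_mod_cast Nat.factorial_ne_zero i)
  have hyW : y ∈ imA A m := by
    rw [hy']
    exact Submodule.smul_mem _ _ (mem_imA.2 ⟨x, rfl⟩)
  have hy0 : y ≠ 0 := by
    rw [hy']
    exact smul_ne_zero (hfac m) hx0
  have hyI := U.im_mem hS y hyW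
  obtain ⟨g, l, hg, -, hli, hmat⟩ := exists_frame hI hyI hy0
  have hdet : (matAt g l y).det ≠ 0 := by rw [hmat]; simp
  have hy1 : (fun k => (ζ k).coeff 1) = (((m - 1).factorial : ℂ)⁻¹) • (A ^ (m - 1) *ᵥ x) := by
    funext k
    rw [hζ, coeff_rev _ _ _ U.one_le]
  have hy1K : (fun k => (ζ k).coeff 1) ∈ kerA A m := by
    rw [hy1]
    refine Submodule.smul_mem _ _ (mem_kerA.2 ?_)
    rw [Matrix.mulVec_mulVec, ← pow_add]
    have h3 : m + (m - 1) = (m + 1) + (m - 2) := by omega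
    rw [h3, pow_add, U.nil, zero_mul, Matrix.zero_mulVec]
  -- every conormal vector at `x` is killed
  have key : ∀ s ∈ N I x, s = 0 := by
    intro s hs'
    apply hxs s hs'
    -- it is enough to test against `A v`
    have hkey : ∀ b ∈ kerA A m, (s ᵥ* A ^ (m - 1)) ⬝ᵥ b = 0 := by
      intro b hb
      set σ : ι → Polynomial ℂ :=
        rev m (fun i => ((-1 : ℂ) ^ i * (i.factorial : ℂ)⁻¹) • (s ᵥ* A ^ i)) with hσ
      let L : Polynomial ℂ := along ζ (mat g l).det * ∑ k, σ k * Polynomial.C (b k)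
      let R : Polynomial ℂ := ∑ i, (∑ j, (∑ k, σ k * Polynomial.C (l j k)) *
        along ζ ((mat g l).adjugate j i)) * along ζ (dd b (g i))
      have hLR : L = R := by
        refine Polynomial.eq_of_infinite_eval_eq _ _ (Set.Infinite.mono (s := {0}ᶜ) ?_
          (Set.finite_singleton (0 : ℂ)).infinite_compl)
        intro τ hτ
        have hτ0 : τ ≠ 0 := hτ
        have hz := rev_orb A m x hτ0
        have hw := rev_orbB A m s hτ0
        rw [← hζ] at hz
        rw [← hσ] at hw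
        have hzI : (fun k => (ζ k).eval τ) ∈ cone I := by
          rw [hz]
          exact smul_mem_cone hI (U.stab x hx τ⁻¹) _
        have hwN : (fun k => (σ k).eval τ) ∈ N I (fun k => (ζ k).eval τ) := by
          rw [hz, hw]
          exact Submodule.smul_mem _ _
            (N_smul hI (pow_ne_zero m hτ0) (U.orbB_mem hx hs' τ⁻¹))
        have h3 := frame_id hI g hg l hyI hy0 hdet hzI hwN
        have h4 := congrArg (fun w => w ⬝ᵥ b) h3
        simp only [smul_dotProduct, sum_dotProduct, smul_eq_mul] at h4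
        rw [Set.mem_ofPred_eq]
        simp only [L, R, Polynomial.eval_mul, Polynomial.eval_finsetSum, Polynomial.eval_C,
          eval_along, eval_det_mat, eval_adj_mat, eval_dd]
        exact h4
      have hc := congrArg (fun P => Polynomial.coeff P 1) hLR
      simp only [L, R, Polynomial.finsetSum_coeff, coeff_one_mul] at hc
      have hb0 : ∀ i, (along ζ (dd b (g i))).coeff 0 = 0 := by
        intro i
        rw [coeff_zero_along, ← hy, eval_dd]
        exact hTw y hyW b hb _ (mem_N.2 ⟨g i, hg i, rfl⟩)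
      have hb1 : ∀ i, (along ζ (dd b (g i))).coeff 1 = 0 := by
        intro i
        rw [coeff_one_along, ← hy, ← eval_dd]
        exact hflat y hyW hy0 (g i) (hg i) _ hy1K b hb
      simp only [hb0, hb1, mul_zero, add_zero, Finset.sum_const_zero] at hc
      have hd0 : (along ζ (mat g l).det).coeff 0 = (matAt g l y).det := by
        rw [coeff_zero_along, ← hy, eval_det_mat]
      have hs0 : ∑ k, (σ k * Polynomial.C (b k)).coeff 0 = 0 := by
        have h3 : ∀ k, (σ k * Polynomial.C (b k)).coeff 0 =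
            ((-1 : ℂ) ^ m * (m.factorial : ℂ)⁻¹) * ((s ᵥ* A ^ m) k * b k) := by
          intro k
          rw [Polynomial.coeff_mul_C, hσ, coeff_rev _ _ _ (Nat.zero_le m), Nat.sub_zero]
          simp only [Pi.smul_apply, smul_eq_mul]
          ring
        rw [Finset.sum_congr rfl fun k _ => h3 k, ← Finset.mul_sum]
        have h4 : ∑ k, (s ᵥ* A ^ m) k * b k = (s ᵥ* A ^ m) ⬝ᵥ b := rfl
        rw [h4, ← dotProduct_mulVec, mem_kerA.1 hb, dotProduct_zero, mul_zero]
      have hs1 : ∑ k, ((σ k).coeff 0 * (Polynomial.C (b k)).coeff 1 +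
          (σ k).coeff 1 * (Polynomial.C (b k)).coeff 0) =
            ((-1 : ℂ) ^ (m - 1) * ((m - 1).factorial : ℂ)⁻¹) * ((s ᵥ* A ^ (m - 1)) ⬝ᵥ b) := by
        rw [dotProduct, Finset.mul_sum]
        refine Finset.sum_congr rfl fun k _ => ?_
        rw [Polynomial.coeff_C_succ, Polynomial.coeff_C_zero, mul_zero, zero_add, hσ,
          coeff_rev _ _ _ U.one_le]
        simp only [Pi.smul_apply, smul_eq_mul]
        ring
      rw [hd0, hs0, mul_zero, add_zero, hs1] at hc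
      have h5 := (mul_eq_zero.1 hc).resolve_left hdet
      exact (mul_eq_zero.1 h5).resolve_left
        (mul_ne_zero (pow_ne_zero _ (neg_ne_zero.2 one_ne_zero)) (hfac _))
    refine dotProduct_eq_zero _ fun v => ?_
    have h3 := hkey (A *ᵥ v) (mem_kerA.2 (by
      rw [Matrix.mulVec_mulVec, ← pow_succ, U.nil, Matrix.zero_mulVec]))
    rw [← dotProduct_mulVec, Matrix.mulVec_mulVec, ← pow_succ, Nat.sub_add_cancel U.one_le] at h3
    rwa [dotProduct_mulVec] at h3
  have hx00 : x ≠ 0 := by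
    rintro rfl
    exact hx0 (Matrix.mulVec_zero _)
  have hrk := hI.rank x hx hx00
  have hbot : N I x = ⊥ := by
    rw [Submodule.eq_bot_iff]
    exact key
  rw [hbot, finrank_bot] at hrk
  omega

end H12.Uni
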