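import Pool.Agent.H12.Uni.Star

/-!
# The case `rank A ^ m ≥ 6 r` (3e)
-/

open MvPolynomial Matrix H89.Hart Filter Topology

set_option autoImplicit false
set_option linter.unusedSectionVars false

namespace H12.Uni

variable {ι : Type*} [Fintype ι] [DecidableEq ι]
variable {I : Ideal (MvPolynomial ι ℂ)} {r : ℕ} {A : Matrix ι ι ℂ} {m : ℕ}

/-! ### annihilators -/

/-- the vectors killed by `S`. -/
def perp (S : Submodule ℂ (ι → ℂ)) : Submodule ℂ (ι → ℂ) where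
  carrier := {v | ∀ s ∈ S, s ⬝ᵥ v = 0}
  add_mem' {a b} ha hb s hs := by rw [dotProduct_add, ha s hs, hb s hs, add_zero]
  zero_mem' s _ := dotProduct_zero s
  smul_mem' c v hv s hs := by rw [dotProduct_smul, hv s hs, smul_zero]

theorem mem_perp {S : Submodule ℂ (ι → ℂ)} {v : ι → ℂ} : v ∈ perp S ↔ ∀ s ∈ S, s ⬝ᵥ v = 0 :=
  Iff.rfl

theorem finrank_perp' (S : Submodule ℂ (ι → ℂ)) :
    Module.finrank ℂ (perp S) + Module.finrank ℂ S = Fintype.card ι :=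
  finrank_perp S (perp S) fun _ => mem_perp

/-- the image of `perp S`. -/
noncomputable def UU (A : Matrix ι ι ℂ) (m : ℕ) (S : Submodule ℂ (ι → ℂ)) :
    Submodule ℂ (ι → ℂ) := (perp S).map (A ^ m).mulVecLin

theorem Uw_eq_UU (y : ι → ℂ) : Uw I A m y = UU A m (N I y) := rfl

theorem kerA_le_perp {S : Submodule ℂ (ι → ℂ)} (hS : S ≤ imB A m) :
    LinearMap.ker (A ^ m).mulVecLin ≤ perp S := by
  intro v hv s hs
  exact mem_imB_iff.1 (hS hs) v (by simpa using hv)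

theorem finrank_UU {S : Submodule ℂ (ι → ℂ)} (hS : S ≤ imB A m) :
    Module.finrank ℂ (UU A m S) + Module.finrank ℂ S = rk A m := by
  have h1 := finrank_map_add (A ^ m).mulVecLin (perp S) (kerA_le_perp hS)
  have h2 := finrank_perp' S
  have h3 := finrank_kerA A m
  rw [kerA] at h3
  rw [UU]
  omega

theorem UU_inf_le {S S' : Submodule ℂ (ι → ℂ)} (hS' : S' ≤ imB A m) :
    UU A m S ⊓ UU A m S' ≤ UU A m (S ⊔ S') := by
  rintro w ⟨⟨v, hv, rfl⟩, ⟨v', hv', hvv⟩⟩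
  refine ⟨v, ?_, rfl⟩
  have hv'' : v ∈ perp S' := by
    have h1 : v - v' ∈ perp S' := kerA_le_perp hS' (by
      rw [LinearMap.mem_ker, map_sub, hvv, sub_self])
    have := (perp S').add_mem h1 hv'
    rwa [sub_add_cancel] at this
  intro s hs
  obtain ⟨a, ha, b, hb, rfl⟩ := Submodule.mem_sup.1 hs
  rw [add_dotProduct, hv a ha, hv'' b hb, add_zero]

/-! ### the bilinear map at a good point -/

theorem UniSetup.flow_limit (U : UniSetup I r A m) (g : Fin r → MvPolynomial ι ℂ)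
    (hg : ∀ i, g i ∈ I) (l : Fin r → ι → ℂ)
    {p : ι → ℂ} (hp : p ∈ cone I) (hp0 : p ≠ 0) (hdet : (matAt g l p).det ≠ 0) (v : ι → ℂ)
    {x s : ι → ℂ} (hx : x ∈ cone I) (hs : s ∈ N I x)
    (hne : eta A m g l v (A ^ m *ᵥ x) ≠ 0) :
    -(deta A m g l v (A ^ m *ᵥ x) s ᵥ* A ^ m) ∈ N I (eta A m g l v (A ^ m *ᵥ x)) := by
  have hI := U.smooth
  set u := eta A m g l v (A ^ m *ᵥ x) with hu
  set ψ := -(deta A m g l v (A ^ m *ᵥ x) s ᵥ* A ^ m) with hψ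
  have hcu : Tendsto (fun τ : ℂ => u + τ • x) (𝓝[≠] 0) (𝓝 u) := by
    have h1 : Continuous fun τ : ℂ => u + τ • x := by fun_prop
    have h2 := (h1.tendsto 0).mono_left (nhdsWithin_le_nhds (s := {0}ᶜ))
    simpa using h2
  have hcψ : Tendsto (fun τ : ℂ => ψ + τ • s) (𝓝[≠] 0) (𝓝 ψ) := by
    have h1 : Continuous fun τ : ℂ => ψ + τ • s := by fun_prop
    have h2 := (h1.tendsto 0).mono_left (nhdsWithin_le_nhds (s := {0}ᶜ))
    simpa using h2
  refine (mem_N_of_tendsto hI hne hcu hcψ ?_).2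
  filter_upwards [self_mem_nhdsWithin] with τ hτ
  have hτ0 : τ ≠ 0 := hτ
  have h1 := U.flow g hg l hp hp0 hdet v hx τ⁻¹
  have h2 := U.flow_N g hg l hp hp0 hdet v hx hs τ⁻¹
  rw [← hu] at h1 h2
  have e1 : u + τ • x = τ • (x + τ⁻¹ • u) := by
    rw [smul_add, smul_smul, mul_inv_cancel₀ hτ0, one_smul, add_comm]
  have e2 : ψ + τ • s = τ • (s - τ⁻¹ • (deta A m g l v (A ^ m *ᵥ x) s ᵥ* A ^ m)) := by
    rw [smul_sub, smul_smul, mul_inv_cancel₀ hτ0, one_smul, hψ]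
    abel
  rw [e1, e2]
  exact ⟨smul_mem_cone hI h1 τ, Submodule.smul_mem _ _ (N_smul hI hτ0 h2)⟩

/-- the family at a good point. -/
theorem UniSetup.exists_beta (U : UniSetup I r A m) (hS : Star I A m) {x : ι → ℂ}
    (hx : x ∈ cone I) (hx0 : A ^ m *ᵥ x ≠ 0) (hxs : ∀ s ∈ N I x, s ᵥ* A ^ m = 0 → s = 0) :
    ∃ b : (Fin r → ℂ) →ₗ[ℂ] (ι → ℂ) →ₗ[ℂ] (ι → ℂ),
      (∀ u ∈ Uw I A m (A ^ m *ᵥ x), u ≠ 0 → ∀ z, b z u = 0 → z = 0) ∧
      (∀ u ∈ Uw I A m (A ^ m *ᵥ x), u ≠ 0 → ∀ v, v ∈ N I u ↔ ∃ z, b z u = v) := by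
  have hI := U.smooth
  have hyW : A ^ m *ᵥ x ∈ imA A m := mem_imA.2 ⟨x, rfl⟩
  have hyI := U.im_mem hS _ hyW
  obtain ⟨g, l, hg, -, hli, hmat⟩ := exists_frame hI hyI hx0
  have hdet : (matAt g l (A ^ m *ᵥ x)).det ≠ 0 := by rw [hmat]; simp
  have hx00 : x ≠ 0 := by
    rintro rfl
    exact hx0 (Matrix.mulVec_zero _)
  obtain ⟨σ, hσ⟩ := exists_sec A m
  have hσT : ∀ u ∈ Uw I A m (A ^ m *ᵥ x), σ u ∈ T I (A ^ m *ᵥ x) := by
    intro u hu
    rw [← U.mem_T_iff hS hyW, hσ u (Uw_le_imA _ hu)]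
    exact hu
  have heta : ∀ u ∈ Uw I A m (A ^ m *ᵥ x), eta A m g l (σ u) (A ^ m *ᵥ x) = u := by
    intro u hu
    rw [eta_self A m g hg l hmat (hσT u hu), hσ u (Uw_le_imA _ hu)]
  let e : (Fin r → ℂ) ≃ₗ[ℂ] N I x := LinearEquiv.ofFinrankEq _ _ (by
    rw [Module.finrank_fintype_fun_eq_card, Fintype.card_fin, hI.rank x hx hx00])
  let b : (Fin r → ℂ) →ₗ[ℂ] (ι → ℂ) →ₗ[ℂ] (ι → ℂ) := LinearMap.mk₂ ℂ
    (fun z u => -(deta A m g l (σ u) (A ^ m *ᵥ x) (e z : ι → ℂ) ᵥ* A ^ m))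
    (by
      intro z z' u
      rw [map_add, Submodule.coe_add, deta_add_right, Matrix.add_vecMul, neg_add])
    (by
      intro c z u
      rw [map_smul, Submodule.coe_smul, deta_smul_right, Matrix.smul_vecMul, smul_neg])
    (by
      intro z u u'
      rw [map_add, deta_add_left, Matrix.add_vecMul, neg_add])
    (by
      intro c z u
      rw [map_smul, deta_smul_left, Matrix.smul_vecMul, smul_neg])
  have hb : ∀ z u, b z u = -(deta A m g l (σ u) (A ^ m *ᵥ x) (e z : ι → ℂ) ᵥ* A ^ m) :=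
    fun z u => rfl
  have hmem : ∀ u ∈ Uw I A m (A ^ m *ᵥ x), u ≠ 0 → ∀ z, b z u ∈ N I u := by
    intro u hu hu0 z
    have h1 := U.flow_limit g hg l hyI hx0 hdet (σ u) hx (e z).2 (by rw [heta u hu]; exact hu0)
    rw [heta u hu] at h1
    exact h1
  have hinj : ∀ u ∈ Uw I A m (A ^ m *ᵥ x), u ≠ 0 → ∀ z, b z u = 0 → z = 0 := by
    intro u hu hu0 z hz
    rw [hb, neg_eq_zero] at hz
    -- `e z` is conormal along the whole line, hence at `u`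
    have h1 : ∀ τ : ℂ, τ ≠ 0 → u + τ • x ∈ cone I ∧ (e z : ι → ℂ) ∈ N I (u + τ • x) := by
      intro τ hτ0
      have h2 := U.flow g hg l hyI hx0 hdet (σ u) hx τ⁻¹
      have h3 := U.flow_N g hg l hyI hx0 hdet (σ u) hx (e z).2 τ⁻¹
      rw [heta u hu] at h2 h3
      rw [hz, smul_zero, sub_zero] at h3
      have e1 : u + τ • x = τ • (x + τ⁻¹ • u) := by
        rw [smul_add, smul_smul, mul_inv_cancel₀ hτ0, one_smul, add_comm]
      rw [e1]
      exact ⟨smul_mem_cone hI h2 τ, N_smul hI hτ0 h3⟩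
    have hcu : Tendsto (fun τ : ℂ => u + τ • x) (𝓝[≠] 0) (𝓝 u) := by
      have h1 : Continuous fun τ : ℂ => u + τ • x := by fun_prop
      have h2 := (h1.tendsto 0).mono_left (nhdsWithin_le_nhds (s := {0}ᶜ))
      simpa using h2
    have h4 := (mem_N_of_tendsto hI hu0 hcu (tendsto_const_nhds (x := (e z : ι → ℂ))) (by
      filter_upwards [self_mem_nhdsWithin] with τ hτ
      exact h1 τ hτ)).2
    have h5 := hxs _ (e z).2 (U.imB_le_kerB (U.N_im hS (Uw_le_imA _ hu) h4))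
    exact e.map_eq_zero_iff.1 (Subtype.ext h5)
  refine ⟨b, hinj, fun u hu hu0 v => ⟨fun hv => ?_, ?_⟩⟩
  · let f : (Fin r → ℂ) →ₗ[ℂ] N I u :=
      (b.flip u).codRestrict (N I u) fun z => hmem u hu hu0 z
    have hfin : Module.finrank ℂ (Fin r → ℂ) = Module.finrank ℂ (N I u) := by
      rw [Module.finrank_fintype_fun_eq_card, Fintype.card_fin,
        hI.rank u (U.im_mem hS u (Uw_le_imA _ hu)) hu0]
    have hf : Function.Injective f := by
      rw [← LinearMap.ker_eq_bot, LinearMap.ker_eq_bot']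
      intro z hz
      exact hinj u hu hu0 z (congrArg Subtype.val hz)
    obtain ⟨z, hz⟩ := (LinearMap.injective_iff_surjective_of_finrank_eq_finrank hfin).1 hf ⟨v, hv⟩
    exact ⟨z, congrArg Subtype.val hz⟩
  · rintro ⟨z, rfl⟩
    exact hmem u hu hu0 z

/-! ### gluing -/

/-- the conormal spaces along `im A ^ m`, and `0` outside. -/
noncomputable def KW (I : Ideal (MvPolynomial ι ℂ)) (A : Matrix ι ι ℂ) (m : ℕ) (u : ι → ℂ) :
    Submodule ℂ (ι → ℂ) := open Classical in if u ∈ imA A m then N I u else ⊥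

theorem KW_eq {u : ι → ℂ} (hu : u ∈ imA A m) : KW I A m u = N I u := if_pos hu

theorem UniSetup.KW_closed (U : UniSetup I r A m) (hS : Star I A m) (u v : ι → ℂ) (hu : u ≠ 0)
    (us : ℕ → ι → ℂ) (hus : Tendsto us atTop (𝓝 u)) (hv : ∀ k, v ∈ KW I A m (us k)) :
    v ∈ KW I A m u := by
  by_cases hv0 : v = 0
  · rw [hv0]; exact Submodule.zero_mem _
  have h1 : ∀ k, us k ∈ imA A m := by
    intro k
    by_contra hcon
    have h2 := hv k
    rw [KW, if_neg hcon] at h2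
    exact hv0 ((Submodule.mem_bot ℂ).1 h2)
  have h2 : u ∈ imA A m := (imA A m).closed_of_finiteDimensional.mem_of_tendsto hus
    (Eventually.of_forall h1)
  rw [KW_eq h2]
  refine (mem_N_of_tendsto U.smooth hu hus (tendsto_const_nhds (x := v))
    (Eventually.of_forall fun k => ⟨U.im_mem hS _ (h1 k), ?_⟩)).2
  have := hv k
  rwa [KW_eq (h1 k)] at this

/-- the properties of the families. -/
structure Fam (I : Ideal (MvPolynomial ι ℂ)) (r : ℕ) (A : Matrix ι ι ℂ) (m : ℕ)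
    (V : Submodule ℂ (ι → ℂ)) (b : (Fin r → ℂ) →ₗ[ℂ] (ι → ℂ) →ₗ[ℂ] (ι → ℂ)) : Prop where
  le : V ≤ imA A m
  inj : ∀ u ∈ V, u ≠ 0 → ∀ z, b z u = 0 → z = 0
  im : ∀ u ∈ V, u ≠ 0 → ∀ v, v ∈ N I u ↔ ∃ z, b z u = v

theorem UniSetup.glue (U : UniSetup I r A m) (hS : Star I A m) {V1 V2 : Submodule ℂ (ι → ℂ)}
    {b1 b2 : (Fin r → ℂ) →ₗ[ℂ] (ι → ℂ) →ₗ[ℂ] (ι → ℂ)} (h1 : Fam I r A m V1 b1)
    (h2 : Fam I r A m V2 b2)
    (hdim : 2 * r + 1 ≤ Module.finrank ℂ (V1 ⊓ V2 : Submodule ℂ (ι → ℂ))) (z : Fin r → ℂ) :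
    ∃ x, ∀ u ∈ V1 ⊓ V2, b2 x u = b1 z u := by
  refine glue1 r (by have := U.two_le; omega) V1 V2 (KW I A m)
    (fun u v hu us hus hv => U.KW_closed hS u v hu us hus hv) b1 b2 ?_ h2.inj ?_ hdim z
  · intro u hu hu0 z
    rw [KW_eq (h1.le hu)]
    exact (h1.im u hu hu0 _).2 ⟨z, rfl⟩
  · intro u hu hu0 v
    rw [KW_eq (h2.le hu)]
    exact h2.im u hu hu0 v

/-- the glued family. -/
theorem UniSetup.exists_G (U : UniSetup I r A m) (hS : Star I A m) {V0 V1 : Submodule ℂ (ι → ℂ)}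
    {b0 b1 : (Fin r → ℂ) →ₗ[ℂ] (ι → ℂ) →ₗ[ℂ] (ι → ℂ)} (h0 : Fam I r A m V0 b0)
    (h1 : Fam I r A m V1 b1)
    (hdim : 2 * r + 1 ≤ Module.finrank ℂ (V0 ⊓ V1 : Submodule ℂ (ι → ℂ))) :
    ∃ (G : (Fin r → ℂ) →ₗ[ℂ] (ι → ℂ) →ₗ[ℂ] (ι → ℂ)) (S : (Fin r → ℂ) → (Fin r → ℂ)),
      (∀ z, ∀ u ∈ V0, G z u = b0 z u) ∧ ∀ z, ∀ u ∈ V1, G z u = b1 (S z) u := by
  choose x hx using fun i : Fin r => U.glue hS h0 h1 hdim (Pi.single i 1)
  let S : (Fin r → ℂ) →ₗ[ℂ] (Fin r → ℂ) := Fintype.linearCombination ℂ x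
  have hS' : ∀ z, ∀ u ∈ V0 ⊓ V1, b1 (S z) u = b0 z u := by
    intro z u hu
    have h2 : z = ∑ i, z i • (Pi.single i 1 : Fin r → ℂ) := by
      funext j; simp [Finset.sum_apply, Pi.single_apply]
    conv_rhs => rw [h2]
    simp only [S, Fintype.linearCombination_apply, map_sum, map_smul, LinearMap.sum_apply,
      LinearMap.smul_apply]
    exact Finset.sum_congr rfl fun i _ => by rw [hx i u hu]
  -- the projection
  obtain ⟨π, hπ⟩ : ∃ π : (ι → ℂ) →ₗ[ℂ] (ι → ℂ), ∀ u ∈ V0 ⊔ V1, π u ∈ V0 ∧ u - π u ∈ V1 := by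
    obtain ⟨τ, hτ⟩ := LinearMap.exists_rightInverse_of_surjective
      (V0.subtype.coprod V1.subtype).rangeRestrict (LinearMap.range_rangeRestrict _)
    obtain ⟨ρ, hρ⟩ := LinearMap.exists_extend τ
    refine ⟨V0.subtype ∘ₗ LinearMap.fst ℂ V0 V1 ∘ₗ ρ, fun u hu => ?_⟩
    have hu' : u ∈ LinearMap.range (V0.subtype.coprod V1.subtype) := by
      rw [LinearMap.range_coprod, Submodule.range_subtype, Submodule.range_subtype]
      exact hu
    have h2 : ρ u = τ ⟨u, hu'⟩ := by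
      have := LinearMap.congr_fun hρ ⟨u, hu'⟩
      simpa using this
    have h3 := congrArg Subtype.val (LinearMap.congr_fun hτ ⟨u, hu'⟩)
    simp only [LinearMap.comp_apply, LinearMap.codRestrict_apply, LinearMap.rangeRestrict,
      LinearMap.coprod_apply, LinearMap.id_apply] at h3
    simp only [LinearMap.comp_apply, LinearMap.fst_apply, h2]
    refine ⟨(τ ⟨u, hu'⟩).1.2, ?_⟩
    have h4 : u - V0.subtype (τ ⟨u, hu'⟩).1 = V1.subtype (τ ⟨u, hu'⟩).2 := by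
      rw [sub_eq_iff_eq_add']
      exact h3.symm
    rw [h4]
    exact (τ ⟨u, hu'⟩).2.2
  let G : (Fin r → ℂ) →ₗ[ℂ] (ι → ℂ) →ₗ[ℂ] (ι → ℂ) := LinearMap.mk₂ ℂ
    (fun z u => b0 z (π u) + b1 (S z) (u - π u))
    (by intro z z' u; simp only [map_add, LinearMap.add_apply]; abel)
    (by intro c z u; simp only [map_smul, LinearMap.smul_apply, smul_add])
    (by intro z u u'; simp only [map_add, map_sub]; abel)
    (by intro c z u; simp only [map_smul, map_sub, smul_add, smul_sub])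
  have hG : ∀ z u, G z u = b0 z (π u) + b1 (S z) (u - π u) := fun z u => rfl
  refine ⟨G, S, fun z u hu => ?_, fun z u hu => ?_⟩
  · obtain ⟨h2, h3⟩ := hπ u (Submodule.mem_sup_left hu)
    rw [hG, hS' z _ ⟨V0.sub_mem hu h2, h3⟩, ← map_add, add_sub_cancel]
  · obtain ⟨h2, h3⟩ := hπ u (Submodule.mem_sup_right hu)
    have h4 : π u ∈ V1 := by
      have := V1.sub_mem hu h3
      rwa [sub_sub_cancel] at this
    rw [hG, ← hS' z _ ⟨h2, h4⟩, ← map_add, add_sub_cancel]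

/-- the glued family is conormal on the spaces of generic points. -/
theorem UniSetup.G_mem (U : UniSetup I r A m) (hS : Star I A m)
    {V0 V1 V' : Submodule ℂ (ι → ℂ)}
    {b0 b1 b' G : (Fin r → ℂ) →ₗ[ℂ] (ι → ℂ) →ₗ[ℂ] (ι → ℂ)} {S : (Fin r → ℂ) → (Fin r → ℂ)}
    (h0 : Fam I r A m V0 b0) (h1 : Fam I r A m V1 b1) (h' : Fam I r A m V' b')
    (hG0 : ∀ z, ∀ u ∈ V0, G z u = b0 z u) (hG1 : ∀ z, ∀ u ∈ V1, G z u = b1 (S z) u)
    (hd0 : 2 * r + 1 ≤ Module.finrank ℂ (V0 ⊓ V' : Submodule ℂ (ι → ℂ)))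
    (hd1 : 2 * r + 1 ≤ Module.finrank ℂ (V1 ⊓ V' : Submodule ℂ (ι → ℂ)))
    (hd : 1 ≤ Module.finrank ℂ ((V0 ⊓ V') ⊓ (V1 ⊓ V') : Submodule ℂ (ι → ℂ)))
    (hsup : V' ≤ (V0 ⊓ V') ⊔ (V1 ⊓ V')) (z : Fin r → ℂ) {u : ι → ℂ} (hu : u ∈ V')
    (hu0 : u ≠ 0) : G z u ∈ N I u := by
  obtain ⟨x, hx⟩ := U.glue hS h0 h' hd0 z
  obtain ⟨x', hx'⟩ := U.glue hS h1 h' hd1 (S z)
  obtain ⟨w, ⟨hw0, hw1⟩, hwne⟩ := exists_ne_of_finrank _ hd
  have hxx : x = x' := by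
    rw [← sub_eq_zero]
    refine h'.inj w hw0.2 hwne _ ?_
    rw [map_sub, LinearMap.sub_apply, hx w hw0, hx' w hw1, ← hG0 z w hw0.1, ← hG1 z w hw1.1,
      sub_self]
  obtain ⟨p, hp, q, hq, rfl⟩ := Submodule.mem_sup.1 (hsup hu)
  rw [map_add, hG0 z p hp.1, hG1 z q hq.1, ← hx p hp, ← hx' q hq, ← hxx, ← map_add]
  exact (h'.im _ hu hu0 _).2 ⟨x, rfl⟩

/-- from generic points to all points. -/
theorem UniSetup.propagate (U : UniSetup I r A m) (hS : Star I A m)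
    (L : (ι → ℂ) →ₗ[ℂ] (ι → ℂ)) {h : MvPolynomial ι ℂ} (hh : h ∉ I)
    (hgen : ∀ x ∈ cone I, eval x h ≠ 0 → ∀ u ∈ Uw I A m (A ^ m *ᵥ x), u ≠ 0 → L u ∈ N I u)
    (hk : r + 1 ≤ rk A m) : ∀ u ∈ imA A m, u ≠ 0 → L u ∈ N I u := by
  intro u hu hu0
  obtain ⟨a, ha, ha0⟩ := exists_ne_of_finrank (Uw I A m u) (by
    have := U.finrank_Uw hS hu hu0; omega)
  have huI := U.im_mem hS u hu
  have haW := Uw_le_imA _ ha
  have hua : u ∈ Uw I A m a := U.symm hS hu hu0 ha0 ha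
  obtain ⟨w, hw, hwu⟩ := mem_Uw.1 hua
  have haI := U.im_mem hS a haW
  obtain ⟨g, l, hg, -, -, hmat⟩ := exists_frame U.smooth haI ha0
  have hdet : (matAt g l a).det ≠ 0 := by rw [hmat]; simp
  have heta : eta A m g l w a = u := by rw [eta_self A m g hg l hmat hw, hwu]
  obtain ⟨g', l', hg', -, -, hmat'⟩ := exists_frame U.smooth huI hu0
  have hdet' : (matAt g' l' u).det ≠ 0 := by rw [hmat']; simp
  let σ : ι → MvPolynomial ι ℂ := fun k => bind₁ (etaP A m g l w) (linP L k)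
  have hσ : ∀ y, ev σ y = L (eta A m g l w y) := by
    intro y
    funext k
    rw [ev, eval_bind, ev_etaP]
    exact congrFun (ev_linP L _) k
  have hvan : ∀ k, ∀ y ∈ imA A m, eval y (RP g' l' (etaP A m g l w) σ k) = 0 := by
    intro k
    refine U.dom_star' hS hh fun x hx hxh => ?_
    have hyW : A ^ m *ᵥ x ∈ imA A m := mem_imA.2 ⟨x, rfl⟩
    by_cases h0 : eta A m g l w (A ^ m *ᵥ x) = 0
    · refine RP_eq_zero U.smooth hg' huI hu0 hdet' ?_ ?_ k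
      · rw [ev_etaP, h0]
        exact U.zero_mem
      · rw [hσ, h0, map_zero]
        exact Submodule.zero_mem _
    · refine RP_eq_zero U.smooth hg' huI hu0 hdet' ?_ ?_ k
      · rw [ev_etaP]
        exact U.im_mem hS _ (eta_mem_imA _ _ _ _ _ _)
      · rw [hσ, ev_etaP]
        refine hgen x hx hxh _ ?_ h0
        exact mem_Uw.2 ⟨Pv g l w (A ^ m *ᵥ x),
          Pv_mem_T U.smooth g hg l haI ha0 hdet w (U.im_mem hS _ hyW), rfl⟩
  have h3 := mem_N_of_RP hg' (l := l') (φ := etaP A m g l w) (σ := σ) (u := a)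
    (by rw [ev_etaP, heta]; exact hdet') (fun k => hvan k a haW)
  rwa [hσ, ev_etaP, heta] at h3

/-- nondegeneracy. -/
theorem UniSetup.G_inj (U : UniSetup I r A m) {V0 : Submodule ℂ (ι → ℂ)} (hS : Star I A m)
    {b0 G : (Fin r → ℂ) →ₗ[ℂ] (ι → ℂ) →ₗ[ℂ] (ι → ℂ)}
    (h0 : Fam I r A m V0 b0) (hG0 : ∀ z, ∀ u ∈ V0, G z u = b0 z u)
    (hGN : ∀ z, ∀ u ∈ imA A m, u ≠ 0 → G z u ∈ N I u) (hdim : r + 1 ≤ Module.finrank ℂ V0)
    {z : Fin r → ℂ} {u : ι → ℂ} (hu : u ∈ imA A m) (hu0 : u ≠ 0) (hz : G z u = 0) : z = 0 := by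
  have hI := U.smooth
  have hmem : ∀ u' ∈ V0, G z u' ∈ N I u := by
    intro u' hu'
    have hcu : Tendsto (fun τ : ℂ => u + τ • u') (𝓝[≠] 0) (𝓝 u) := by
      have h1 : Continuous fun τ : ℂ => u + τ • u' := by fun_prop
      have h2 := (h1.tendsto 0).mono_left (nhdsWithin_le_nhds (s := {0}ᶜ))
      simpa using h2
    refine (mem_N_of_tendsto hI hu0 hcu (tendsto_const_nhds (x := G z u')) ?_).2
    filter_upwards [self_mem_nhdsWithin, hcu.eventually_ne hu0] with τ hτ hne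
    have hτ0 : τ ≠ 0 := hτ
    have h1 : u + τ • u' ∈ imA A m := (imA A m).add_mem hu ((imA A m).smul_mem _ (h0.le hu'))
    refine ⟨U.im_mem hS _ h1, ?_⟩
    have h2 := hGN z _ h1 hne
    rw [map_add, hz, zero_add, map_smul] at h2
    exact ((N I (u + τ • u')).smul_mem_iff hτ0).1 h2
  let f : V0 →ₗ[ℂ] N I u := ((G z) ∘ₗ V0.subtype).codRestrict (N I u) fun u' => hmem u' u'.2
  have hker : LinearMap.ker f ≠ ⊥ := LinearMap.ker_ne_bot_of_finrank_lt (by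
    rw [hI.rank u (U.im_mem hS u hu) hu0]; omega)
  obtain ⟨u', hu', hu'0⟩ := Submodule.exists_mem_ne_zero_of_ne_bot hker
  have h3 : G z (u' : ι → ℂ) = 0 := congrArg Subtype.val (LinearMap.mem_ker.1 hu')
  rw [hG0 z _ u'.2] at h3
  exact h0.inj _ u'.2 (fun h => hu'0 (Subtype.ext h)) z h3

theorem finrank_sup_of_disj {V : Type*} [AddCommGroup V] [Module ℂ V] [FiniteDimensional ℂ V]
    {X Y : Submodule ℂ V} (h : ∀ s ∈ Y, s ∈ X → s = 0) :
    Module.finrank ℂ (X ⊔ Y : Submodule ℂ V) = Module.finrank ℂ X + Module.finrank ℂ Y := by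
  have h1 := Submodule.finrank_sup_add_finrank_inf_eq X Y
  have h2 : X ⊓ Y = ⊥ := by
    rw [Submodule.eq_bot_iff]
    rintro s ⟨hx, hy⟩
    exact h s hy hx
  rw [h2, finrank_bot, add_zero] at h1
  exact h1

/-- (3e) -/
theorem UniSetup.end3 (U : UniSetup I r A m) (hS : Star I A m) (h1 : 6 * r ≤ rk A m) : False := by
  have hI := U.smooth
  have hr := U.two_le
  obtain ⟨d, hd⟩ := exists_dim hI.prime
  have hdim := U.dim_le
  rw [hd] at hdim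
  have hdim' : Fintype.card ι ≤ d + r := by exact_mod_cast hdim
  have hK := finrank_kerA A m
  rw [kerA] at hK
  -- generic points
  have hzm : ∀ S : Submodule ℂ (ι → ℂ), Module.finrank ℂ S ≤ 2 * r → ∃ h ∉ I, ∀ x ∈ cone I,
      eval x h ≠ 0 → A ^ m *ᵥ x ≠ 0 ∧ (∀ s ∈ N I x, s ᵥ* A ^ m = 0 → s = 0) ∧
        ∀ s ∈ N I (A ^ m *ᵥ x), s ∈ S → s = 0 := by
    intro S hSr
    obtain ⟨h, hh, hgen⟩ := U.star_gen hS
    obtain ⟨h', hh', hgen'⟩ := zm hI (by omega) U.nd hI.prime hI.homog (A ^ m).mulVecLin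
      (fun u _ => U.im_mem hS _ (mem_imA.2 ⟨u, rfl⟩)) S (by
        rw [hd]
        have : Module.finrank ℂ S + r +
          Module.finrank ℂ (LinearMap.ker (A ^ m).mulVecLin) ≤ d := by omega
        exact_mod_cast this)
    refine ⟨h * h', fun hmem => ?_, fun x hx hxh => ?_⟩
    · rcases hI.prime.mem_or_mem hmem with h2 | h2
      · exact hh h2
      · exact hh' h2
    · rw [map_mul] at hxh
      obtain ⟨h3, h4⟩ := hgen x hx (left_ne_zero_of_mul hxh)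
      exact ⟨h3, h4, (hgen' x hx (right_ne_zero_of_mul hxh)).2⟩
  have hfam : ∀ x ∈ cone I, A ^ m *ᵥ x ≠ 0 → (∀ s ∈ N I x, s ᵥ* A ^ m = 0 → s = 0) →
      ∃ b, Fam I r A m (Uw I A m (A ^ m *ᵥ x)) b := by
    intro x hx hx0 hxs
    obtain ⟨b, hb1, hb2⟩ := U.exists_beta hS hx hx0 hxs
    exact ⟨b, Uw_le_imA _, hb1, hb2⟩
  have hWm : ∀ x, A ^ m *ᵥ x ∈ imA A m := fun x => mem_imA.2 ⟨x, rfl⟩
  have hNle : ∀ y ∈ imA A m, N I y ≤ imB A m := fun y hy s hs => U.N_im hS hy hs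
  have hNr : ∀ y ∈ imA A m, y ≠ 0 → Module.finrank ℂ (N I y) = r := fun y hy hy0 =>
    hI.rank y (U.im_mem hS y hy) hy0
  -- the first point
  obtain ⟨h0, hh0, hgen0⟩ := hzm ⊥ (by rw [finrank_bot]; omega)
  obtain ⟨x0, hx0, hxh0⟩ := exists_of_not_mem hI.prime hh0
  obtain ⟨hy0, hs0, -⟩ := hgen0 x0 hx0 hxh0
  obtain ⟨b0, hF0⟩ := hfam x0 hx0 hy0 hs0
  set y0 := A ^ m *ᵥ x0 with hy0def
  have hy0W : y0 ∈ imA A m := hWm x0
  -- the second point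
  obtain ⟨h1', hh1, hgen1⟩ := hzm (N I y0) (by rw [hNr y0 hy0W hy0]; omega)
  obtain ⟨x1, hx1, hxh1⟩ := exists_of_not_mem hI.prime hh1
  obtain ⟨hy1, hs1, hd1⟩ := hgen1 x1 hx1 hxh1
  obtain ⟨b1, hF1⟩ := hfam x1 hx1 hy1 hs1
  set y1 := A ^ m *ᵥ x1 with hy1def
  have hy1W : y1 ∈ imA A m := hWm x1
  have hN01 : Module.finrank ℂ (N I y0 ⊔ N I y1 : Submodule ℂ (ι → ℂ)) = 2 * r := by
    rw [finrank_sup_of_disj hd1, hNr y0 hy0W hy0, hNr y1 hy1W hy1]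
    omega
  -- dimensions
  have hUd : ∀ y ∈ imA A m, y ≠ 0 → Module.finrank ℂ (Uw I A m y) + r = rk A m :=
    fun y hy hy0 => U.finrank_Uw hS hy hy0
  have hinf : ∀ X Y Z : Submodule ℂ (ι → ℂ), X ≤ Z → Y ≤ Z → Module.finrank ℂ X +
      Module.finrank ℂ Y ≤ Module.finrank ℂ (X ⊓ Y : Submodule ℂ (ι → ℂ)) +
        Module.finrank ℂ Z := by
    intro X Y Z hX hY
    have h1 := Submodule.finrank_sup_add_finrank_inf_eq X Y
    have h2 := Submodule.finrank_mono (sup_le hX hY)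
    omega
  have hd01 := hinf _ _ _ (Uw_le_imA (I := I) (A := A) (m := m) y0)
    (Uw_le_imA (I := I) (A := A) (m := m) y1)
  have hU0 := hUd y0 hy0W hy0
  have hU1 := hUd y1 hy1W hy1
  rw [finrank_imA] at hd01
  obtain ⟨G, S, hG0, hG1⟩ := U.exists_G hS hF0 hF1 (by omega)
  -- generic points
  obtain ⟨h2, hh2, hgen2⟩ := hzm (N I y0 ⊔ N I y1) hN01.le
  have hGgen : ∀ z, ∀ x ∈ cone I, eval x h2 ≠ 0 → ∀ u ∈ Uw I A m (A ^ m *ᵥ x), u ≠ 0 →
      G z u ∈ N I u := by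
    intro z x hx hxh u hu hu0
    obtain ⟨hy, hs, hd2⟩ := hgen2 x hx hxh
    obtain ⟨b, hF⟩ := hfam x hx hy hs
    have hyW : A ^ m *ᵥ x ∈ imA A m := hWm x
    have hU2 := hUd _ hyW hy
    have e1 := hinf _ _ _ (Uw_le_imA (I := I) (A := A) (m := m) y0)
      (Uw_le_imA (I := I) (A := A) (m := m) (A ^ m *ᵥ x))
    have e2 := hinf _ _ _ (Uw_le_imA (I := I) (A := A) (m := m) y1)
      (Uw_le_imA (I := I) (A := A) (m := m) (A ^ m *ᵥ x))
    rw [finrank_imA] at e1 e2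
    have e3 := hinf (Uw I A m y0 ⊓ Uw I A m (A ^ m *ᵥ x)) (Uw I A m y1 ⊓ Uw I A m (A ^ m *ᵥ x))
      (Uw I A m (A ^ m *ᵥ x)) inf_le_right inf_le_right
    refine U.G_mem hS hF0 hF1 hF hG0 hG1 (by omega) (by omega) (by omega) ?_ z hu hu0
    -- the sum
    have e4 : (Uw I A m y0 ⊓ Uw I A m (A ^ m *ᵥ x)) ⊓ (Uw I A m y1 ⊓ Uw I A m (A ^ m *ᵥ x)) ≤
        UU A m ((N I y0 ⊔ N I y1) ⊔ N I (A ^ m *ᵥ x)) := by
      refine le_trans ?_ (UU_inf_le (hNle _ hyW))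
      refine le_trans ?_ (inf_le_inf_right _ (UU_inf_le (hNle _ hy1W)))
      rintro w ⟨⟨p1, p2⟩, ⟨p3, -⟩⟩
      exact ⟨⟨p1, p3⟩, p2⟩
    have e5 := Submodule.finrank_mono e4
    have e6 : (N I y0 ⊔ N I y1) ⊔ N I (A ^ m *ᵥ x) ≤ imB A m :=
      sup_le (sup_le (hNle _ hy0W) (hNle _ hy1W)) (hNle _ hyW)
    have e7 := finrank_UU e6
    have e8 : Module.finrank ℂ ((N I y0 ⊔ N I y1) ⊔ N I (A ^ m *ᵥ x) : Submodule ℂ (ι → ℂ)) =
        3 * r := by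
      rw [finrank_sup_of_disj hd2, hN01, hNr _ hyW hy]
      omega
    have e9 := Submodule.finrank_sup_add_finrank_inf_eq
      (Uw I A m y0 ⊓ Uw I A m (A ^ m *ᵥ x)) (Uw I A m y1 ⊓ Uw I A m (A ^ m *ᵥ x))
    refine (Submodule.eq_of_le_of_finrank_le (sup_le inf_le_right inf_le_right) ?_).ge
    omega
  have hGN : ∀ z, ∀ u ∈ imA A m, u ≠ 0 → G z u ∈ N I u := fun z =>
    U.propagate hS (G z) hh2 (hGgen z) (by omega)
  have hGinj : ∀ z, ∀ u ∈ imA A m, u ≠ 0 → G z u = 0 → z = 0 := fun z u hu hu0 hz =>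
    U.G_inj hS hF0 hG0 hGN (by omega) hu hu0 hz
  -- the contradiction
  have hGB : ∀ z, ∀ u ∈ imA A m, G z u ∈ imB A m := by
    intro z u hu
    by_cases hu0 : u = 0
    · rw [hu0, map_zero]
      exact Submodule.zero_mem _
    · exact hNle u hu (hGN z u hu hu0)
  let β : (Fin r → ℂ) →ₗ[ℂ] imA A m →ₗ[ℂ] imB A m := LinearMap.mk₂ ℂ
    (fun z u => ⟨G z (u : ι → ℂ), hGB z u u.2⟩)
    (by intro z z' u; apply Subtype.ext; simp only [map_add, LinearMap.add_apply,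
          Submodule.coe_add])
    (by intro c z u; apply Subtype.ext; simp only [map_smul, LinearMap.smul_apply,
          Submodule.coe_smul])
    (by intro z u u'; apply Subtype.ext; simp only [map_add, Submodule.coe_add])
    (by intro c z u; apply Subtype.ext; simp only [map_smul, Submodule.coe_smul])
  obtain ⟨e, u, he, hu, heu⟩ := exists_singular β
    (by rw [Module.finrank_fintype_fun_eq_card, Fintype.card_fin]; exact hr)
    (by rw [finrank_imA, finrank_imB]) (by rw [finrank_imA]; omega)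
  exact he (hGinj e u u.2 (fun h => hu (Subtype.ext h)) (congrArg Subtype.val heu))

end H12.Uni
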