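import Pool.Agent.H26.Uni.LongD
import Pool.Agent.H26.Uni.End2
import Pool.Agent.H26.Uni.End3
import Pool.Agent.H34.Uni.Gap
import Pool.Agent.H34.Uni.End1

/-!
# No unipotent symmetries: `N ≥ 16 r ^ 3`
-/

open MvPolynomial Matrix H89.Hart

set_option autoImplicit false
set_option linter.unusedSectionVars false

namespace H12.Uni

open Pool.Agent.H26.Uni Pool.Agent.H25.Hart

variable {ι : Type*} [Fintype ι] [DecidableEq ι]

/-- the numbers of Jordan blocks of size `≥ j` do not increase with `j`. -/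
theorem rk_concave (A : Matrix ι ι ℂ) (j : ℕ) :
    rk A (j + 1) + rk A (j + 1) ≤ rk A j + rk A (j + 2) := by
  have key : ∀ j, Module.finrank ℂ (imA A (j + 1)) +
      Module.finrank ℂ (imA A j ⊓ LinearMap.ker A.mulVecLin : Submodule ℂ (ι → ℂ)) =
        Module.finrank ℂ (imA A j) := by
    intro j
    have h1 := LinearMap.finrank_range_add_finrank_ker (A.mulVecLin.domRestrict (imA A j))
    have h2 : LinearMap.ker (A.mulVecLin.domRestrict (imA A j)) =
        Submodule.comap (imA A j).subtype (LinearMap.ker A.mulVecLin) := by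
      ext x
      rfl
    have h3 : (imA A j).map A.mulVecLin = imA A (j + 1) := by
      ext w
      rw [Submodule.mem_map]
      constructor
      · rintro ⟨v, hv, rfl⟩
        obtain ⟨u, rfl⟩ := mem_imA.1 hv
        refine mem_imA.2 ⟨u, ?_⟩
        rw [Matrix.mulVecLin_apply, Matrix.mulVec_mulVec, pow_succ']
      · intro hw
        obtain ⟨u, rfl⟩ := mem_imA.1 hw
        refine ⟨A ^ j *ᵥ u, mem_imA.2 ⟨u, rfl⟩, ?_⟩
        rw [Matrix.mulVecLin_apply, Matrix.mulVec_mulVec, pow_succ']
    rw [LinearMap.range_domRestrict, h2, finrank_comap_subtype, h3] at h1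
    exact h1
  have h1 := key j
  have h2 := key (j + 1)
  have h3 : Module.finrank ℂ (imA A (j + 1) ⊓ LinearMap.ker A.mulVecLin : Submodule ℂ (ι → ℂ)) ≤
      Module.finrank ℂ (imA A j ⊓ LinearMap.ker A.mulVecLin : Submodule ℂ (ι → ℂ)) :=
    Submodule.finrank_mono (inf_le_inf_right _ (imA_anti A j 1))
  rw [finrank_imA, finrank_imA] at h1 h2
  rw [show j + 1 + 1 = j + 2 by ring] at h2
  omega

/-- arithmetic. -/
theorem numeric {k : ℕ → ℕ} {r m : ℕ} (hr : 2 ≤ r) (hm : 1 ≤ m) (hm2 : m < 2 * r ^ 2)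
    (hanti : ∀ j, k (j + 1) ≤ k j)
    (hconc : ∀ j, k (j + 1) + k (j + 1) ≤ k j + k (j + 2))
    (hkm : k m < 2 * r)
    (hlev : ∀ j, 3 ≤ j → j ≤ m → k (j - 2) + k j + 2 * r ≤ k 0 → k (j - 1) < k j + 2 * r)
    (hgap : ∀ j, 1 ≤ j → j ≤ m → k (j - 1) < 2 * k j + 3 * r) : k 0 < 16 * r ^ 3 := by
  have hr2 : 2 * r ≤ r ^ 2 := by nlinarith
  have hr3 : 2 * r ^ 2 ≤ r ^ 3 := by
    have : r ^ 3 = r * r ^ 2 := by ring
    rw [this]; exact Nat.mul_le_mul_right _ hr
  have h1 := hgap 1 le_rfl hm
  rw [show 1 - 1 = 0 from rfl] at h1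
  -- small `m`
  rcases Nat.lt_or_ge m 3 with hm3 | hm3
  · rcases (show m = 1 ∨ m = 2 by omega) with rfl | rfl
    · omega
    · have h2 := hgap 2 (by omega) le_rfl
      rw [show 2 - 1 = 1 from rfl] at h2
      omega
  -- differences
  have hb : ∀ j, k j ≤ k (j + 1) + (k 0 - k 1) := by
    intro j
    induction j with
    | zero => have := hanti 0; simp only [Nat.zero_add] at this ⊢; omega
    | succ j ih =>
      have := hconc j
      rw [show j + 1 + 1 = j + 2 by ring]
      omega
  have hmono : ∀ a b, a ≤ b → k b ≤ k a := fun a b hab => antitone_nat_of_succ_le hanti hab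
  obtain ⟨J, hJ3, hJm, hJ, hJmin⟩ : ∃ J, 3 ≤ J ∧ J ≤ m + 1 ∧
      (∀ j, J ≤ j → j ≤ m → k (j - 2) + k j + 2 * r ≤ k 0) ∧
      (J = 3 ∨ k 0 < k (J - 1 - 2) + k (J - 1) + 2 * r) := by
    classical
    have hex : ∃ J, 3 ≤ J ∧ ∀ j, J ≤ j → j ≤ m → k (j - 2) + k j + 2 * r ≤ k 0 :=
      ⟨m + 3, by omega, fun j h1 h2 => by omega⟩
    have hspec := Nat.find_spec hex
    have hmin : ∀ J', J' < Nat.find hex → ¬ (3 ≤ J' ∧ ∀ j, J' ≤ j → j ≤ m →
        k (j - 2) + k j + 2 * r ≤ k 0) := fun J' h => Nat.find_min hex h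
    set J := Nat.find hex
    refine ⟨J, hspec.1, ?_, hspec.2, ?_⟩
    · by_contra hcon
      push Not at hcon
      exact hmin (m + 1) hcon ⟨by omega, fun j h1 h2 => by omega⟩
    · rcases Nat.eq_or_lt_of_le hspec.1 with h3 | h3
      · exact Or.inl h3.symm
      · right
        by_contra hcon
        push Not at hcon
        refine hmin (J - 1) (by omega) ⟨by omega, fun j hj hjm => ?_⟩
        rcases Nat.eq_or_lt_of_le hj with h4 | h4
        · rw [← h4]; exact hcon
        · exact hspec.2 j (by omega) hjm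
  -- `k (J - 1)` is small
  have hsmall : ∀ n, J ≤ m + 1 - n → n ≤ m → k (m - n) + n + 1 ≤ (n + 1) * (2 * r) := by
    intro n
    induction n with
    | zero => intro _ _; simp only [Nat.sub_zero]; omega
    | succ n ih =>
      intro h2 h3
      have h4 := ih (by omega) (by omega)
      have h5 := hlev (m - n) (by omega) (by omega) (hJ _ (by omega) (by omega))
      rw [show m - n - 1 = m - (n + 1) by omega] at h5
      have h6 : (n + 1 + 1) * (2 * r) = (n + 1) * (2 * r) + 2 * r := by ring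
      omega
  have hkJ := hsmall (m + 1 - J) (by omega) (by omega)
  rw [show m - (m + 1 - J) = J - 1 by omega] at hkJ
  obtain ⟨e, he⟩ : ∃ e, e = m + 1 - J := ⟨_, rfl⟩
  rw [← he] at hkJ
  have hem : e + 3 ≤ 2 * r ^ 2 := by omega
  -- the product
  have hprod : (e + 1) * (2 * r) + 4 * r ≤ 4 * r ^ 3 := by
    have h2 : (e + 1) * (2 * r) + 4 * r = (e + 3) * (2 * r) := by ring
    rw [h2]
    calc (e + 3) * (2 * r) ≤ (2 * r ^ 2) * (2 * r) := Nat.mul_le_mul_right _ hem
      _ = 4 * r ^ 3 := by ring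
  rcases hJmin with rfl | hJmin
  · have h2 := hgap 2 (by omega) (by omega)
    rw [show 2 - 1 = 1 from rfl] at h2
    rw [show 3 - 1 = 2 from rfl] at hkJ
    omega
  · rcases Nat.eq_or_lt_of_le hJ3 with h3 | h3
    · subst h3
      have h2 := hgap 2 (by omega) (by omega)
      rw [show 2 - 1 = 1 from rfl] at h2
      rw [show 3 - 1 = 2 from rfl] at hkJ
      omega
    · have h4 := hb (J - 3)
      have h5 := hb (J - 2)
      rw [show J - 3 + 1 = J - 2 by omega] at h4
      rw [show J - 2 + 1 = J - 1 by omega] at h5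
      rw [show J - 1 - 2 = J - 3 by omega] at hJmin
      have h6 := hmono 1 (J - 3) (by omega)
      have h7 := hmono 0 1 (by omega)
      omega

variable {I : Ideal (MvPolynomial ι ℂ)} {r : ℕ} {A : Matrix ι ι ℂ} {m : ℕ}

theorem rk_zero (A : Matrix ι ι ℂ) : rk A 0 = Fintype.card ι := by
  rw [rk, pow_zero, Matrix.rank_one]

/-- **No unipotent symmetries.** -/
theorem UniSetup.false (U : UniSetup I r A m) (h : 16 * r ^ 3 ≤ Fintype.card ι) : False := by
  have hr := U.two_le
  have hm1 := U.one_le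
  have hr2 : 2 * r ≤ r ^ 2 := by nlinarith
  have hr3 : 2 * r ^ 2 ≤ r ^ 3 := by
    have : r ^ 3 = r * r ^ 2 := by ring
    rw [this]; exact Nat.mul_le_mul_right _ hr
  have hgap : ∀ j, 1 ≤ j → j ≤ m → rk A (j - 1) < 2 * rk A j + 3 * r := by
    intro j h1 h2
    by_contra hcon
    push Not at hcon
    exact U.gap h1 h2 hcon
  have hanti : ∀ j, rk A (j + 1) ≤ rk A j := by
    intro j
    have := Submodule.finrank_mono (imA_anti A j 1)
    rwa [finrank_imA, finrank_imA] at this
  by_cases hS : Star I A m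
  · -- `rank A ^ m ≥ r`
    obtain ⟨x, hx, hxm⟩ := U.exists_pow_ne
    have hW : A ^ m *ᵥ x ∈ imA A m := mem_imA.2 ⟨x, rfl⟩
    have hkr : r ≤ rk A m := by
      have := U.finrank_Uw hS hW hxm
      omega
    rcases Nat.lt_or_ge (Fintype.card ι) (2 * rk A m + 2 * r) with h1 | h1
    · exact U.end3 hS (by omega)
    · rcases Nat.eq_or_lt_of_le hkr with h2 | h2
      · rcases Nat.eq_or_lt_of_le hm1 with h3 | h3
        · have := hgap 1 le_rfl hm1
          rw [show 1 - 1 = 0 from rfl, rk_zero] at this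
          rw [← h3] at h2
          omega
        · exact U.end2 hS h2.symm h3
      · exact U.end1 hS h2 h1
  · have hkm : rk A m < 2 * r := by
      by_contra hcon
      push Not at hcon
      exact hS (U.star_of_rank hcon)
    have hm2 : m < 2 * r ^ 2 := by
      by_contra hcon
      push Not at hcon
      exact hS (U.star_of_long' hcon)
    have hnum := numeric (k := rk A) hr hm1 hm2 hanti (rk_concave A) hkm (by
      intro j h3 h4 h5
      rw [rk_zero] at h5
      by_contra hcon
      push Not at hcon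
      exact hS (U.star_of_level h3 h4 h5 hcon)) hgap
    rw [rk_zero] at hnum
    omega

end H12.Uni
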