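import Pool.Agent.H26.Uni.Echelon
import Pool.Agent.H12.Uni.Star

/-!
# Long Jordan blocks: integrality (5d)
-/

open MvPolynomial Matrix H89.Hart

set_option autoImplicit false
set_option linter.unusedSectionVars false

namespace H12.Uni

open Pool.Agent.H26.Uni Pool.Agent.H25.Hart

variable {ι : Type*} [Fintype ι] [DecidableEq ι]

theorem wb_cancel {d : WithBot ℕ∞} {a b c : ℕ} (h : (a : WithBot ℕ∞) ≤ d + b) (hc : c + b ≤ a) :
    (c : WithBot ℕ∞) ≤ d := by
  rcases d with _ | e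
  · exfalso
    change ((a : ℕ) : WithBot ℕ∞) ≤ ⊥ + ((b : ℕ) : WithBot ℕ∞) at h
    rw [WithBot.bot_add] at h
    exact absurd (le_bot_iff.1 h) (WithBot.coe_ne_bot (a := ((a : ℕ) : ℕ∞)))
  · rcases e with _ | n
    · exact le_top
    · change ((a : ℕ) : WithBot ℕ∞) ≤ ((n : ℕ) : WithBot ℕ∞) + ((b : ℕ) : WithBot ℕ∞) at h
      change ((c : ℕ) : WithBot ℕ∞) ≤ ((n : ℕ) : WithBot ℕ∞)
      have h1 : a ≤ n + b := by exact_mod_cast h
      have h2 : c ≤ n := by omega
      exact_mod_cast h2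

theorem imA_anti (A : Matrix ι ι ℂ) (a n : ℕ) : imA A (a + n) ≤ imA A a := by
  intro w hw
  obtain ⟨v, rfl⟩ := mem_imA.1 hw
  rw [pow_add, ← Matrix.mulVec_mulVec]
  exact mem_imA.2 ⟨_, rfl⟩

/-- the ranks drop strictly. -/
theorem rk_strict {A : Matrix ι ι ℂ} {m : ℕ} (hne : A ^ m ≠ 0) (hnil : A ^ (m + 1) = 0) {j : ℕ}
    (hj : j ≤ m) : rk A (j + 1) + 1 ≤ rk A j := by
  by_contra hcon
  push Not at hcon
  have h1 : imA A (j + 1) ≤ imA A j := imA_anti A j 1
  have h2 : imA A (j + 1) = imA A j := by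
    apply Submodule.eq_of_le_of_finrank_le h1
    rw [finrank_imA, finrank_imA]
    omega
  have h3 : ∀ n, imA A (j + n) = imA A j := by
    intro n
    induction n with
    | zero => rfl
    | succ n ih =>
      apply le_antisymm (imA_anti A j (n + 1))
      intro w hw
      rw [← ih] at hw
      obtain ⟨v, rfl⟩ := mem_imA.1 hw
      -- `A^j v ∈ im A^(j+1)`
      have h4 : A ^ j *ᵥ v ∈ imA A (j + 1) := by rw [h2]; exact mem_imA.2 ⟨v, rfl⟩
      obtain ⟨u, hu⟩ := mem_imA.1 h4
      refine mem_imA.2 ⟨u, ?_⟩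
      rw [show j + (n + 1) = n + (j + 1) by ring, pow_add, ← Matrix.mulVec_mulVec, hu,
        Matrix.mulVec_mulVec, ← pow_add, add_comm n j]
  have h4 : imA A j = ⊥ := by
    rw [← h3 (m + 1 - j), show j + (m + 1 - j) = m + 1 by omega, Submodule.eq_bot_iff]
    intro w hw
    obtain ⟨v, rfl⟩ := mem_imA.1 hw
    rw [hnil, Matrix.zero_mulVec]
  apply hne
  have h5 : A ^ j = 0 := by
    ext a b
    have : A ^ j *ᵥ Pi.single b 1 ∈ imA A j := mem_imA.2 ⟨_, rfl⟩
    rw [h4, Submodule.mem_bot] at this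
    have := congrFun this a
    simpa using this
  have : A ^ m = A ^ (m - j) * A ^ j := by rw [← pow_add]; congr 1; omega
  rw [this, h5, mul_zero]

theorem rk_drop {A : Matrix ι ι ℂ} {m : ℕ} (hne : A ^ m ≠ 0) (hnil : A ^ (m + 1) = 0) (j : ℕ) :
    ∀ n, j + n ≤ m + 1 → rk A (j + n) + n ≤ rk A j := by
  intro n
  induction n with
  | zero => intro _; simp
  | succ n ih =>
    intro hn
    have h1 := ih (by omega)
    have h2 := rk_strict hne hnil (j := j + n) (by omega)
    have h3 : j + (n + 1) = j + n + 1 := by ring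
    rw [h3]
    omega

theorem rk_compl {A : Matrix ι ι ℂ} {m : ℕ} (hnil : A ^ (m + 1) = 0) {a b : ℕ}
    (h : m + 1 ≤ a + b) : rk A a + rk A b ≤ Fintype.card ι := by
  have h1 : imA A a ≤ kerA A b := by
    intro w hw
    obtain ⟨v, rfl⟩ := mem_imA.1 hw
    rw [mem_kerA, Matrix.mulVec_mulVec, ← pow_add]
    have : A ^ (b + a) = 0 := by
      rw [show b + a = (b + a - (m + 1)) + (m + 1) by omega, pow_add, hnil, mul_zero]
    rw [this, Matrix.zero_mulVec]
  have h2 := Submodule.finrank_mono h1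
  rw [finrank_imA] at h2
  have h3 := finrank_kerA A b
  omega

/-- the Pluecker polynomial with polynomial coefficients. -/
noncomputable def cp (A : Matrix ι ι ℂ) (m : ℕ) {r : ℕ} (g : Fin r → MvPolynomial ι ℂ)
    (l : Fin r → ι → ℂ) : Polynomial (MvPolynomial ι ℂ) :=
  (Matrix.of fun k j => ∑ i ∈ Finset.range (m + 1),
    Polynomial.C (C ((-1) ^ i / (i.factorial : ℂ)) * dd (A ^ i *ᵥ l j) (g k)) *
      Polynomial.X ^ i).det

theorem map_cp (A : Matrix ι ι ℂ) (m : ℕ) {r : ℕ} (g : Fin r → MvPolynomial ι ℂ)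
    (l : Fin r → ι → ℂ) (p : ι → ℂ) :
    (cp A m g l).map (eval p) = plu A m (fun k => dif (g k) p) l := by
  rw [cp, plu, ← Polynomial.coe_mapRingHom, RingHom.map_det]
  congr 1
  ext1 k j
  simp only [RingHom.mapMatrix_apply, Matrix.map_apply, Matrix.of_apply, phi]
  rw [map_sum]
  refine Finset.sum_congr rfl fun i _ => ?_
  rw [Polynomial.coe_mapRingHom, Polynomial.map_mul, Polynomial.map_C, Polynomial.map_pow,
    Polynomial.map_X, map_mul, eval_C, eval_dd]
  congr 2
  ring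

theorem coeff_cp (A : Matrix ι ι ℂ) (m : ℕ) {r : ℕ} (g : Fin r → MvPolynomial ι ℂ)
    (l : Fin r → ι → ℂ) (p : ι → ℂ) (j : ℕ) :
    (plu A m (fun k => dif (g k) p) l).coeff j = eval p ((cp A m g l).coeff j) := by
  rw [← map_cp, Polynomial.coeff_map]

theorem natDegree_phi (A : Matrix ι ι ℂ) (m : ℕ) (s v : ι → ℂ) : (phi A m s v).natDegree ≤ m := by
  rw [Polynomial.natDegree_le_iff_coeff_eq_zero]
  intro j hj
  rw [coeff_phi, if_neg (by omega)]

theorem natDegree_plu (A : Matrix ι ι ℂ) (m : ℕ) {r : ℕ} (s l : Fin r → ι → ℂ) :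
    (plu A m s l).natDegree ≤ r * m ∧ (plu A m s l).coeff (r * m) =
      (Matrix.of fun k j => (phi A m (s k) (l j)).coeff m).det := by
  have := coeff_det_of_row (Matrix.of fun k j => phi A m (s k) (l j)) (fun _ => m)
    (fun k j => natDegree_phi A m (s k) (l j))
  simpa [plu] using this

/-- the numbers `j` such that some Pluecker coefficient of degree `j` does not vanish
identically have a maximum. -/
theorem exists_max {A : Matrix ι ι ℂ} {m : ℕ} {r : ℕ} (g : Fin r → MvPolynomial ι ℂ)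
    {P : Ideal (MvPolynomial ι ℂ)} (hP : P.IsPrime) {p : ι → ℂ} (hp : p ∈ cone P)
    (hli : LinearIndependent ℂ (fun i => dif (g i) p)) :
    ∃ D : ℕ, (∃ l, (cp A m g l).coeff D ∉ P) ∧ ∀ j l, D < j → (cp A m g l).coeff j ∈ P := by
  let Q : Set ℕ := {j | ∃ l, (cp A m g l).coeff j ∉ P}
  have hbd : BddAbove Q := by
    refine ⟨r * m, ?_⟩
    rintro j ⟨l, hl⟩
    by_contra hcon
    push Not at hcon
    apply hl
    apply mem_of_cone hP
    intro x _
    rw [← coeff_cp]
    exact Polynomial.coeff_eq_zero_of_natDegree_lt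
      (lt_of_le_of_lt (natDegree_plu A m _ l).1 hcon)
  have hne : Q.Nonempty := by
    obtain ⟨e, he⟩ := exists_dual _ hli
    refine ⟨0, e, fun hmem => ?_⟩
    have h1 := hp _ hmem
    rw [← coeff_cp, plu, Polynomial.coeff_zero_eq_eval_zero] at h1
    have h2 := RingHom.map_det (Polynomial.evalRingHom (0 : ℂ))
      (Matrix.of fun k j => phi A m (dif (g k) p) (e j))
    have h3 : (Polynomial.evalRingHom (0 : ℂ)).mapMatrix
        (Matrix.of fun k j => phi A m (dif (g k) p) (e j)) = 1 := by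
      ext k j
      simp only [RingHom.mapMatrix_apply, Matrix.map_apply, Matrix.of_apply,
        Polynomial.coe_evalRingHom]
      rw [eval_phi, neg_zero, orb_zero, he, Matrix.one_apply]
    rw [h3, Matrix.det_one] at h2
    rw [Polynomial.coe_evalRingHom] at h2
    rw [h2] at h1
    exact one_ne_zero h1
  refine ⟨sSup Q, Nat.sSup_mem hne hbd, fun j l hj => ?_⟩
  by_contra hcon
  have : j ≤ sSup Q := le_csSup hbd ⟨l, hcon⟩
  omega

end H12.Uni
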