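import Pool.Agent.H26.Uni.LongA

/-!
# Long Jordan blocks: `(star)` holds
-/

open MvPolynomial Matrix H89.Hart

set_option autoImplicit false
set_option linter.unusedSectionVars false

namespace H12.Uni

open Pool.Agent.H26.Uni Pool.Agent.H25.Hart

variable {ι : Type*} [Fintype ι] [DecidableEq ι]
variable {I : Ideal (MvPolynomial ι ℂ)} {r : ℕ} {A : Matrix ι ι ℂ} {m : ℕ}

/-- a homogeneous frame with degrees `d i + 1`. -/
theorem exists_frame' (hI : Smooth I r) {y : ι → ℂ} (hy : y ∈ cone I) (hy0 : y ≠ 0) :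
    ∃ g : Fin r → MvPolynomial ι ℂ, ∃ l : Fin r → ι → ℂ, ∃ d : Fin r → ℕ, (∀ i, g i ∈ I) ∧
      (∀ i, (g i).IsHomogeneous (d i + 1)) ∧ LinearIndependent ℂ (fun i => dif (g i) y) ∧
      matAt g l y = 1 := by
  obtain ⟨g, l, hg, hhom, hli, hmat⟩ := exists_frame hI hy hy0
  choose d hd using hhom
  have hd1 : ∀ i, 1 ≤ d i := by
    intro i
    by_contra hcon
    have h0 : d i = 0 := by omega
    have h1 := hd i
    rw [h0] at h1
    have h2 : (g i) = C (coeff 0 (g i)) :=
      (totalDegree_eq_zero_iff_eq_C).1 (Nat.le_zero.1 h1.totalDegree_le)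
    apply hli.ne_zero i
    funext k
    simp only [dif]
    rw [h2, pderiv_C, map_zero]
    rfl
  refine ⟨g, l, fun i => d i - 1, hg, fun i => ?_, hli, hmat⟩
  have : d i - 1 + 1 = d i := by have := hd1 i; omega
  simp only [this]
  exact hd i

theorem long_int (U : UniSetup I r A m) (hm : 2 * r + 3 ≤ m) {x : ι → ℂ} (hx : x ∈ cone I)
    (hxm : A ^ m *ᵥ x ≠ 0) (s : Fin r → ι → ℂ) (hs : ∀ k, s k ∈ N I x)
    (hsli : LinearIndependent ℂ s) :
    ∃ D D' : ℕ, (∀ l', (plu A m s l').natDegree ≤ D) ∧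
      (∃ l, (plu A m s l).natDegree = D ∧ plu A m s l ≠ 0) ∧ (m - 1) * D = m * D' := by
  have hI := U.smooth
  have hr2 := U.two_le
  have hNB : ∀ x ∈ cone I, ∀ s ∈ N I x, ∀ t : ℂ, orbB A m (-t) s ∈ N I (orb A m t x) :=
    fun x hx s hs t => U.orbB_mem hx hs t
  have hxm1 : A ^ (m + 1) *ᵥ x = 0 := by rw [U.nil, Matrix.zero_mulVec]
  have hy : A ^ m *ᵥ x ∈ cone I := U.cl_cone hx hxm1
  obtain ⟨g, l, d, hg, hd, hli, hmat⟩ := exists_frame' hI hy hxm
  have hdet : (matAt g l (A ^ m *ᵥ x)).det ≠ 0 := by rw [hmat]; simp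
  obtain ⟨D, hD1, hD2, hD3, hD4⟩ := trace_formula hI U.nil U.stab hNB g hg d hd l
    (by omega) le_rfl hxm hxm1 hy hdet hx s hs hsli
  -- the variety `F_m`
  have hkm := finrank_kerA A m
  have hc1 := rk_compl U.nil (a := m) (b := 1) le_rfl
  have hd1 := rk_drop U.ne U.nil 1 (m - 1) (by omega)
  have hc3 := rk_compl U.nil (a := m - 2) (b := 3) (by omega)
  have hd3 := rk_drop U.ne U.nil 3 (m - 3) (by omega)
  rw [show 1 + (m - 1) = m by omega] at hd1
  rw [show 3 + (m - 3) = m by omega] at hd3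
  obtain ⟨P, hP, hPh, hIP, hPM, hPdim⟩ := exists_F hI U.dim_le (kerA A m) (by omega)
  have hPcone : ∀ z ∈ cone P, z ∈ cone I := fun z hz => cone_anti hIP hz
  -- a good point
  obtain ⟨h0, h0P, hh0⟩ := zm hI (by omega) U.nd hP hPh LinearMap.id
    (fun u hu => hPcone u hu) (imB A (m - 2)) (by
      refine wb_cancel hPdim ?_
      rw [LinearMap.ker_id, finrank_bot, finrank_imB]
      omega)
  obtain ⟨p, hpP, hph⟩ := exists_of_not_mem hP h0P
  obtain ⟨hp0, hpS⟩ := hh0 p hpP hph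
  simp only [LinearMap.id_coe, id_eq] at hp0 hpS
  obtain ⟨g', l', hg', -, hli', -⟩ := exists_frame hI (hPcone p hpP) hp0
  obtain ⟨D', ⟨l2, hl2⟩, hmax⟩ := exists_max (A := A) (m := m) g' hP hpP hli'
  refine ⟨D, D', hD1, ⟨l, hD2, hD3⟩, ?_⟩
  -- the polynomial relation
  obtain ⟨k0, hk0⟩ : ∃ k, (A ^ m *ᵥ x) k ≠ 0 := by
    by_contra hc
    push Not at hc
    exact hxm (funext hc)
  let L1 : (ι → ℂ) →ₗ[ℂ] (ι → ℂ) := A.mulVecLin
  let G : MvPolynomial ι ℂ := pull L1 (mat g l).det *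
    (C (D' : ℂ) * pull L1 (mat g l).det - C ((m - 1 : ℕ) : ℂ) *
      (C ((∑ i, d i : ℕ) : ℂ) * pull L1 (mat g l).det -
        ∑ i, X i * pull L1 (pderiv i (TT A g l)))) * pull L1 (X k0)
  have hG : ∀ v, eval v G = (matAt g l (A *ᵥ v)).det *
      ((D' : ℂ) * (matAt g l (A *ᵥ v)).det - ((m - 1 : ℕ) : ℂ) *
        (((∑ i, d i : ℕ) : ℂ) * (matAt g l (A *ᵥ v)).det -
          dif (TT A g l) (A *ᵥ v) ⬝ᵥ v)) * (A *ᵥ v) k0 := by
    intro v
    simp only [G, map_mul, map_sub, map_sum, eval_C, eval_X, eval_pull, eval_det_mat, L1,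
      Matrix.mulVecLin_apply, dotProduct, dif]
    congr 4
    congr 1
    refine Finset.sum_congr rfl fun i _ => ?_
    rw [mul_comm]
  have hrel : ∀ z ∈ cone P, eval z ((cp A m g' l2).coeff D') ≠ 0 →
      eval (A ^ (m - 2) *ᵥ z) G = 0 := by
    intro z hz hzc
    have hzA : A *ᵥ (A ^ (m - 2) *ᵥ z) = A ^ (m - 1) *ᵥ z := by
      rw [Matrix.mulVec_mulVec, ← pow_succ', show m - 2 + 1 = m - 1 by omega]
    rw [hG, hzA]
    by_cases hz1 : A ^ (m - 1) *ᵥ z = 0
    · rw [hz1]; simp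
    by_cases hz2 : (matAt g l (A ^ (m - 1) *ᵥ z)).det = 0
    · rw [hz2]; simp
    have hzm : A ^ (m - 1 + 1) *ᵥ z = 0 := by
      rw [show m - 1 + 1 = m by omega]
      exact mem_kerA.1 (hPM z hz)
    have hzI := hPcone z hz
    have hplu : plu A m (fun k => dif (g' k) z) l2 ≠ 0 := by
      intro h
      have := coeff_cp A m g' l2 z D'
      rw [h, Polynomial.coeff_zero] at this
      exact hzc this.symm
    obtain ⟨D1, hD11, hD12, hD13, hD14⟩ := trace_formula hI U.nil U.stab hNB g hg d hd l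
      (a := m - 1) (by omega) (by omega) hz1 hzm (U.cl_cone hzI hzm) hz2 hzI
      (fun k => dif (g' k) z) (fun k => mem_N.2 ⟨g' k, hg' k, rfl⟩) (li_of_plu hplu)
    have hDD : D1 = D' := by
      apply le_antisymm
      · by_contra hcon
        push Not at hcon
        have h1 := hz _ (hmax D1 l hcon)
        rw [← coeff_cp] at h1
        rw [← hD12] at h1
        exact hD13 (Polynomial.leadingCoeff_eq_zero.1 h1)
      · refine le_trans ?_ (hD11 l2)
        apply Polynomial.le_natDegree_of_ne_zero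
        rw [coeff_cp]
        exact hzc
    rw [hDD, show m - 1 - 1 = m - 2 by omega] at hD14
    rw [hD14, sub_self, mul_zero, zero_mul]
  -- `G ∘ A^(m-2)` vanishes on `F_m`
  let L2 : (ι → ℂ) →ₗ[ℂ] (ι → ℂ) := (A ^ (m - 2)).mulVecLin
  have hGP : pull L2 G ∈ P := by
    have h1 : (cp A m g' l2).coeff D' * pull L2 G ∈ P := by
      apply mem_of_cone hP
      intro z hz
      rw [map_mul, eval_pull]
      by_cases h2 : eval z ((cp A m g' l2).coeff D') = 0
      · rw [h2, zero_mul]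
      · have := hrel z hz h2
        rw [show L2 z = A ^ (m - 2) *ᵥ z from rfl, this, mul_zero]
    exact (hP.mem_or_mem h1).resolve_left hl2
  have hdom := dom hI hP hIP (kerA A m) hPM hPdim L2 hpP hp0 (by
    intro s hs hsv
    refine hpS s hs ?_
    rw [mem_imB_iff]
    intro v hv
    refine hsv v ?_ hv
    rw [mem_kerA, show m = 2 + (m - 2) by omega, pow_add, ← Matrix.mulVec_mulVec, hv,
      Matrix.mulVec_zero]) (g := G) (fun z hz => by
      have := hz _ hGP
      rwa [eval_pull] at this)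
  have hAx : A *ᵥ x ∈ kerA A m := by
    rw [mem_kerA, Matrix.mulVec_mulVec, ← pow_succ]
    exact hxm1
  have hfin := hdom _ hAx
  have e1 : L2 (A *ᵥ x) = A ^ (m - 1) *ᵥ x := by
    change A ^ (m - 2) *ᵥ (A *ᵥ x) = _
    rw [Matrix.mulVec_mulVec, ← pow_succ, show m - 2 + 1 = m - 1 by omega]
  have e2 : A *ᵥ (A ^ (m - 1) *ᵥ x) = A ^ m *ᵥ x := by
    rw [Matrix.mulVec_mulVec, ← pow_succ', show m - 1 + 1 = m by omega]
  rw [e1, hG, e2] at hfin
  have h2 := (mul_eq_zero.1 hfin).resolve_right hk0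
  have h3 := (mul_eq_zero.1 h2).resolve_left hdet
  have h4 : ((((m - 1 : ℕ) : ℂ) * (D : ℂ)) - (m : ℂ) * (D' : ℂ)) *
      (matAt g l (A ^ m *ᵥ x)).det = 0 := by
    linear_combination ((m - 1 : ℕ) : ℂ) * hD4 - (m : ℂ) * h3
  have h5 := (mul_eq_zero.1 h4).resolve_right hdet
  have h6 : (((m - 1) * D : ℕ) : ℂ) = ((m * D' : ℕ) : ℂ) := by
    rw [Nat.cast_mul, Nat.cast_mul]
    exact sub_eq_zero.1 h5
  exact_mod_cast h6

/-- independence of the powers. -/
theorem li_pow {n i : ℕ} (hA : A ^ (m + 1) = 0) {v : ι → ℂ} (hv : A ^ m *ᵥ v ≠ 0)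
    (hin : i + n = m + 1) : LinearIndependent ℂ (fun j : Fin n => A ^ (i + (j : ℕ)) *ᵥ v) := by
  rw [Fintype.linearIndependent_iff]
  intro c hc
  have key : ∀ k : ℕ, ∀ hk : k < n, c ⟨k, hk⟩ = 0 := by
    intro k
    induction k using Nat.strong_induction_on with
    | _ k ih =>
      intro hk
      have h1 := congrArg (fun w => A ^ (n - 1 - k) *ᵥ w) hc
      simp only [Matrix.mulVec_sum, Matrix.mulVec_smul, Matrix.mulVec_zero,
        Matrix.mulVec_mulVec, ← pow_add] at h1
      rw [Finset.sum_eq_single ⟨k, hk⟩] at h1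
      · rw [show n - 1 - k + (i + ((⟨k, hk⟩ : Fin n) : ℕ)) = m by simp only; omega] at h1
        exact (smul_eq_zero.1 h1).resolve_right hv
      · intro b _ hb
        rcases lt_trichotomy (b : ℕ) k with h2 | h2 | h2
        · have := ih b h2 b.2
          rw [show (⟨(b : ℕ), b.2⟩ : Fin n) = b from rfl] at this
          rw [this, zero_smul]
        · exact absurd (Fin.ext h2) hb
        · have h3 : A ^ (n - 1 - k + (i + (b : ℕ))) = 0 := by
            have h4 : n - 1 - k + (i + (b : ℕ)) = (b - k - 1) + (m + 1) := by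
              have := b.2
              omega
            rw [h4, pow_add, hA, mul_zero]
          rw [h3, Matrix.zero_mulVec, smul_zero]
      · intro h; exact absurd (Finset.mem_univ _) h
  intro k
  exact key k k.2

/-- the annihilator of `A^i v, ..., A^m v`. -/
noncomputable def annS (A : Matrix ι ι ℂ) (v : ι → ℂ) (i n : ℕ) : Submodule ℂ (ι → ℂ) where
  carrier := {s | ∀ j : Fin n, s ⬝ᵥ (A ^ (i + (j : ℕ)) *ᵥ v) = 0}
  add_mem' {a b} ha hb j := by rw [add_dotProduct, ha j, hb j, add_zero]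
  zero_mem' j := zero_dotProduct _
  smul_mem' c s hs j := by rw [smul_dotProduct, hs j, smul_zero]

theorem finrank_annS {n i : ℕ} (hA : A ^ (m + 1) = 0) {v : ι → ℂ} (hv : A ^ m *ᵥ v ≠ 0)
    (hin : i + n = m + 1) : Module.finrank ℂ (annS A v i n) + n = Fintype.card ι := by
  obtain ⟨e, he⟩ := exists_dual _ (li_pow (n := n) (i := i) hA hv hin)
  let Ψ : (ι → ℂ) →ₗ[ℂ] (Fin n → ℂ) :=
    { toFun := fun s j => s ⬝ᵥ (A ^ (i + (j : ℕ)) *ᵥ v)
      map_add' := fun a b => by funext j; simp [add_dotProduct]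
      map_smul' := fun c a => by funext j; simp [smul_dotProduct] }
  have h1 := LinearMap.finrank_range_add_finrank_ker Ψ
  have h2 : LinearMap.range Ψ = ⊤ := by
    rw [LinearMap.range_eq_top]
    intro c
    refine ⟨∑ k, c k • e k, ?_⟩
    funext j
    change (∑ k, c k • e k) ⬝ᵥ (A ^ (i + (j : ℕ)) *ᵥ v) = c j
    rw [sum_dotProduct, Finset.sum_eq_single j]
    · rw [smul_dotProduct, dotProduct_comm, he]
      simp
    · intro b _ hb
      rw [smul_dotProduct, dotProduct_comm, he, if_neg (Ne.symm hb), smul_zero]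
    · intro h; exact absurd (Finset.mem_univ _) h
  have h3 : LinearMap.ker Ψ = annS A v i n := by
    ext s
    rw [LinearMap.mem_ker]
    constructor
    · intro h j; exact congrFun h j
    · intro h; funext j; exact h j
  rw [h2, finrank_top, h3, Module.finrank_fintype_fun_eq_card,
    Module.finrank_fintype_fun_eq_card, Fintype.card_fin] at h1
  omega

/-- **Long blocks**: `(star)`. -/
theorem UniSetup.star_of_long' (U : UniSetup I r A m) (h : 2 * r ^ 2 ≤ m) : Star I A m := by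
  have hI := U.smooth
  have hr2 := U.two_le
  have hm : 2 * r + 3 ≤ m := by nlinarith
  have hm3 : 3 * r ≤ m := by nlinarith
  obtain ⟨v, -, hv⟩ := U.exists_pow_ne
  have hfin := finrank_annS (n := 2 * r) (i := m + 1 - 2 * r) U.nil hv (by omega)
  obtain ⟨h0, h0I, hh0⟩ := zm hI (by omega) U.nd hI.prime hI.homog LinearMap.id
    (fun u hu => hu) (annS A v (m + 1 - 2 * r) (2 * r)) (by
      refine wb_cancel U.dim_le ?_
      rw [LinearMap.ker_id, finrank_bot]
      omega)
  -- a generic point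
  obtain ⟨k0, hk0⟩ : ∃ k, (A ^ m *ᵥ v) k ≠ 0 := by
    by_contra hc
    push Not at hc
    exact hv (funext hc)
  obtain ⟨x, hx, hxe⟩ : ∃ x ∈ cone I, eval x (h0 * lf ((A ^ m) k0)) ≠ 0 := by
    apply exists_of_not_mem hI.prime
    intro hmem
    rcases hI.prime.mem_or_mem hmem with h1 | h1
    · exact h0I h1
    · obtain ⟨x, hx, hxk⟩ := U.exists_pow_ne
      -- the linear form `(A^m x)_k0` is not zero on the cone
      have h2 := U.nd ((A ^ m) k0) (fun x hx => by
        have := hx _ h1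
        rwa [eval_lf] at this)
      apply hk0
      change (A ^ m) k0 ⬝ᵥ v = 0
      rw [h2, zero_dotProduct]
  rw [map_mul] at hxe
  have hxh : eval x h0 ≠ 0 := left_ne_zero_of_mul hxe
  have hxm : A ^ m *ᵥ x ≠ 0 := by
    intro h1
    apply right_ne_zero_of_mul hxe
    rw [eval_lf]
    exact congrFun h1 k0
  obtain ⟨hx0, hxS⟩ := hh0 x hx hxh
  simp only [LinearMap.id_coe, id_eq] at hx0 hxS
  obtain ⟨s, l, hs, hsli, hbound⟩ := wronskian_bound U.nil (i := m + 1 - 2 * r) (by omega)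
    (N I x) (hI.rank x hx hx0) v (by
      intro s hs hs0
      by_contra hcon
      push Not at hcon
      apply hs0
      apply hxS s hs
      intro j
      refine hcon _ (by omega) ?_
      have := j.2
      omega)
  obtain ⟨D, D', hD1, ⟨l', hl1, hl2⟩, hD2⟩ := long_int U hm hx hxm s hs hsli
  have hDle : D ≤ r * m := by
    rw [← hl1]
    exact (natDegree_plu A m s l').1
  have hDge := hbound.trans (hD1 l)
  -- `m ∣ D`
  have hdvd : m ∣ D := by
    have h1 : m ∣ (m - 1) * D := ⟨D', hD2⟩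
    have h2 : Nat.Coprime m (m - 1) := by
      have : m = (m - 1) + 1 := by omega
      rw [this]
      simp
    exact (Nat.Coprime.dvd_mul_left h2).1 h1
  obtain ⟨q, hq⟩ := hdvd
  have hqr : q = r := by
    apply le_antisymm
    · rw [hq, mul_comm r m] at hDle
      exact Nat.le_of_mul_le_mul_left hDle (by omega)
    · by_contra hcon
      push Not at hcon
      have h1 : q ≤ r - 1 := by omega
      have h2 : m * q ≤ m * (r - 1) := Nat.mul_le_mul_left _ h1
      rw [hq] at hDge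
      have h3 : r * (m + 1 - 2 * r) ≤ m * (r - 1) := hDge.trans h2
      obtain ⟨c, rfl⟩ : ∃ c, r = c + 1 := ⟨r - 1, by omega⟩
      obtain ⟨b, rfl⟩ : ∃ b, m = b + 2 * (c + 1) ^ 2 := ⟨m - 2 * (c + 1) ^ 2, by omega⟩
      have h4 : b + 2 * (c + 1) ^ 2 + 1 - 2 * (c + 1) = b + 2 * c ^ 2 + 2 * c + 1 := by
        have : 2 * (c + 1) ^ 2 = 2 * c ^ 2 + 4 * c + 2 := by ring
        omega
      rw [h4, Nat.add_sub_cancel] at h3
      nlinarith
  rw [hqr] at hq
  -- the top coefficient
  have htop := (natDegree_plu A m s l').2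
  have htop0 : (plu A m s l').coeff (r * m) ≠ 0 := by
    rw [mul_comm r m, ← hq, ← hl1]
    exact Polynomial.leadingCoeff_ne_zero.2 hl2
  rw [htop] at htop0
  refine ⟨x, hx, hx0, fun t ht htm => ?_⟩
  have hspan : Submodule.span ℂ (Set.range s) = N I x := by
    apply Submodule.eq_of_le_of_finrank_eq
    · rw [Submodule.span_le]
      rintro _ ⟨k, rfl⟩
      exact hs k
    · rw [finrank_span_eq_card hsli, hI.rank x hx hx0, Fintype.card_fin]
  obtain ⟨c, hc⟩ : ∃ c : Fin r → ℂ, ∑ k, c k • s k = t :=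
    (Submodule.mem_span_range_iff_exists_fun ℂ).1 (by rw [hspan]; exact ht)
  have hvec : Matrix.vecMul c (Matrix.of fun k j => (phi A m (s k) (l' j)).coeff m) = 0 := by
    funext j
    have h1 := congrArg (fun P => Polynomial.coeff P m) (phi_sum A m c s (l' j))
    simp only [Polynomial.finsetSum_coeff, Polynomial.coeff_smul, smul_eq_mul] at h1
    rw [hc, coeff_phi, if_pos le_rfl, Matrix.dotProduct_mulVec, htm, zero_dotProduct] at h1
    simp only [Matrix.vecMul, dotProduct, Matrix.of_apply, Pi.zero_apply]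
    rw [← h1]
    simp
  have hc0 := Matrix.eq_zero_of_vecMul_eq_zero htop0 hvec
  rw [← hc, hc0]
  simp

/-- Section 5: (star) holds when `m` is large. -/
theorem UniSetup.star_of_long (U : UniSetup I r A m) (h1 : 3 * r ^ 2 ≤ m) (_h2 : 7 ≤ m)
    (_h3 : 4 * r ≤ Fintype.card ι) : Star I A m := U.star_of_long' (by nlinarith)

end H12.Uni
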