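import Pool.Agent.H26.Uni.Echelon
import Pool.Agent.H26.Uni.Det

/-!
# Minimal bases: the degree of the curve `exp(-tB) N`

If `N` meets `ker B ^ i` only in `0` then the Pluecker degree of `t ↦ exp(-tB) N` is at least
`r * i`, `r = dim N`.
-/

open MvPolynomial Matrix H89.Hart H12.Uni

set_option autoImplicit false
set_option linter.unusedSectionVars false

namespace Pool.Agent.H26.Uni

variable {ι : Type*} [Fintype ι] [DecidableEq ι]

theorem phi_ssum (A : Matrix ι ι ℂ) (m : ℕ) (s v : ι → ℂ) :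
    phi A m s v = ∑ k, Polynomial.C (s k) * phi A m (Pi.single k 1) v := by
  ext n
  rw [Polynomial.finsetSum_coeff, coeff_phi]
  simp only [Polynomial.coeff_C_mul, coeff_phi]
  by_cases hn : n ≤ m
  · simp only [if_pos hn]
    have h1 : s ⬝ᵥ (A ^ n *ᵥ v) = ∑ k, s k * ((Pi.single k (1 : ℂ) : ι → ℂ) ⬝ᵥ (A ^ n *ᵥ v)) := by
      simp [dotProduct, Pi.single_apply]
    rw [h1, Finset.mul_sum, Finset.sum_div]
    refine Finset.sum_congr rfl fun k _ => ?_
    ring
  · simp only [if_neg hn, mul_zero, Finset.sum_const_zero]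

theorem phi_vsum (A : Matrix ι ι ℂ) (m : ℕ) (s v : ι → ℂ) :
    phi A m s v = ∑ k, phi A m s (Pi.single k 1) * Polynomial.C (v k) := by
  ext n
  rw [Polynomial.finsetSum_coeff, coeff_phi]
  simp only [Polynomial.coeff_mul_C, coeff_phi]
  by_cases hn : n ≤ m
  · simp only [if_pos hn]
    have h1 : s ⬝ᵥ (A ^ n *ᵥ v) = ∑ k, (s ⬝ᵥ (A ^ n *ᵥ (Pi.single k (1 : ℂ) : ι → ℂ))) * v k := by
      rw [dotProduct_mulVec]
      simp only [dotProduct_mulVec]
      simp [dotProduct, Pi.single_apply]
    rw [h1, Finset.mul_sum, Finset.sum_div]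
    refine Finset.sum_congr rfl fun k _ => ?_
    ring
  · simp only [if_neg hn, zero_mul, Finset.sum_const_zero]

theorem phi_mulVec (A : Matrix ι ι ℂ) (m : ℕ) (s v : ι → ℂ) :
    phi A m s (A *ᵥ v) = phi A m (s ᵥ* A) v := by
  ext n
  rw [coeff_phi, coeff_phi]
  have h : s ⬝ᵥ (A ^ n *ᵥ (A *ᵥ v)) = (s ᵥ* A) ⬝ᵥ (A ^ n *ᵥ v) := by
    rw [← dotProduct_mulVec, Matrix.mulVec_mulVec, Matrix.mulVec_mulVec, ← pow_succ, ← pow_succ']
  rw [h]

/-- `exp(-tB) ν(t)` paired with `v`. -/
noncomputable def Eph (A : Matrix ι ι ℂ) (m : ℕ) (ν : ι → Polynomial ℂ) (v : ι → ℂ) :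
    Polynomial ℂ := ∑ k, ν k * phi A m (Pi.single k 1) v

/-- `(d / dt - B) ν`. -/
noncomputable def dB (A : Matrix ι ι ℂ) (ν : ι → Polynomial ℂ) (k : ι) : Polynomial ℂ :=
  (ν k).derivative - ∑ j, ν j * Polynomial.C (A j k)

theorem derivative_Eph {A : Matrix ι ι ℂ} {m : ℕ} (hA : A ^ (m + 1) = 0) (ν : ι → Polynomial ℂ)
    (v : ι → ℂ) : (Eph A m ν v).derivative = Eph A m (dB A ν) v := by
  simp only [Eph, dB, Polynomial.derivative_sum, Polynomial.derivative_mul, derivative_phi hA,
    sub_mul, Finset.sum_sub_distrib, Finset.sum_add_distrib]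
  rw [sub_eq_add_neg]
  congr 1
  have h1 : ∀ j, phi A m (Pi.single j 1) (-(A *ᵥ v)) =
      -∑ k, Polynomial.C (A j k) * phi A m (Pi.single k 1) v := by
    intro j
    have h2 : phi A m (Pi.single j 1) (-(A *ᵥ v)) = -phi A m (Pi.single j 1) (A *ᵥ v) := by
      ext n
      rw [Polynomial.coeff_neg, coeff_phi, coeff_phi, Matrix.mulVec_neg, dotProduct_neg]
      split_ifs
      · ring
      · simp
    rw [h2, phi_mulVec, phi_ssum]
    congr 1
    refine Finset.sum_congr rfl fun k _ => ?_
    simp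
  simp only [h1, mul_neg, Finset.sum_neg_distrib, Finset.mul_sum, Finset.sum_mul]
  congr 1
  rw [Finset.sum_comm]
  refine Finset.sum_congr rfl fun k _ => Finset.sum_congr rfl fun j _ => ?_
  ring

theorem Eph_eq_zero {A : Matrix ι ι ℂ} {m : ℕ} (hA : A ^ (m + 1) = 0) {ν : ι → Polynomial ℂ}
    (h : ∀ v, Eph A m ν v = 0) (k : ι) : ν k = 0 := by
  apply Polynomial.funext
  intro t
  rw [Polynomial.eval_zero]
  have h1 : ∀ v : ι → ℂ, (fun k => (ν k).eval t) ⬝ᵥ orb A m (-t) v = 0 := by
    intro v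
    have h2 := congrArg (Polynomial.eval t) (h v)
    rw [Eph, Polynomial.eval_finsetSum, Polynomial.eval_zero] at h2
    rw [← h2, dotProduct]
    refine Finset.sum_congr rfl fun k _ => ?_
    rw [Polynomial.eval_mul, eval_phi]
    simp
  have h3 : (fun k => (ν k).eval t) = 0 := by
    refine dotProduct_eq_zero _ fun w => ?_
    have := h1 (H12.Uni.orb A m t w)
    rwa [orb_neg_orb hA] at this
  exact congrFun h3 k

/-- the top coefficient of `ν` is killed by `B ^ i` if `exp(-tB) ν` has degree `< i`. -/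
theorem top_killed {A : Matrix ι ι ℂ} {m : ℕ} (hA : A ^ (m + 1) = 0) : ∀ (i : ℕ)
    (ν : ι → Polynomial ℂ) (q : ℕ), (∀ k, (ν k).natDegree ≤ q) →
      (∀ v n, i ≤ n → (Eph A m ν v).coeff n = 0) → (fun k => (ν k).coeff q) ᵥ* A ^ i = 0 := by
  intro i
  induction i with
  | zero =>
    intro ν q _ h
    have h1 : ∀ v, Eph A m ν v = 0 := fun v => by
      ext n
      rw [h v n (Nat.zero_le n), Polynomial.coeff_zero]
    have h2 : (fun k => (ν k).coeff q) = 0 := by
      funext k
      rw [Eph_eq_zero hA h1 k, Polynomial.coeff_zero]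
      rfl
    rw [h2, Matrix.zero_vecMul]
  | succ i ih =>
    intro ν q hq h
    have h1 := ih (dB A ν) q (fun k => by
      rw [dB]
      refine (Polynomial.natDegree_sub_le _ _).trans (max_le ?_ ?_)
      · exact (Polynomial.natDegree_derivative_le _).trans ((Nat.sub_le _ _).trans (hq k))
      · refine Polynomial.natDegree_sum_le_of_forall_le _ _ fun j _ => ?_
        exact (Polynomial.natDegree_mul_C_le _ _).trans (hq j)) (fun v n hn => by
        rw [← derivative_Eph hA, Polynomial.coeff_derivative, h v (n + 1) (by omega), zero_mul])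
    have h2 : (fun k => (dB A ν k).coeff q) = -((fun k => (ν k).coeff q) ᵥ* A) := by
      funext k
      rw [dB, Polynomial.coeff_sub, Polynomial.coeff_derivative,
        Polynomial.coeff_eq_zero_of_natDegree_lt (lt_of_le_of_lt (hq k) (Nat.lt_succ_self q)),
        zero_mul, zero_sub, Polynomial.finsetSum_coeff, Pi.neg_apply]
      congr 1
      simp only [Polynomial.coeff_mul_C, Matrix.vecMul, dotProduct]
    rw [h2, Matrix.neg_vecMul, neg_eq_zero, Matrix.vecMul_vecMul, ← pow_succ'] at h1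
    exact h1

variable {A : Matrix ι ι ℂ} {m : ℕ} {r : ℕ}

/-- the matrix of `exp(-tB) s_l`. -/
noncomputable def PhiM (A : Matrix ι ι ℂ) (m : ℕ) {r : ℕ} (s : Fin r → ι → ℂ) :
    Matrix (Fin r) ι (Polynomial ℂ) := Matrix.of fun l j => phi A m (s l) (Pi.single j 1)

/-- nonzero combinations have degree at least `i`. -/
theorem row_degree (hA : A ^ (m + 1) = 0) {i : ℕ} {s : Fin r → ι → ℂ}
    (hs : LinearIndependent ℂ s)
    (hNi : ∀ c : Fin r → ℂ, (∑ l, c l • s l) ᵥ* A ^ i = 0 → ∑ l, c l • s l = 0)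
    {u : Fin r → Polynomial ℂ} (hu : u ≠ 0) :
    ∃ j n, i ≤ n ∧ ((u ᵥ* PhiM A m s) j).coeff n ≠ 0 := by
  by_contra hcon
  push Not at hcon
  obtain ⟨l0, hl0⟩ : ∃ l, u l ≠ 0 := by
    by_contra hc
    push Not at hc
    exact hu (funext hc)
  obtain ⟨l1, hl1, hmax⟩ := Finset.exists_max_image (Finset.univ.filter fun l => u l ≠ 0)
    (fun l => (u l).natDegree) ⟨l0, by simp [hl0]⟩
  have hl1' : u l1 ≠ 0 := (Finset.mem_filter.1 hl1).2
  set q := (u l1).natDegree with hq
  have hle : ∀ l, (u l).natDegree ≤ q := by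
    intro l
    by_cases h0 : u l = 0
    · rw [h0]; simp
    · exact hmax l (by simp [h0])
  let ν : ι → Polynomial ℂ := fun k => ∑ l, u l * Polynomial.C (s l k)
  have hν : ∀ k, (ν k).natDegree ≤ q := by
    intro k
    refine Polynomial.natDegree_sum_le_of_forall_le _ _ fun l _ => ?_
    exact (Polynomial.natDegree_mul_C_le _ _).trans (hle l)
  have hE : ∀ v, Eph A m ν v = ∑ j, (u ᵥ* PhiM A m s) j * Polynomial.C (v j) := by
    intro v
    have h1 : Eph A m ν v = ∑ l, u l * phi A m (s l) v := by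
      simp only [Eph, ν, Finset.sum_mul]
      rw [Finset.sum_comm]
      refine Finset.sum_congr rfl fun l _ => ?_
      rw [phi_ssum A m (s l) v, Finset.mul_sum]
      refine Finset.sum_congr rfl fun k _ => ?_
      ring
    rw [h1]
    simp only [Matrix.vecMul, dotProduct, PhiM, Matrix.of_apply, Finset.sum_mul]
    rw [Finset.sum_comm]
    refine Finset.sum_congr rfl fun l _ => ?_
    rw [phi_vsum A m (s l) v, Finset.mul_sum]
    refine Finset.sum_congr rfl fun k _ => ?_
    ring
  have h1 := top_killed hA i ν q hν (fun v n hn => by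
    rw [hE, Polynomial.finsetSum_coeff]
    refine Finset.sum_eq_zero fun j _ => ?_
    rw [Polynomial.coeff_mul_C, hcon j n hn, zero_mul])
  have h2 : (fun k => (ν k).coeff q) = ∑ l, (u l).coeff q • s l := by
    funext k
    simp only [ν, Polynomial.finsetSum_coeff, Polynomial.coeff_mul_C, Finset.sum_apply,
      Pi.smul_apply, smul_eq_mul]
  rw [h2] at h1
  have h3 := Fintype.linearIndependent_iff.1 hs _ (hNi _ h1) l1
  exact hl1' (Polynomial.leadingCoeff_eq_zero.1 h3)

/-- the degree of a row. -/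
noncomputable def rdeg (M : Matrix (Fin r) ι (Polynomial ℂ)) (k : Fin r) : ℕ :=
  Finset.univ.sup fun j => (M k j).natDegree

theorem le_rdeg (M : Matrix (Fin r) ι (Polynomial ℂ)) (k : Fin r) (j : ι) :
    (M k j).natDegree ≤ rdeg M k := Finset.le_sup (f := fun j => (M k j).natDegree)
      (Finset.mem_univ j)

/-- **Claim E** -/
theorem degree_bound (hA : A ^ (m + 1) = 0) {i : ℕ} (hi : 1 ≤ i) {s : Fin r → ι → ℂ}
    (hs : LinearIndependent ℂ s)
    (hNi : ∀ c : Fin r → ℂ, (∑ l, c l • s l) ᵥ* A ^ i = 0 → ∑ l, c l • s l = 0) :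
    ∃ l : Fin r → ι → ℂ, r * i ≤ (plu A m s l).natDegree ∧ plu A m s l ≠ 0 := by
  let tot : Matrix (Fin r) (Fin r) (Polynomial ℂ) → ℕ := fun U => ∑ k, rdeg (U * PhiM A m s) k
  obtain ⟨U, hU, hmin⟩ := WellFounded.has_min (measure tot).wf {U | IsUnit U.det}
    ⟨1, by simp⟩
  have hU' : IsUnit U.det := hU
  have hrow : ∀ k, U k ≠ 0 := by
    intro k hk
    have : U.det = 0 := Matrix.det_eq_zero_of_row_eq_zero k fun j => congrFun hk j
    rw [this] at hU'
    exact not_isUnit_zero hU'
  have hrdeg : ∀ k, i ≤ rdeg (U * PhiM A m s) k := by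
    intro k
    obtain ⟨j, n, hn, hne⟩ := row_degree hA hs hNi (hrow k)
    have h1 : (U k ᵥ* PhiM A m s) j = (U * PhiM A m s) k j := rfl
    rw [h1] at hne
    exact (hn.trans (Polynomial.le_natDegree_of_ne_zero hne)).trans (le_rdeg _ k j)
  set M := U * PhiM A m s with hM
  let Λ : Fin r → ι → ℂ := fun k j => (M k j).coeff (rdeg M k)
  have hΛ : LinearIndependent ℂ Λ := by
    by_contra hdep
    obtain ⟨c, hc, k1, hk1⟩ := Fintype.not_linearIndependent_iff.1 hdep
    obtain ⟨k0, hk0, hmax⟩ := Finset.exists_max_image (Finset.univ.filter fun k => c k ≠ 0)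
      (fun k => rdeg M k) ⟨k1, by simp [hk1]⟩
    have hk0' : c k0 ≠ 0 := (Finset.mem_filter.1 hk0).2
    let w : Fin r → Polynomial ℂ := fun k =>
      Polynomial.C (c k) * Polynomial.X ^ (rdeg M k0 - rdeg M k)
    let U' := U.updateRow k0 (∑ k, w k • U k)
    have hdet : U'.det = w k0 • U.det := Matrix.det_updateRow_sum U k0 w
    have hU'unit : IsUnit U'.det := by
      rw [hdet, smul_eq_mul]
      refine IsUnit.mul ?_ hU'
      simp only [w, Nat.sub_self, pow_zero, mul_one]
      exact Polynomial.isUnit_C.2 (isUnit_iff_ne_zero.2 hk0')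
    have hrowk0 : ∀ j, (U' * PhiM A m s) k0 j = ∑ k, w k * M k j := by
      intro j
      rw [Matrix.mul_apply]
      simp only [U', Matrix.updateRow_self, Finset.sum_apply, Pi.smul_apply, smul_eq_mul,
        Finset.sum_mul]
      rw [Finset.sum_comm]
      refine Finset.sum_congr rfl fun k _ => ?_
      rw [hM, Matrix.mul_apply, Finset.mul_sum]
      refine Finset.sum_congr rfl fun l _ => ?_
      ring
    have hrowne : ∀ k, k ≠ k0 → rdeg (U' * PhiM A m s) k = rdeg M k := by
      intro k hk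
      simp only [rdeg]
      congr 1
      funext j
      rw [Matrix.mul_apply, hM, Matrix.mul_apply]
      simp only [U', Matrix.updateRow_ne hk]
    have hcoef : ∀ j n, rdeg M k0 ≤ n → ((U' * PhiM A m s) k0 j).coeff n = 0 := by
      intro j n hn
      rw [hrowk0, Polynomial.finsetSum_coeff]
      have h1 : ∀ k, (w k * M k j).coeff n = if n = rdeg M k0 then c k * Λ k j else 0 := by
        intro k
        by_cases hck : c k = 0
        · simp [w, hck]
        have hk : rdeg M k ≤ rdeg M k0 := hmax k (by simp [hck])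
        simp only [w]
        rw [mul_assoc, Polynomial.coeff_C_mul, Polynomial.coeff_X_pow_mul']
        rw [if_pos (by omega)]
        by_cases hn2 : n = rdeg M k0
        · rw [if_pos hn2, hn2, Nat.sub_sub_self hk]
        · rw [if_neg hn2, Polynomial.coeff_eq_zero_of_natDegree_lt, mul_zero]
          refine lt_of_le_of_lt (le_rdeg M k j) ?_
          omega
      rw [Finset.sum_congr rfl fun k _ => h1 k]
      by_cases hn2 : n = rdeg M k0
      · simp only [if_pos hn2]
        have := congrFun hc j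
        simpa [Finset.sum_apply] using this
      · simp only [if_neg hn2, Finset.sum_const_zero]
    have hlt : rdeg (U' * PhiM A m s) k0 < rdeg M k0 := by
      have h1 : rdeg (U' * PhiM A m s) k0 ≤ rdeg M k0 - 1 := by
        refine Finset.sup_le fun j _ => ?_
        rw [Polynomial.natDegree_le_iff_coeff_eq_zero]
        intro n hn
        exact hcoef j n (by have := hrdeg k0; omega)
      have := hrdeg k0
      omega
    refine hmin U' hU'unit ?_
    change tot U' < tot U
    refine Finset.sum_lt_sum (fun k _ => ?_) ⟨k0, Finset.mem_univ _, hlt⟩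
    by_cases hk : k = k0
    · rw [hk]; exact hlt.le
    · exact (hrowne k hk).le
  obtain ⟨l, hl⟩ := exists_dual Λ hΛ
  -- the Pluecker polynomial
  have hmat : (Matrix.of fun k j => ∑ x, M k x * Polynomial.C (l j x)) =
      U * (Matrix.of fun k j => phi A m (s k) (l j)) := by
    ext1 k j
    rw [Matrix.of_apply, Matrix.mul_apply]
    simp only [Matrix.of_apply, hM, Matrix.mul_apply, Finset.sum_mul]
    rw [Finset.sum_comm]
    refine Finset.sum_congr rfl fun k' _ => ?_
    rw [phi_vsum A m (s k') (l j), Finset.mul_sum]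
    refine Finset.sum_congr rfl fun x _ => ?_
    simp only [PhiM, Matrix.of_apply]
    ring
  obtain ⟨h1, h2⟩ := coeff_det_of_row (Matrix.of fun k j => ∑ x, M k x * Polynomial.C (l j x))
    (fun k => rdeg M k) (fun k j => by
      rw [Matrix.of_apply]
      refine Polynomial.natDegree_sum_le_of_forall_le _ _ fun x _ => ?_
      exact (Polynomial.natDegree_mul_C_le _ _).trans (le_rdeg M k x))
  have h3 : (Matrix.of fun k j => ((Matrix.of fun k j => ∑ x, M k x * Polynomial.C (l j x)) k j).coeff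
      (rdeg M k)) = (1 : Matrix (Fin r) (Fin r) ℂ) := by
    ext1 k j
    rw [Matrix.of_apply, Matrix.of_apply, Polynomial.finsetSum_coeff, Matrix.one_apply, ← hl k j]
    simp only [Polynomial.coeff_mul_C, dotProduct, Λ]
  rw [h3, Matrix.det_one, hmat, Matrix.det_mul] at h2
  obtain ⟨e, he, heU⟩ := Polynomial.isUnit_iff.1 hU'
  have h4 : (plu A m s l).coeff (∑ k, rdeg M k) ≠ 0 := by
    intro h0
    rw [← heU, Polynomial.coeff_C_mul] at h2
    rw [plu] at h0
    rw [h0, mul_zero] at h2
    exact zero_ne_one h2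
  refine ⟨l, ?_, fun h0 => h4 (by rw [h0, Polynomial.coeff_zero])⟩
  refine le_trans ?_ (Polynomial.le_natDegree_of_ne_zero h4)
  calc r * i = ∑ _k : Fin r, i := by simp
    _ ≤ ∑ k, rdeg M k := Finset.sum_le_sum fun k _ => hrdeg k

end Pool.Agent.H26.Uni
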