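import Pool.Agent.H26.Uni.LongB
import Pool.Agent.H26.Uni.LongC

/-!
# Comparison of the degrees at all levels
-/

open MvPolynomial Matrix H89.Hart

set_option autoImplicit false
set_option linter.unusedSectionVars false

namespace H12.Uni

open Pool.Agent.H26.Uni Pool.Agent.H25.Hart

variable {ι : Type*} [Fintype ι] [DecidableEq ι]
variable {I : Ideal (MvPolynomial ι ℂ)} {r : ℕ} {A : Matrix ι ι ℂ} {m : ℕ}

theorem level (U : UniSetup I r A m) {x : ι → ℂ} (hx : x ∈ cone I)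
    (hxm : A ^ m *ᵥ x ≠ 0) (s : Fin r → ι → ℂ) (hs : ∀ k, s k ∈ N I x)
    (hsli : LinearIndependent ℂ s) {j : ℕ} (hj3 : 3 ≤ j) (hjm : j ≤ m)
    (hC : rk A (j - 2) + rk A j + 2 * r ≤ Fintype.card ι) :
    ∃ D D' : ℕ, (∀ l', (plu A m s l').natDegree ≤ D) ∧
      (∃ l, (plu A m s l).natDegree = D ∧ plu A m s l ≠ 0) ∧ (j - 1) * D = m * D' ∧
      ∀ i, 1 ≤ i → rk A j + 2 * r ≤ rk A i → r * i ≤ D' := by
  have hI := U.smooth
  have hr2 := U.two_le
  have hNB : ∀ x ∈ cone I, ∀ s ∈ N I x, ∀ t : ℂ, orbB A m (-t) s ∈ N I (orb A m t x) :=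
    fun x hx s hs t => U.orbB_mem hx hs t
  have hxm1 : A ^ (m + 1) *ᵥ x = 0 := by rw [U.nil, Matrix.zero_mulVec]
  have hy : A ^ m *ᵥ x ∈ cone I := U.cl_cone hx hxm1
  obtain ⟨g, l, d, hg, hd, hli, hmat⟩ := exists_frame' hI hy hxm
  have hdet : (matAt g l (A ^ m *ᵥ x)).det ≠ 0 := by rw [hmat]; simp
  obtain ⟨D, hD1, hD2, hD3, hD4⟩ := trace_formula hI U.nil U.stab hNB g hg d hd l
    (by omega) le_rfl hxm hxm1 hy hdet hx s hs hsli
  -- the variety `F_j`
  have hkm := finrank_kerA A j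
  obtain ⟨P, hP, hPh, hIP, hPM, hPdim⟩ := exists_F hI U.dim_le (kerA A j) (by omega)
  have hPcone : ∀ z ∈ cone P, z ∈ cone I := fun z hz => cone_anti hIP hz
  -- a good point
  obtain ⟨h0, h0P, hh0⟩ := zm hI (by omega) U.nd hP hPh LinearMap.id
    (fun u hu => hPcone u hu) (imB A (j - 2)) (by
      refine wb_cancel hPdim ?_
      rw [LinearMap.ker_id, finrank_bot, finrank_imB]
      omega)
  obtain ⟨p, hpP, hph⟩ := exists_of_not_mem hP h0P
  obtain ⟨hp0, hpS⟩ := hh0 p hpP hph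
  simp only [LinearMap.id_coe, id_eq] at hp0 hpS
  obtain ⟨g', l', hg', -, hli', -⟩ := exists_frame hI (hPcone p hpP) hp0
  obtain ⟨D', ⟨l2, hl2⟩, hmax⟩ := exists_max (A := A) (m := m) g' hP hpP hli'
  refine ⟨D, D', hD1, ⟨l, hD2, hD3⟩, ?_, ?_⟩
  swap
  · -- the lower bound
    intro i hi1 hi
    obtain ⟨h1, h1P, hh1⟩ := zm hI (by omega) U.nd hP hPh LinearMap.id
      (fun u hu => hPcone u hu) (kerB A i) (by
        have := finrank_kerB A i
        refine wb_cancel hPdim ?_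
        rw [LinearMap.ker_id, finrank_bot]
        omega)
    obtain ⟨z, hz, hze⟩ := exists_of_not_mem hP (h := h1 * (cp A m g' l2).coeff D') (by
      intro hmem
      rcases hP.mem_or_mem hmem with h2 | h2
      · exact h1P h2
      · exact hl2 h2)
    rw [map_mul] at hze
    obtain ⟨hz0, hzS⟩ := hh1 z hz (left_ne_zero_of_mul hze)
    simp only [LinearMap.id_coe, id_eq] at hz0 hzS
    have hplu : plu A m (fun k => dif (g' k) z) l2 ≠ 0 := by
      intro h
      have := coeff_cp A m g' l2 z D'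
      rw [h, Polynomial.coeff_zero] at this
      exact right_ne_zero_of_mul hze this.symm
    obtain ⟨l3, hl3, hl30⟩ := degree_bound U.nil hi1 (li_of_plu hplu) (fun c hc => by
      refine hzS _ ?_ (mem_kerB.2 hc)
      exact Submodule.sum_mem _ fun k _ => Submodule.smul_mem _ _ (mem_N.2 ⟨g' k, hg' k, rfl⟩))
    refine hl3.trans ?_
    by_contra hcon
    push Not at hcon
    have h2 := hz _ (hmax _ l3 hcon)
    rw [← coeff_cp] at h2
    exact hl30 (Polynomial.leadingCoeff_eq_zero.1 h2)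
  -- the polynomial relation
  obtain ⟨k0, hk0⟩ : ∃ k, (A ^ m *ᵥ x) k ≠ 0 := by
    by_contra hc
    push Not at hc
    exact hxm (funext hc)
  let L1 : (ι → ℂ) →ₗ[ℂ] (ι → ℂ) := A.mulVecLin
  let G : MvPolynomial ι ℂ := pull L1 (mat g l).det *
    (C (D' : ℂ) * pull L1 (mat g l).det - C ((j - 1 : ℕ) : ℂ) *
      (C ((∑ i, d i : ℕ) : ℂ) * pull L1 (mat g l).det -
        ∑ i, X i * pull L1 (pderiv i (TT A g l)))) * pull L1 (X k0)
  have hG : ∀ v, eval v G = (matAt g l (A *ᵥ v)).det *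
      ((D' : ℂ) * (matAt g l (A *ᵥ v)).det - ((j - 1 : ℕ) : ℂ) *
        (((∑ i, d i : ℕ) : ℂ) * (matAt g l (A *ᵥ v)).det -
          dif (TT A g l) (A *ᵥ v) ⬝ᵥ v)) * (A *ᵥ v) k0 := by
    intro v
    simp only [G, map_mul, map_sub, map_sum, eval_C, eval_X, eval_pull, eval_det_mat, L1,
      Matrix.mulVecLin_apply, dotProduct, dif]
    congr 4
    congr 1
    refine Finset.sum_congr rfl fun i _ => ?_
    rw [mul_comm]
  have hrel : ∀ z ∈ cone P, eval z ((cp A m g' l2).coeff D') ≠ 0 →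
      eval (A ^ (j - 2) *ᵥ z) G = 0 := by
    intro z hz hzc
    have hzA : A *ᵥ (A ^ (j - 2) *ᵥ z) = A ^ (j - 1) *ᵥ z := by
      rw [Matrix.mulVec_mulVec, ← pow_succ', show j - 2 + 1 = j - 1 by omega]
    rw [hG, hzA]
    by_cases hz1 : A ^ (j - 1) *ᵥ z = 0
    · rw [hz1]; simp
    by_cases hz2 : (matAt g l (A ^ (j - 1) *ᵥ z)).det = 0
    · rw [hz2]; simp
    have hzm : A ^ (j - 1 + 1) *ᵥ z = 0 := by
      rw [show j - 1 + 1 = j by omega]
      exact mem_kerA.1 (hPM z hz)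
    have hzI := hPcone z hz
    have hplu : plu A m (fun k => dif (g' k) z) l2 ≠ 0 := by
      intro h
      have := coeff_cp A m g' l2 z D'
      rw [h, Polynomial.coeff_zero] at this
      exact hzc this.symm
    obtain ⟨D1, hD11, hD12, hD13, hD14⟩ := trace_formula hI U.nil U.stab hNB g hg d hd l
      (a := j - 1) (by omega) (by omega) hz1 hzm (U.cl_cone hzI hzm) hz2 hzI
      (fun k => dif (g' k) z) (fun k => mem_N.2 ⟨g' k, hg' k, rfl⟩) (li_of_plu hplu)
    have hDD : D1 = D' := by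
      apply le_antisymm
      · by_contra hcon
        push Not at hcon
        have h1 := hz _ (hmax D1 l hcon)
        rw [← coeff_cp] at h1
        rw [← hD12] at h1
        exact hD13 (Polynomial.leadingCoeff_eq_zero.1 h1)
      · refine le_trans ?_ (hD11 l2)
        apply Polynomial.le_natDegree_of_ne_zero
        rw [coeff_cp]
        exact hzc
    rw [hDD, show j - 1 - 1 = j - 2 by omega] at hD14
    rw [hD14, sub_self, mul_zero, zero_mul]
  -- `G ∘ A^(j-2)` vanishes on `F_j`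
  let L2 : (ι → ℂ) →ₗ[ℂ] (ι → ℂ) := (A ^ (j - 2)).mulVecLin
  have hGP : pull L2 G ∈ P := by
    have h1 : (cp A m g' l2).coeff D' * pull L2 G ∈ P := by
      apply mem_of_cone hP
      intro z hz
      rw [map_mul, eval_pull]
      by_cases h2 : eval z ((cp A m g' l2).coeff D') = 0
      · rw [h2, zero_mul]
      · have := hrel z hz h2
        rw [show L2 z = A ^ (j - 2) *ᵥ z from rfl, this, mul_zero]
    exact (hP.mem_or_mem h1).resolve_left hl2
  have hdom := dom hI hP hIP (kerA A j) hPM hPdim L2 hpP hp0 (by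
    intro s hs hsv
    refine hpS s hs ?_
    rw [mem_imB_iff]
    intro v hv
    refine hsv v ?_ hv
    rw [mem_kerA, show j = 2 + (j - 2) by omega, pow_add, ← Matrix.mulVec_mulVec, hv,
      Matrix.mulVec_zero]) (g := G) (fun z hz => by
      have := hz _ hGP
      rwa [eval_pull] at this)
  have hAx : A ^ (m + 1 - j) *ᵥ x ∈ kerA A j := by
    rw [mem_kerA, Matrix.mulVec_mulVec, ← pow_add, show j + (m + 1 - j) = m + 1 by omega]
    exact hxm1
  have hfin := hdom _ hAx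
  have e1 : L2 (A ^ (m + 1 - j) *ᵥ x) = A ^ (m - 1) *ᵥ x := by
    change A ^ (j - 2) *ᵥ (A ^ (m + 1 - j) *ᵥ x) = _
    rw [Matrix.mulVec_mulVec, ← pow_add, show j - 2 + (m + 1 - j) = m - 1 by omega]
  have e2 : A *ᵥ (A ^ (m - 1) *ᵥ x) = A ^ m *ᵥ x := by
    rw [Matrix.mulVec_mulVec, ← pow_succ', show m - 1 + 1 = m by omega]
  rw [e1, hG, e2] at hfin
  have h2 := (mul_eq_zero.1 hfin).resolve_right hk0
  have h3 := (mul_eq_zero.1 h2).resolve_left hdet
  have h4 : ((((j - 1 : ℕ) : ℂ) * (D : ℂ)) - (m : ℂ) * (D' : ℂ)) *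
      (matAt g l (A ^ m *ᵥ x)).det = 0 := by
    linear_combination ((j - 1 : ℕ) : ℂ) * hD4 - (m : ℂ) * h3
  have h5 := (mul_eq_zero.1 h4).resolve_right hdet
  have h6 : (((j - 1) * D : ℕ) : ℂ) = ((m * D' : ℕ) : ℂ) := by
    rw [Nat.cast_mul, Nat.cast_mul]
    exact sub_eq_zero.1 h5
  exact_mod_cast h6

/-- `(star)` follows from a Pluecker polynomial of the maximal degree. -/
theorem star_of_degree (hI : Smooth I r) {x : ι → ℂ} (hx : x ∈ cone I) (hx0 : x ≠ 0)
    (s l : Fin r → ι → ℂ) (hs : ∀ k, s k ∈ N I x) (hsli : LinearIndependent ℂ s)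
    (hdeg : (plu A m s l).natDegree = r * m) (hne : plu A m s l ≠ 0) : Star I A m := by
  have htop := (natDegree_plu A m s l).2
  have htop0 : (plu A m s l).coeff (r * m) ≠ 0 := by
    rw [← hdeg]
    exact Polynomial.leadingCoeff_ne_zero.2 hne
  rw [htop] at htop0
  refine ⟨x, hx, hx0, fun t ht htm => ?_⟩
  have hspan : Submodule.span ℂ (Set.range s) = N I x := by
    apply Submodule.eq_of_le_of_finrank_eq
    · rw [Submodule.span_le]
      rintro _ ⟨k, rfl⟩
      exact hs k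
    · rw [finrank_span_eq_card hsli, hI.rank x hx hx0, Fintype.card_fin]
  obtain ⟨c, hc⟩ : ∃ c : Fin r → ℂ, ∑ k, c k • s k = t :=
    (Submodule.mem_span_range_iff_exists_fun ℂ).1 (by rw [hspan]; exact ht)
  have hvec : Matrix.vecMul c (Matrix.of fun k j => (phi A m (s k) (l j)).coeff m) = 0 := by
    funext j
    have h1 := congrArg (fun P => Polynomial.coeff P m) (phi_sum A m c s (l j))
    simp only [Polynomial.finsetSum_coeff, Polynomial.coeff_smul, smul_eq_mul] at h1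
    rw [hc, coeff_phi, if_pos le_rfl, Matrix.dotProduct_mulVec, htm, zero_dotProduct] at h1
    simp only [Matrix.vecMul, dotProduct, Matrix.of_apply, Pi.zero_apply]
    rw [← h1]
    simp
  have hc0 := Matrix.eq_zero_of_vecMul_eq_zero htop0 hvec
  rw [← hc, hc0]
  simp

/-- `(star)` holds if some `b_(j-1) ≥ 2 r`, `j ≥ 3`. -/
theorem UniSetup.star_of_level (U : UniSetup I r A m) {j : ℕ} (hj3 : 3 ≤ j) (hjm : j ≤ m)
    (hC : rk A (j - 2) + rk A j + 2 * r ≤ Fintype.card ι)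
    (hb : rk A j + 2 * r ≤ rk A (j - 1)) : Star I A m := by
  obtain ⟨x, hx, hxm⟩ := U.exists_pow_ne
  have hx0 : x ≠ 0 := by
    rintro rfl
    exact hxm (Matrix.mulVec_zero _)
  let b : Module.Basis (Fin r) ℂ (N I x) := Module.finBasisOfFinrankEq ℂ _ (U.smooth.rank x hx hx0)
  let s : Fin r → ι → ℂ := fun k => b k
  have hsli : LinearIndependent ℂ s := b.linearIndependent.map' (N I x).subtype
    (N I x).ker_subtype
  obtain ⟨D, D', hD1, ⟨l, hl1, hl2⟩, hD2, hD3⟩ :=
    level U hx hxm s (fun k => (b k).2) hsli hj3 hjm hC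
  have h1 := hD3 (j - 1) (by omega) hb
  have h2 : r * m ≤ D := by
    have h3 : m * (r * (j - 1)) ≤ (j - 1) * D := by
      rw [hD2]; exact Nat.mul_le_mul_left m h1
    have h4 : (j - 1) * (r * m) ≤ (j - 1) * D := by
      calc (j - 1) * (r * m) = m * (r * (j - 1)) := by ring
        _ ≤ (j - 1) * D := h3
    exact Nat.le_of_mul_le_mul_left h4 (by omega)
  refine star_of_degree U.smooth hx hx0 s l (fun k => (b k).2) hsli ?_ hl2
  apply le_antisymm (natDegree_plu A m s l).1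
  rw [hl1]
  exact h2

end H12.Uni
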