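import Pool.Agent.H12.Uni.Defs
import Pool.Agent.H26.Uni.Det
import Pool.Agent.H26.Uni.Curve

/-!
# The trace formula (5a)

The degree in `t` of the Pluecker vector of the conormal spaces along the orbit of `p` is
expressed through first order data at the limit point.
-/

open MvPolynomial Matrix H89.Hart H12.Uni

set_option autoImplicit false
set_option linter.unusedSectionVars false

namespace Pool.Agent.H26.Uni

variable {ι : Type*} [Fintype ι] [DecidableEq ι]

/-- the orbit of `p` as a polynomial curve. -/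
noncomputable def crv (A : Matrix ι ι ℂ) (m : ℕ) (p : ι → ℂ) : ι → Polynomial ℂ := fun k =>
  ∑ i ∈ Finset.range (m + 1), Polynomial.C ((A ^ i *ᵥ p) k / (i.factorial : ℂ)) * Polynomial.X ^ i

theorem eval_crv (A : Matrix ι ι ℂ) (m : ℕ) (p : ι → ℂ) (k : ι) (t : ℂ) :
    (crv A m p k).eval t = orb A m t p k := by
  simp only [crv, orb, Polynomial.eval_finsetSum, Finset.sum_apply, Pi.smul_apply, smul_eq_mul,
    Polynomial.eval_mul, Polynomial.eval_C, Polynomial.eval_pow, Polynomial.eval_X]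
  refine Finset.sum_congr rfl fun i _ => ?_
  ring

theorem coeff_crv (A : Matrix ι ι ℂ) (m : ℕ) (p : ι → ℂ) (k : ι) (j : ℕ) :
    (crv A m p k).coeff j = if j ≤ m then (A ^ j *ᵥ p) k / (j.factorial : ℂ) else 0 := by
  simp only [crv, Polynomial.finsetSum_coeff, Polynomial.coeff_C_mul, Polynomial.coeff_X_pow,
    mul_ite, mul_one, mul_zero]
  by_cases h : j ≤ m
  · rw [if_pos h, Finset.sum_eq_single j]
    · simp
    · intro b _ hb
      rw [if_neg (Ne.symm hb)]
    · intro hn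
      exact absurd (Finset.mem_range.2 (Nat.lt_succ_of_le h)) hn
  · rw [if_neg h]
    refine Finset.sum_eq_zero fun b hb => ?_
    rw [if_neg]
    have := Finset.mem_range.1 hb
    omega

theorem pow_mulVec_zero {A : Matrix ι ι ℂ} {p : ι → ℂ} {a : ℕ} (h : A ^ a *ᵥ p = 0) {j : ℕ}
    (hj : a ≤ j) : A ^ j *ᵥ p = 0 := by
  obtain ⟨c, rfl⟩ := Nat.exists_eq_add_of_le' hj
  rw [pow_add, ← Matrix.mulVec_mulVec, h, Matrix.mulVec_zero]

theorem natDegree_crv {A : Matrix ι ι ℂ} {m : ℕ} {p : ι → ℂ} {a : ℕ}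
    (h : A ^ (a + 1) *ᵥ p = 0) (k : ι) : (crv A m p k).natDegree ≤ a := by
  rw [Polynomial.natDegree_le_iff_coeff_eq_zero]
  intro j hj
  rw [coeff_crv]
  split_ifs
  · rw [pow_mulVec_zero h hj]; simp
  · rfl

theorem natDegree_crv_le (A : Matrix ι ι ℂ) (m : ℕ) (p : ι → ℂ) (k : ι) :
    (crv A m p k).natDegree ≤ m := by
  rw [Polynomial.natDegree_le_iff_coeff_eq_zero]
  intro j hj
  rw [coeff_crv, if_neg (by omega)]

theorem derivative_crv {A : Matrix ι ι ℂ} {m : ℕ} (hA : A ^ (m + 1) = 0) (p : ι → ℂ) (k : ι) :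
    (crv A m p k).derivative = ∑ j, Polynomial.C (A k j) * crv A m p j := by
  ext n
  rw [Polynomial.coeff_derivative, coeff_crv, Polynomial.finsetSum_coeff]
  simp only [Polynomial.coeff_C_mul, coeff_crv]
  have h1 : (A ^ (n + 1) *ᵥ p) k = ∑ j, A k j * (A ^ n *ᵥ p) j := by
    rw [pow_succ', ← Matrix.mulVec_mulVec]
    rfl
  have h3 : ((n + 1).factorial : ℂ) = (n + 1) * (n.factorial : ℂ) := by
    rw [Nat.factorial_succ]; push_cast; ring
  have h4 : (n : ℂ) + 1 ≠ 0 := Nat.cast_add_one_ne_zero n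
  have h5 : (n.factorial : ℂ) ≠ 0 := Nat.cast_ne_zero.2 (Nat.factorial_ne_zero n)
  by_cases hn : n + 1 ≤ m
  · rw [if_pos hn]
    have h2 : n ≤ m := by omega
    simp only [if_pos h2]
    rw [h1, h3, Finset.sum_div, Finset.sum_mul]
    refine Finset.sum_congr rfl fun j _ => ?_
    field_simp
  · rw [if_neg hn, zero_mul]
    by_cases h2 : n ≤ m
    · have hnm : n = m := by omega
      simp only [if_pos h2]
      subst hnm
      rw [hA] at h1
      simp only [Matrix.zero_mulVec, Pi.zero_apply] at h1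
      have : ∑ x, A k x * ((A ^ n *ᵥ p) x / (n.factorial : ℂ)) =
          (∑ x, A k x * (A ^ n *ᵥ p) x) / (n.factorial : ℂ) := by
        rw [Finset.sum_div]
        refine Finset.sum_congr rfl fun j _ => ?_
        ring
      rw [this, ← h1, zero_div]
    · simp only [if_neg h2, mul_zero, Finset.sum_const_zero]

/-- the derivative of `f` along the linear vector field `A`. -/
noncomputable def DA (A : Matrix ι ι ℂ) (f : MvPolynomial ι ℂ) : MvPolynomial ι ℂ :=
  ∑ j, (∑ l, C (A j l) * X l) * pderiv j f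

theorem eval_DA (A : Matrix ι ι ℂ) (f : MvPolynomial ι ℂ) (x : ι → ℂ) :
    eval x (DA A f) = dif f x ⬝ᵥ (A *ᵥ x) := by
  simp only [DA, map_sum, map_mul, eval_C, eval_X, dotProduct, dif, mulVec]
  refine Finset.sum_congr rfl fun j _ => ?_
  rw [mul_comm]

theorem pderiv_comm (i j : ι) (f : MvPolynomial ι ℂ) :
    pderiv i (pderiv j f) = pderiv j (pderiv i f) := by
  by_cases hij : i = j
  · rw [hij]
  ext m
  rw [coeff_pderiv, coeff_pderiv, coeff_pderiv, coeff_pderiv]
  have h1 : (m + Finsupp.single i 1 : ι →₀ ℕ) j = m j := by simp [hij]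
  have h2 : (m + Finsupp.single j 1 : ι →₀ ℕ) i = m i := by
    simp [Ne.symm hij]
  rw [h1, h2, add_right_comm m]
  ring

theorem pderiv_DA (A : Matrix ι ι ℂ) (f : MvPolynomial ι ℂ) (κ : ι) :
    pderiv κ (DA A f) = ∑ j, (∑ l, C (A j l) * X l) * pderiv j (pderiv κ f) +
      ∑ j, C (A j κ) * pderiv j f := by
  rw [DA, map_sum, ← Finset.sum_add_distrib]
  refine Finset.sum_congr rfl fun j _ => ?_
  rw [Derivation.leibniz, smul_eq_mul, smul_eq_mul, map_sum]
  rw [pderiv_comm κ j f]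
  congr 1
  have h2 : ∑ x, pderiv κ (C (A j x) * X x : MvPolynomial ι ℂ) = C (A j κ) := by
    rw [Finset.sum_eq_single κ]
    · simp
    · intro b _ hb
      rw [pderiv_C_mul, pderiv_X_of_ne hb]
      simp
    · intro h; exact absurd (Finset.mem_univ _) h
  rw [h2, mul_comm]

theorem DA_homog (A : Matrix ι ι ℂ) {f : MvPolynomial ι ℂ} {d : ℕ} (hf : f.IsHomogeneous (d + 1)) :
    (DA A f).IsHomogeneous (d + 1) := by
  rw [DA]
  refine IsHomogeneous.sum _ _ _ fun j _ => ?_
  rw [add_comm d 1]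
  refine IsHomogeneous.mul ?_ ?_
  · refine IsHomogeneous.sum _ _ _ fun l _ => ?_
    simpa using (isHomogeneous_C ι (A j l)).mul (isHomogeneous_X ℂ l)
  · simpa using hf.pderiv (i := j)

/-- the pairing polynomial `s(exp(-tA)v)`. -/
noncomputable def phi (A : Matrix ι ι ℂ) (m : ℕ) (s v : ι → ℂ) : Polynomial ℂ :=
  ∑ i ∈ Finset.range (m + 1),
    Polynomial.C ((-1) ^ i * (s ⬝ᵥ (A ^ i *ᵥ v)) / (i.factorial : ℂ)) * Polynomial.X ^ i

theorem eval_phi (A : Matrix ι ι ℂ) (m : ℕ) (s v : ι → ℂ) (t : ℂ) :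
    (phi A m s v).eval t = s ⬝ᵥ orb A m (-t) v := by
  simp only [phi, orb, Polynomial.eval_finsetSum, Polynomial.eval_mul, Polynomial.eval_C,
    Polynomial.eval_pow, Polynomial.eval_X, dotProduct_sum, dotProduct_smul, smul_eq_mul]
  refine Finset.sum_congr rfl fun i _ => ?_
  rw [neg_pow t i]
  ring

theorem coeff_phi (A : Matrix ι ι ℂ) (m : ℕ) (s v : ι → ℂ) (j : ℕ) :
    (phi A m s v).coeff j =
      if j ≤ m then (-1) ^ j * (s ⬝ᵥ (A ^ j *ᵥ v)) / (j.factorial : ℂ) else 0 := by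
  simp only [phi, Polynomial.finsetSum_coeff, Polynomial.coeff_C_mul, Polynomial.coeff_X_pow,
    mul_ite, mul_one, mul_zero]
  by_cases h : j ≤ m
  · rw [if_pos h, Finset.sum_eq_single j]
    · simp
    · intro b _ hb
      rw [if_neg (Ne.symm hb)]
    · intro hn
      exact absurd (Finset.mem_range.2 (Nat.lt_succ_of_le h)) hn
  · rw [if_neg h]
    refine Finset.sum_eq_zero fun b hb => ?_
    rw [if_neg]
    have := Finset.mem_range.1 hb
    omega

/-- the Pluecker polynomial of the vectors `s` in the directions `l`. -/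
noncomputable def plu (A : Matrix ι ι ℂ) (m : ℕ) {r : ℕ} (s l : Fin r → ι → ℂ) : Polynomial ℂ :=
  (Matrix.of fun k j => phi A m (s k) (l j)).det

/-- the matrix of the connection. -/
noncomputable def MM (A : Matrix ι ι ℂ) {r : ℕ} (g : Fin r → MvPolynomial ι ℂ)
    (l : Fin r → ι → ℂ) : Matrix (Fin r) (Fin r) (MvPolynomial ι ℂ) :=
  Matrix.of fun i i' => ∑ j, dd (l j) (DA A (g i)) * (mat g l).adjugate j i'

/-- its trace. -/
noncomputable def TT (A : Matrix ι ι ℂ) {r : ℕ} (g : Fin r → MvPolynomial ι ℂ)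
    (l : Fin r → ι → ℂ) : MvPolynomial ι ℂ := (MM A g l).trace

theorem eval_TT (A : Matrix ι ι ℂ) {r : ℕ} (g : Fin r → MvPolynomial ι ℂ)
    (l : Fin r → ι → ℂ) (x : ι → ℂ) : eval x (TT A g l) =
      ∑ i, ∑ j, (dif (DA A (g i)) x ⬝ᵥ l j) * (matAt g l x).adjugate j i := by
  simp only [TT, MM, Matrix.trace, Matrix.diag, Matrix.of_apply, map_sum, map_mul, eval_dd,
    eval_adj_mat]

/-- the transport matrix. -/
noncomputable def Hm (A : Matrix ι ι ℂ) (m : ℕ) {r : ℕ} (g : Fin r → MvPolynomial ι ℂ)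
    (p : ι → ℂ) (e : Fin r → ι → ℂ) : Matrix (Fin r) (Fin r) (Polynomial ℂ) :=
  Matrix.of fun i k => ∑ κ, along (crv A m p) (pderiv κ (g i)) * crv A m (e k) κ

theorem eval_Hm (A : Matrix ι ι ℂ) (m : ℕ) {r : ℕ} (g : Fin r → MvPolynomial ι ℂ)
    (p : ι → ℂ) (e : Fin r → ι → ℂ) (i k : Fin r) (t : ℂ) :
    (Hm A m g p e i k).eval t = dif (g i) (orb A m t p) ⬝ᵥ orb A m t (e k) := by
  have h1 : (fun k => (crv A m p k).eval t) = orb A m t p := funext fun k => eval_crv A m p k t
  simp only [Hm, Matrix.of_apply, Polynomial.eval_finsetSum, Polynomial.eval_mul, eval_along,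
    eval_crv, dotProduct, dif]

theorem derivative_Hm {A : Matrix ι ι ℂ} {m : ℕ} (hA : A ^ (m + 1) = 0) {r : ℕ}
    (g : Fin r → MvPolynomial ι ℂ) (p : ι → ℂ) (e : Fin r → ι → ℂ) (i k : Fin r) :
    (Hm A m g p e i k).derivative =
      ∑ κ, along (crv A m p) (pderiv κ (DA A (g i))) * crv A m (e k) κ := by
  simp only [Hm, Matrix.of_apply, Polynomial.derivative_sum, Polynomial.derivative_mul,
    derivative_along, derivative_crv hA, Finset.sum_add_distrib, pderiv_DA, map_add, add_mul]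
  congr 1
  · refine Finset.sum_congr rfl fun κ _ => ?_
    congr 1
    rw [map_sum]
    refine Finset.sum_congr rfl fun j _ => ?_
    rw [map_mul, map_sum, mul_comm]
    congr 1
    refine Finset.sum_congr rfl fun l _ => ?_
    rw [map_mul, along_C, along_X]
  · simp only [map_sum, map_mul, along_C, Finset.mul_sum, Finset.sum_mul]
    rw [Finset.sum_comm]
    refine Finset.sum_congr rfl fun κ _ => Finset.sum_congr rfl fun j _ => ?_
    ring

end Pool.Agent.H26.Uni
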