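import Pool.Agent.H26.Uni.Trace

/-! # The trace formula (5a): proof -/

open MvPolynomial Matrix H89.Hart H12.Uni

set_option autoImplicit false
set_option linter.unusedSectionVars false

namespace Pool.Agent.H26.Uni

variable {ι : Type*} [Fintype ι] [DecidableEq ι]

theorem orb_zero (A : Matrix ι ι ℂ) (m : ℕ) (x : ι → ℂ) : orb A m 0 x = x := by
  rw [orb, Finset.sum_eq_single 0]
  · simp
  · intro b _ hb
    simp [hb]
  · intro h
    exact absurd (Finset.mem_range.2 (Nat.succ_pos m)) h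

theorem along_crv_eq_zero {I : Ideal (MvPolynomial ι ℂ)} {A : Matrix ι ι ℂ} {m : ℕ}
    (hst : ∀ x ∈ cone I, ∀ t : ℂ, orb A m t x ∈ cone I) {f : MvPolynomial ι ℂ} (hf : f ∈ I)
    {x : ι → ℂ} (hx : x ∈ cone I) : along (crv A m x) f = 0 := by
  apply Polynomial.funext
  intro t
  have h1 : (fun k => (crv A m x k).eval t) = orb A m t x := funext fun k => eval_crv A m x k t
  rw [eval_along, h1, Polynomial.eval_zero]
  exact hst x hx t f hf

theorem DA_mem {I : Ideal (MvPolynomial ι ℂ)} (hI : I.IsPrime) {A : Matrix ι ι ℂ} {m : ℕ}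
    (hA : A ^ (m + 1) = 0)
    (hst : ∀ x ∈ cone I, ∀ t : ℂ, orb A m t x ∈ cone I) {f : MvPolynomial ι ℂ} (hf : f ∈ I) :
    DA A f ∈ I := by
  apply mem_of_cone hI
  intro x hx
  have h := congrArg (fun q => (Polynomial.derivative q).eval 0) (along_crv_eq_zero hst hf hx)
  simp only [Polynomial.derivative_zero, Polynomial.eval_zero] at h
  rw [derivative_along, Polynomial.eval_finsetSum] at h
  rw [eval_DA, ← h, dotProduct]
  refine Finset.sum_congr rfl fun i _ => ?_
  have h1 : (fun k => (crv A m x k).eval 0) = x := by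
    funext k
    rw [eval_crv, orb_zero]
  rw [Polynomial.eval_mul, eval_along, h1, derivative_crv hA, Polynomial.eval_finsetSum]
  congr 1
  simp only [Polynomial.eval_mul, Polynomial.eval_C, eval_crv, orb_zero, mulVec, dotProduct]

theorem ode {I : Ideal (MvPolynomial ι ℂ)} {r : ℕ} (hI : Smooth I r) {A : Matrix ι ι ℂ} {m : ℕ}
    (hA : A ^ (m + 1) = 0) (hst : ∀ x ∈ cone I, ∀ t : ℂ, orb A m t x ∈ cone I)
    (g : Fin r → MvPolynomial ι ℂ) (hg : ∀ i, g i ∈ I) (l : Fin r → ι → ℂ) {y : ι → ℂ}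
    (hy : y ∈ cone I) (hy0 : y ≠ 0) (hdet : (matAt g l y).det ≠ 0) {p : ι → ℂ}
    (hp : p ∈ cone I) (e : Fin r → ι → ℂ) (i k : Fin r) :
    along (crv A m p) (mat g l).det * (Hm A m g p e i k).derivative =
      ∑ i', along (crv A m p) (MM A g l i i') * Hm A m g p e i' k := by
  rw [derivative_Hm hA]
  apply Polynomial.funext
  intro t
  have h1 : (fun k => (crv A m p k).eval t) = orb A m t p := funext fun k => eval_crv A m p k t
  have h2 := frame_id hI g hg l hy hy0 hdet (hst p hp t)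
    (mem_N.2 ⟨DA A (g i), DA_mem hI.prime hA hst (hg i), rfl⟩)
  have h3 := congrArg (fun v => v ⬝ᵥ orb A m t (e k)) h2
  simp only [smul_dotProduct, sum_dotProduct, smul_eq_mul] at h3
  simp only [Polynomial.eval_mul, Polynomial.eval_finsetSum, eval_along, h1, eval_Hm, eval_crv,
    eval_det_mat]
  rw [show (∑ x, eval (orb A m t p) (pderiv x (DA A (g i))) * orb A m t (e k) x) =
    dif (DA A (g i)) (orb A m t p) ⬝ᵥ orb A m t (e k) from rfl, h3]
  refine Finset.sum_congr rfl fun i' _ => ?_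
  congr 1
  simp only [MM, Matrix.of_apply, map_sum, map_mul, eval_dd, eval_adj_mat]

/-- the differential equation for the determinant. -/
theorem ode_det {I : Ideal (MvPolynomial ι ℂ)} {r : ℕ} (hI : Smooth I r) {A : Matrix ι ι ℂ} {m : ℕ}
    (hA : A ^ (m + 1) = 0) (hst : ∀ x ∈ cone I, ∀ t : ℂ, orb A m t x ∈ cone I)
    (g : Fin r → MvPolynomial ι ℂ) (hg : ∀ i, g i ∈ I) (l : Fin r → ι → ℂ) {y : ι → ℂ}
    (hy : y ∈ cone I) (hy0 : y ≠ 0) (hdet : (matAt g l y).det ≠ 0) {p : ι → ℂ}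
    (hp : p ∈ cone I) (e : Fin r → ι → ℂ) :
    along (crv A m p) (mat g l).det * (Hm A m g p e).det.derivative =
      along (crv A m p) (TT A g l) * (Hm A m g p e).det := by
  have h := trace_ode (along (crv A m p) (mat g l).det) (Hm A m g p e)
    ((MM A g l).map (along (crv A m p))) (fun i k => by
      rw [ode hI hA hst g hg l hy hy0 hdet hp e i k]
      rfl)
  rw [h, TT]
  congr 1
  simp [Matrix.trace, map_sum]

theorem orbB_dot (A : Matrix ι ι ℂ) (m : ℕ) (t : ℂ) (s v : ι → ℂ) :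
    orbB A m t s ⬝ᵥ v = s ⬝ᵥ orb A m t v := by
  simp only [orbB, orb, sum_dotProduct, dotProduct_sum, smul_dotProduct, dotProduct_smul]
  refine Finset.sum_congr rfl fun i _ => ?_
  rw [← Matrix.dotProduct_mulVec]

theorem orb_eq_exp {A : Matrix ι ι ℂ} {m : ℕ} (hA : A ^ (m + 1) = 0) (t : ℂ) (x : ι → ℂ) :
    orb A m t x = IsNilpotent.exp (t • A) *ᵥ x := by
  have h : (t • A) ^ (m + 1) = 0 := by rw [smul_pow, hA, smul_zero]
  rw [IsNilpotent.exp_eq_sum h, Matrix.sum_mulVec, orb]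
  refine Finset.sum_congr rfl fun i _ => ?_
  rw [smul_pow]
  have : ((i.factorial : ℚ)⁻¹ • t ^ i • A ^ i) = (t ^ i / (i.factorial : ℂ)) • A ^ i := by
    ext a b
    simp only [Matrix.smul_apply, smul_eq_mul, Rat.smul_def]
    push_cast
    ring
  rw [this, Matrix.smul_mulVec]

theorem orb_neg_orb {A : Matrix ι ι ℂ} {m : ℕ} (hA : A ^ (m + 1) = 0) (t : ℂ) (x : ι → ℂ) :
    orb A m (-t) (orb A m t x) = x := by
  have h : IsNilpotent (t • A) := ⟨m + 1, by rw [smul_pow, hA, smul_zero]⟩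
  rw [orb_eq_exp hA, orb_eq_exp hA, Matrix.mulVec_mulVec, neg_smul,
    IsNilpotent.exp_neg_mul_exp_self h, Matrix.one_mulVec]

/-- transport of the conormal vectors. -/
theorem transport {I : Ideal (MvPolynomial ι ℂ)} {r : ℕ} (hI : Smooth I r) {A : Matrix ι ι ℂ}
    {m : ℕ} (hA : A ^ (m + 1) = 0) (hst : ∀ x ∈ cone I, ∀ t : ℂ, orb A m t x ∈ cone I)
    (hNB : ∀ x ∈ cone I, ∀ s ∈ N I x, ∀ t : ℂ, orbB A m (-t) s ∈ N I (orb A m t x))
    (g : Fin r → MvPolynomial ι ℂ) (hg : ∀ i, g i ∈ I) {p : ι → ℂ} (hp : p ∈ cone I)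
    (hp0 : p ≠ 0) (s e : Fin r → ι → ℂ) (hs : ∀ k, s k ∈ N I p)
    (hse : ∀ i j, s i ⬝ᵥ e j = if i = j then 1 else 0) (v : ι → ℂ) (i : Fin r) (t : ℂ) :
    dif (g i) (orb A m t p) ⬝ᵥ v = ∑ k, (Hm A m g p e i k).eval t * (phi A m (s k) v).eval t := by
  -- `w = exp(tB) dg_i`
  obtain ⟨w, hw⟩ : ∃ w, w = orbB A m t (dif (g i) (orb A m t p)) := ⟨_, rfl⟩
  have hwN : w ∈ N I p := by
    have := hNB _ (hst p hp t) _ (mem_N.2 ⟨g i, hg i, rfl⟩) (-t)
    rw [neg_neg, orb_neg_orb hA] at this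
    rwa [hw]
  have hspan : Submodule.span ℂ (Set.range s) = N I p := by
    apply Submodule.eq_of_le_of_finrank_eq
    · rw [Submodule.span_le]
      rintro _ ⟨k, rfl⟩
      exact hs k
    · have hli : LinearIndependent ℂ s := by
        rw [Fintype.linearIndependent_iff]
        intro c hc j
        have h1 := congrArg (fun v => v ⬝ᵥ e j) hc
        simp only [sum_dotProduct, smul_dotProduct, hse, zero_dotProduct, smul_eq_mul, mul_ite,
          mul_one, mul_zero, Finset.sum_ite_eq', Finset.mem_univ, if_true] at h1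
        exact h1
      rw [finrank_span_eq_card hli, hI.rank p hp hp0, Fintype.card_fin]
  obtain ⟨c, hc⟩ : ∃ c : Fin r → ℂ, ∑ k, c k • s k = w :=
    (Submodule.mem_span_range_iff_exists_fun ℂ).1 (by rw [hspan]; exact hwN)
  have hck : ∀ k, c k = w ⬝ᵥ e k := by
    intro k
    rw [← hc]
    simp only [sum_dotProduct, smul_dotProduct, hse, smul_eq_mul, mul_ite, mul_one, mul_zero,
      Finset.sum_ite_eq', Finset.mem_univ, if_true]
  have h1 : dif (g i) (orb A m t p) ⬝ᵥ v = w ⬝ᵥ orb A m (-t) v := by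
    rw [hw, orbB_dot]
    have := orb_neg_orb hA (-t) v
    rw [neg_neg] at this
    rw [this]
  rw [h1, ← hc, sum_dotProduct]
  refine Finset.sum_congr rfl fun k _ => ?_
  rw [smul_dotProduct, smul_eq_mul, eval_phi, eval_Hm, hck, hw, orbB_dot]

/-- the determinant identity. -/
theorem det_transport {I : Ideal (MvPolynomial ι ℂ)} {r : ℕ} (hI : Smooth I r)
    {A : Matrix ι ι ℂ}
    {m : ℕ} (hA : A ^ (m + 1) = 0) (hst : ∀ x ∈ cone I, ∀ t : ℂ, orb A m t x ∈ cone I)
    (hNB : ∀ x ∈ cone I, ∀ s ∈ N I x, ∀ t : ℂ, orbB A m (-t) s ∈ N I (orb A m t x))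
    (g : Fin r → MvPolynomial ι ℂ) (hg : ∀ i, g i ∈ I) {p : ι → ℂ} (hp : p ∈ cone I)
    (hp0 : p ≠ 0) (s e : Fin r → ι → ℂ) (hs : ∀ k, s k ∈ N I p)
    (hse : ∀ i j, s i ⬝ᵥ e j = if i = j then 1 else 0) (l' : Fin r → ι → ℂ) :
    along (crv A m p) (mat g l').det = (Hm A m g p e).det * plu A m s l' := by
  rw [plu, ← Matrix.det_mul]
  apply Polynomial.funext
  intro t
  have h1 : (fun k => (crv A m p k).eval t) = orb A m t p := funext fun k => eval_crv A m p k t
  rw [eval_along, h1, eval_det_mat]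
  have h2 : ∀ M : Matrix (Fin r) (Fin r) (Polynomial ℂ), M.det.eval t =
      (M.map (Polynomial.eval t)).det := by
    intro M
    have := RingHom.map_det (Polynomial.evalRingHom t) M
    simpa using this
  rw [h2]
  congr 1
  ext i j
  rw [Matrix.map_apply, Matrix.mul_apply, Polynomial.eval_finsetSum]
  simp only [Polynomial.eval_mul, Matrix.of_apply, matAt]
  exact transport hI hA hst hNB g hg hp hp0 s e hs hse (l' j) i t

end Pool.Agent.H26.Uni
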