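import Pool.Agent.H26.Uni.Trace2

/-! # The trace formula (5a): conclusion -/

open MvPolynomial Matrix H89.Hart H12.Uni

set_option autoImplicit false
set_option linter.unusedSectionVars false

namespace Pool.Agent.H26.Uni

variable {ι : Type*} [Fintype ι] [DecidableEq ι]

theorem det_homog {r : ℕ} (M : Matrix (Fin r) (Fin r) (MvPolynomial ι ℂ)) (d : Fin r → ℕ)
    (h : ∀ i j, (M i j).IsHomogeneous (d i)) : M.det.IsHomogeneous (∑ i, d i) := by
  rw [Matrix.det_apply]
  refine IsHomogeneous.sum _ _ _ fun σ _ => ?_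
  have h1 : (∏ i, M (σ i) i).IsHomogeneous (∑ i, d i) := by
    have := IsHomogeneous.prod Finset.univ (fun i => M (σ i) i) (fun i => d (σ i))
      (fun i _ => h _ _)
    rwa [Equiv.sum_comp σ d] at this
  rcases Int.units_eq_one_or (Equiv.Perm.sign σ) with hs | hs <;> rw [hs]
  · simpa using h1
  · have : ((-1 : ℤˣ) • ∏ i, M (σ i) i) = C (-1) * ∏ i, M (σ i) i := by
      simp [Units.neg_smul]
    rw [this]
    simpa using (isHomogeneous_C ι (-1 : ℂ)).mul h1

theorem dd_homog {f : MvPolynomial ι ℂ} {d : ℕ} (hf : f.IsHomogeneous (d + 1)) (v : ι → ℂ) :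
    (dd v f).IsHomogeneous d := by
  rw [dd]
  refine IsHomogeneous.sum _ _ _ fun i _ => ?_
  simpa using (isHomogeneous_C ι (v i)).mul (hf.pderiv (i := i))

theorem adj_homog {r : ℕ} (M : Matrix (Fin r) (Fin r) (MvPolynomial ι ℂ)) (d : Fin r → ℕ)
    (h : ∀ i j, (M i j).IsHomogeneous (d i)) (i j : Fin r) :
    (M.adjugate j i).IsHomogeneous (∑ k ∈ Finset.univ.erase i, d k) := by
  rw [Matrix.adjugate_apply]
  have h1 := det_homog (M.updateRow i (Pi.single j 1)) (Function.update d i 0) (by
    intro k j'
    by_cases hk : k = i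
    · subst hk
      simp only [Matrix.updateRow_self, Function.update_self]
      by_cases hj : j' = j
      · subst hj
        simpa using isHomogeneous_one ι ℂ
      · rw [Pi.single_eq_of_ne hj]
        exact isHomogeneous_zero ι ℂ 0
    · rw [Matrix.updateRow_ne hk, Function.update_of_ne hk]
      exact h k j')
  have h2 : ∑ k, Function.update d i 0 k = ∑ k ∈ Finset.univ.erase i, d k := by
    rw [← Finset.add_sum_erase _ _ (Finset.mem_univ i), Function.update_self, zero_add]
    refine Finset.sum_congr rfl fun k hk => ?_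
    rw [Function.update_of_ne (Finset.mem_erase.1 hk).1]
  rwa [h2] at h1

theorem TT_homog (A : Matrix ι ι ℂ) {r : ℕ} (g : Fin r → MvPolynomial ι ℂ)
    (l : Fin r → ι → ℂ) (d : Fin r → ℕ) (hd : ∀ i, (g i).IsHomogeneous (d i + 1)) :
    (TT A g l).IsHomogeneous (∑ i, d i) := by
  rw [TT, Matrix.trace]
  refine IsHomogeneous.sum _ _ _ fun i _ => ?_
  simp only [Matrix.diag, MM, Matrix.of_apply]
  refine IsHomogeneous.sum _ _ _ fun j _ => ?_
  rw [← Finset.add_sum_erase _ _ (Finset.mem_univ i)]
  exact (dd_homog (DA_homog A (hd i)) (l j)).mul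
    (adj_homog (mat g l) d (fun i' j' => dd_homog (hd i') (l j')) i j)

theorem dif_smul_homog {f : MvPolynomial ι ℂ} {d : ℕ} (hf : f.IsHomogeneous d) (c : ℂ)
    (x : ι → ℂ) : dif f (c • x) = c ^ (d - 1) • dif f x := by
  funext i
  simp only [dif, Pi.smul_apply, smul_eq_mul]
  exact eval_smul_homog (hf.pderiv) c x

/-- **The trace formula.** -/
theorem trace_formula {I : Ideal (MvPolynomial ι ℂ)} {r : ℕ} (hI : Smooth I r)
    {A : Matrix ι ι ℂ}
    {m : ℕ} (hA : A ^ (m + 1) = 0) (hst : ∀ x ∈ cone I, ∀ t : ℂ, orb A m t x ∈ cone I)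
    (hNB : ∀ x ∈ cone I, ∀ s ∈ N I x, ∀ t : ℂ, orbB A m (-t) s ∈ N I (orb A m t x))
    (g : Fin r → MvPolynomial ι ℂ) (hg : ∀ i, g i ∈ I) (d : Fin r → ℕ)
    (hd : ∀ i, (g i).IsHomogeneous (d i + 1)) (l : Fin r → ι → ℂ) {p : ι → ℂ} {a : ℕ}
    (ha : 1 ≤ a) (ham : a ≤ m) (hpa : A ^ a *ᵥ p ≠ 0) (hpa1 : A ^ (a + 1) *ᵥ p = 0)
    (hy : A ^ a *ᵥ p ∈ cone I) (hdet : (matAt g l (A ^ a *ᵥ p)).det ≠ 0)
    (hp : p ∈ cone I) (s : Fin r → ι → ℂ) (hs : ∀ k, s k ∈ N I p)
    (hsli : LinearIndependent ℂ s) :
    ∃ D : ℕ, (∀ l', (plu A m s l').natDegree ≤ D) ∧ (plu A m s l).natDegree = D ∧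
      plu A m s l ≠ 0 ∧
      (D : ℂ) * (matAt g l (A ^ a *ᵥ p)).det = a * (((∑ i, d i : ℕ) : ℂ) *
        (matAt g l (A ^ a *ᵥ p)).det -
          dif (TT A g l) (A ^ a *ᵥ p) ⬝ᵥ (A ^ (a - 1) *ᵥ p)) := by
  have hp0 : p ≠ 0 := by
    rintro rfl
    exact hpa (Matrix.mulVec_zero _)
  obtain ⟨e, hse⟩ := exists_dual s hsli
  set y := A ^ a *ᵥ p with hydef
  set D := ∑ i, d i with hD
  set z := crv A m p with hz
  set h := (Hm A m g p e).det with hh
  set δ := along z (mat g l).det with hδ
  set F := along z (TT A g l) with hF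
  have hzdeg : ∀ k, (z k).natDegree ≤ a := fun k => natDegree_crv hpa1 k
  have hmat : ∀ l' : Fin r → ι → ℂ, (mat g l').det.IsHomogeneous D := fun l' =>
    det_homog _ d fun i j => dd_homog (hd i) (l' j)
  -- the top coefficients
  obtain ⟨c, hc⟩ : ∃ c : ℂ, c = (a.factorial : ℂ)⁻¹ := ⟨_, rfl⟩
  have hc0 : c ≠ 0 := by
    rw [hc]; exact inv_ne_zero (Nat.cast_ne_zero.2 (Nat.factorial_ne_zero a))
  have htop : (fun k => (z k).coeff a) = c • y := by
    funext k
    rw [hz, coeff_crv, if_pos ham, Pi.smul_apply, smul_eq_mul, hc, div_eq_inv_mul]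
  have hsub : (fun k => (z k).coeff (a - 1)) = (a * c) • (A ^ (a - 1) *ᵥ p) := by
    funext k
    obtain ⟨b, rfl⟩ := Nat.exists_eq_add_of_le' ha
    rw [hz, coeff_crv, if_pos (by omega), Pi.smul_apply, smul_eq_mul, hc, Nat.add_sub_cancel,
      Nat.factorial_succ]
    have h4 : ((b : ℂ) + 1) ≠ 0 := Nat.cast_add_one_ne_zero b
    have h5 : (b.factorial : ℂ) ≠ 0 := Nat.cast_ne_zero.2 (Nat.factorial_ne_zero b)
    push_cast
    field_simp
  have hδtop : δ.coeff (a * D) = c ^ D * (matAt g l y).det := by
    rw [hδ, along_coeff_top (hmat l) z a hzdeg, htop, eval_smul_homog (hmat l), eval_det_mat]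
  have hδtop0 : δ.coeff (a * D) ≠ 0 := by
    rw [hδtop]; exact mul_ne_zero (pow_ne_zero _ hc0) hdet
  have hδle : δ.natDegree ≤ a * D := (along_homog (hmat l) z a hzdeg).1
  have hδdeg : δ.natDegree = a * D := le_antisymm hδle (Polynomial.le_natDegree_of_ne_zero hδtop0)
  have hδ0 : δ ≠ 0 := by
    intro h0
    rw [h0] at hδtop0
    simp at hδtop0
  have hT : (TT A g l).IsHomogeneous D := TT_homog A g l d hd
  have hFle : F.natDegree ≤ a * D := (along_homog hT z a hzdeg).1
  -- the determinant identities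
  have htr := det_transport hI hA hst hNB g hg hp hp0 s e hs hse
  have hδeq : δ = h * plu A m s l := htr l
  have hh0 : h ≠ 0 := by
    intro h0; rw [h0, zero_mul] at hδeq; exact hδ0 hδeq
  have hplu0 : plu A m s l ≠ 0 := by
    intro h0; rw [h0, mul_zero] at hδeq; exact hδ0 hδeq
  have hdegs : h.natDegree + (plu A m s l).natDegree = a * D := by
    rw [← Polynomial.natDegree_mul hh0 hplu0, ← hδeq, hδdeg]
  have hode := ode_det hI hA hst g hg l hy hpa hdet hp e
  rw [← hδ, ← hF, ← hh] at hode
  refine ⟨(plu A m s l).natDegree, ?_, rfl, hplu0, ?_⟩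
  · intro l'
    by_cases h0 : plu A m s l' = 0
    · rw [h0]; simp
    have h1 : (h * plu A m s l').natDegree ≤ a * D := by
      rw [← htr l']
      exact (along_homog (hmat l') z a hzdeg).1
    rw [Polynomial.natDegree_mul hh0 h0] at h1
    omega
  · -- comparison of coefficients
    have hq : (h.natDegree : ℂ) * (matAt g l y).det =
        a * (dif (TT A g l) y ⬝ᵥ (A ^ (a - 1) *ᵥ p)) := by
      rcases Nat.eq_zero_or_pos D with hD0 | hD1
      · have h1 : h.natDegree = 0 := by rw [hD0] at hdegs; omega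
        have h2 : dif (TT A g l) y = 0 := by
          rw [hD0] at hT
          funext i
          have h3 : (TT A g l) = C (coeff 0 (TT A g l)) := by
            exact (totalDegree_eq_zero_iff_eq_C).1 (Nat.le_zero.1 hT.totalDegree_le)
          simp only [dif]
          rw [h3, pderiv_C, map_zero]
          rfl
        rw [h1, h2, zero_dotProduct]
        simp
      · -- `F` has degree `< a * D`
        have haD : 1 ≤ a * D := Nat.mul_pos ha hD1
        set q := h.natDegree with hqdef
        have hF0 : F.coeff (a * D) = 0 := by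
          have h1 := congrArg (fun P => Polynomial.coeff P (a * D + q)) hode
          rw [Polynomial.coeff_mul_add_eq_of_natDegree_le hFle le_rfl] at h1
          have h2 : (δ * h.derivative).coeff (a * D + q) = 0 := by
            rcases Nat.eq_zero_or_pos q with hq0 | hq1
            · have h3 : h.derivative = 0 := Polynomial.derivative_of_natDegree_zero hq0
              rw [h3, mul_zero, Polynomial.coeff_zero]
            · apply Polynomial.coeff_eq_zero_of_natDegree_lt
              have h3 := Polynomial.natDegree_derivative_lt (p := h) (by omega)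
              have h4 := Polynomial.natDegree_mul_le (p := δ) (q := h.derivative)
              omega
          rw [h2] at h1
          have h3 : h.coeff q ≠ 0 := Polynomial.leadingCoeff_ne_zero.2 hh0
          exact (mul_eq_zero.1 h1.symm).resolve_right h3
        have hFle' : F.natDegree ≤ a * D - 1 := by
          rw [Polynomial.natDegree_le_iff_coeff_eq_zero]
          intro n hn
          rcases Nat.lt_or_ge (a * D) n with h1 | h1
          · exact Polynomial.coeff_eq_zero_of_natDegree_lt (by omega)
          · have : n = a * D := by omega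
            rw [this, hF0]
        have h1 := congrArg (fun P => Polynomial.coeff P (a * D - 1 + q)) hode
        rw [Polynomial.coeff_mul_add_eq_of_natDegree_le hFle' le_rfl] at h1
        have h2 : (δ * h.derivative).coeff (a * D - 1 + q) =
            δ.coeff (a * D) * (h.coeff q * q) := by
          rcases Nat.eq_zero_or_pos q with hq0 | hq1
          · have h3 : h.derivative = 0 := Polynomial.derivative_of_natDegree_zero hq0
            rw [h3, mul_zero, Polynomial.coeff_zero, hq0]
            simp
          · have h3 : a * D - 1 + q = a * D + (q - 1) := by omega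
            have h4 := Polynomial.natDegree_derivative_lt (p := h) (by omega)
            rw [h3, Polynomial.coeff_mul_add_eq_of_natDegree_le hδle (by omega),
              Polynomial.coeff_derivative]
            have h5 : q - 1 + 1 = q := by omega
            rw [h5]
            congr 2
            have : ((q - 1 : ℕ) : ℂ) = (q : ℂ) - 1 := by
              push_cast [Nat.cast_sub hq1]; ring
            rw [this]; ring
        rw [h2, hF, along_coeff_sub hT z a ha hD1 hzdeg, htop, hsub, dif_smul_homog hT,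
          hδtop] at h1
        have h3 : h.coeff q ≠ 0 := Polynomial.leadingCoeff_ne_zero.2 hh0
        have h4 : (c ^ (D - 1) • dif (TT A g l) y) ⬝ᵥ ((a * c) • (A ^ (a - 1) *ᵥ p)) =
            a * c ^ D * (dif (TT A g l) y ⬝ᵥ (A ^ (a - 1) *ᵥ p)) := by
          rw [smul_dotProduct, dotProduct_smul, smul_eq_mul, smul_eq_mul]
          have : c ^ D = c ^ (D - 1) * c := by
            rw [← pow_succ]; congr 1; omega
          rw [this]; ring
        rw [h4] at h1
        have h5 : c ^ D ≠ 0 := pow_ne_zero _ hc0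
        apply mul_left_cancel₀ h5
        apply mul_left_cancel₀ h3
        linear_combination h1
    have h6 : ((a * D : ℕ) : ℂ) = (h.natDegree : ℂ) + ((plu A m s l).natDegree : ℂ) := by
      rw [← hdegs]; push_cast; ring
    push_cast at h6
    have : ((plu A m s l).natDegree : ℂ) = a * (D : ℂ) - h.natDegree := by
      rw [h6]; ring
    rw [this]
    linear_combination -hq

end Pool.Agent.H26.Uni
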